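import Pool.Agent.N435.Match2

/-!
# Pairwise disjoint members and few irreducible members meeting them partially
-/

set_option autoImplicit false
set_option linter.unusedSectionVars false

namespace Pool.Agent.N435

open Finset
open scoped Classical

variable {α : Type*} [DecidableEq α]

/-- the system of a union-closed family, its irreducible members and disjoint members -/
theorem sys_irr (A G P : Finset (Finset α)) (hA : ∀ X ∈ A, ∀ Y ∈ A, X ∪ Y ∈ A)
    (hG : G = A.filter (fun q => q.Nonempty ∧ ∀ X ∈ A, ∀ Y ∈ A, X ∪ Y = q → X = q ∨ Y = q))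
    (hP : P ⊆ A) (hne : ∀ p ∈ P, p.Nonempty)
    (hdisj : ∀ p ∈ P, ∀ q ∈ P, p ≠ q → Disjoint p q) :
    Sys (insert ∅ A) (G ∪ P) P := by
  refine ⟨union_insert hA, ?_, ?_, subset_union_right, hdisj, hne⟩
  · apply union_subset
    · rw [hG]
      exact (filter_subset _ _).trans (subset_insert _ _)
    · exact hP.trans (subset_insert _ _)
  · intro S hS x hx
    rcases mem_insert.1 hS with rfl | hS
    · exact absurd hx (notMem_empty x)
    · obtain ⟨q, hq, hq', hq''⟩ := irr_gen A S hS x hx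
      exact ⟨q, mem_union_left _ (by rw [hG, mem_filter]; exact ⟨hq, hq'⟩), hq''⟩

theorem hubs_irr (G P : Finset (Finset α)) (hdisj : ∀ p ∈ P, ∀ q ∈ P, p ≠ q → Disjoint p q) :
    hubs (G ∪ P) P ⊆ G.filter (fun k => ∃ p ∈ P, ¬ Disjoint p k ∧ ¬ p ⊆ k) := by
  intro k hk
  simp only [hubs, Mt, mem_filter] at hk
  obtain ⟨hk, p, hp, hk1, hk2⟩ := hk
  rw [mem_filter]
  rcases mem_union.1 hk with h | h
  · exact ⟨h, p, hp, hk1, hk2⟩
  · exfalso
    apply hk1
    apply hdisj p hp k h
    rintro rfl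
    exact hk2 Subset.rfl

/-- some `p ∈ P` is met partially by no irreducible member -/
theorem untouched_irr (A G P : Finset (Finset α)) (hA : ∀ X ∈ A, ∀ Y ∈ A, X ∪ Y ∈ A)
    (hG : G = A.filter (fun q => q.Nonempty ∧ ∀ X ∈ A, ∀ Y ∈ A, X ∪ Y = q → X = q ∨ Y = q))
    (hP : P ⊆ A) (hPne : P.Nonempty) (hne : ∀ p ∈ P, p.Nonempty)
    (hdisj : ∀ p ∈ P, ∀ q ∈ P, p ≠ q → Disjoint p q)
    (hcard : 2 * (G.filter (fun k => ∃ p ∈ P, ¬ Disjoint p k ∧ ¬ p ⊆ k)).card ≤ P.card)
    (H : ∀ p ∈ P, ∀ y ∈ p, 2 * (A.filter (fun S => y ∈ S)).card ≤ (insert ∅ A).card) :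
    ∃ p ∈ P, ∀ q ∈ G ∪ P, Disjoint p q ∨ p ⊆ q := by
  have hsys := sys_irr A G P hA hG hP hne hdisj
  have hc := card_le_card (hubs_irr G P hdisj)
  exact exists_untouched_lin hsys
    (fun p hp y hy => by
      rw [filter_insert_empty]
      exact H p hp y hy) hPne (by omega)

/-- an untouched irreducible member with elements in at most half of the members is disjoint from
the other irreducible members -/
theorem untouched_disjoint (A G : Finset (Finset α)) (hA : ∀ X ∈ A, ∀ Y ∈ A, X ∪ Y ∈ A)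
    (hG : G = A.filter (fun q => q.Nonempty ∧ ∀ X ∈ A, ∀ Y ∈ A, X ∪ Y = q → X = q ∨ Y = q))
    {p : Finset α} (hpG : p ∈ G) (hu : ∀ q ∈ G, Disjoint p q ∨ p ⊆ q)
    (H : ∀ y ∈ p, 2 * (A.filter (fun S => y ∈ S)).card ≤ (insert ∅ A).card) :
    ∀ q ∈ G, q ≠ p → Disjoint p q := by
  have hGA : G ⊆ A := by rw [hG]; exact filter_subset _ _
  have hpne : p.Nonempty := by
    rw [hG, mem_filter] at hpG
    exact hpG.2.1
  have hsys : Sys (insert ∅ A) (G ∪ {p}) {p} := by
    apply sys_irr A G {p} hA hG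
    · intro a ha
      rw [mem_singleton] at ha
      rw [ha]
      exact hGA hpG
    · intro a ha
      rw [mem_singleton] at ha
      rw [ha]
      exact hpne
    · intro a ha b hb hab
      rw [mem_singleton] at ha hb
      exact absurd (ha.trans hb.symm) hab
  have hu' : ∀ q ∈ G ∪ {p}, Disjoint p q ∨ p ⊆ q := by
    intro q hq
    rcases mem_union.1 hq with h | h
    · exact hu q h
    · rw [mem_singleton] at h
      rw [h]
      exact Or.inr Subset.rfl
  intro q hq hqp
  rcases hu q hq with h' | h'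
  · exact h'
  · exfalso
    obtain ⟨y, hy⟩ := hpne
    have h0 := untouched hsys (mem_singleton_self p) hu' hy
    rw [filter_insert_empty] at h0
    have h1 := h0.2 (H y hy) q (mem_insert_of_mem (hGA hq)) h'
    have hq2 := hq
    rw [hG, mem_filter] at hq2
    have h2 : q \ p ∈ A := by
      rcases mem_insert.1 h1 with h0 | h0
      · exfalso
        rw [sdiff_eq_empty_iff_subset] at h0
        exact hqp (subset_antisymm h0 h')
      · exact h0
    rcases hq2.2.2 (q \ p) h2 p (hGA hpG) (sdiff_union_of_subset h') with h3 | h3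
    · have : y ∈ q \ p := by rw [h3]; exact h' hy
      exact (mem_sdiff.1 this).2 hy
    · exact hqp h3.symm

end Pool.Agent.N435
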