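import Pool.Agent.N435.One
import Pool.Agent.N435.Lin4

/-!
# The weighted crossing theorem in terms of the irreducible members
-/

set_option autoImplicit false
set_option linter.unusedSectionVars false

namespace Pool.Agent.N435.One

open Finset Real
open scoped Classical

variable {α : Type*} [DecidableEq α]

theorem one_sub_nonneg (n : ℕ) : (0 : ℝ) ≤ 1 - (1 / 2) ^ n := by
  have := pow_le_one₀ (n := n) (a := (1 / 2 : ℝ)) (by norm_num) (by norm_num)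
  linarith

theorem sum_hubs_le (G P : Finset (Finset α)) (hdisj : ∀ p ∈ P, ∀ q ∈ P, p ≠ q → Disjoint p q) :
    ∑ k ∈ hubs (G ∪ P) P, (1 - (1 / 2 : ℝ) ^ (tch P k).card) ≤
      ∑ k ∈ G.filter (fun k => ∃ p ∈ P, ¬ Disjoint p k ∧ ¬ p ⊆ k),
        (1 - (1 / 2 : ℝ) ^ (P.filter (fun p => ¬ Disjoint p k ∧ ¬ p ⊆ k)).card) :=
  sum_le_sum_of_subset_of_nonneg (hubs_irr G P hdisj) (fun _ _ _ => one_sub_nonneg _)

/-- some `p ∈ P` is met partially by no irreducible member (strict version) -/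
theorem untouched_weighted (A G P : Finset (Finset α)) (hA : ∀ X ∈ A, ∀ Y ∈ A, X ∪ Y ∈ A)
    (hG : G = A.filter (fun q => q.Nonempty ∧ ∀ X ∈ A, ∀ Y ∈ A, X ∪ Y = q → X = q ∨ Y = q))
    (hP : P ⊆ A) (hne : ∀ p ∈ P, p.Nonempty)
    (hdisj : ∀ p ∈ P, ∀ q ∈ P, p ≠ q → Disjoint p q)
    (hcard : ∑ k ∈ G.filter (fun k => ∃ p ∈ P, ¬ Disjoint p k ∧ ¬ p ⊆ k),
      (1 - (1 / 2 : ℝ) ^ (P.filter (fun p => ¬ Disjoint p k ∧ ¬ p ⊆ k)).card) < P.card)
    (H : ∀ p ∈ P, ∀ y ∈ p, 2 * (A.filter (fun S => y ∈ S)).card ≤ (insert ∅ A).card) :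
    ∃ p ∈ P, ∀ q ∈ G ∪ P, Disjoint p q ∨ p ⊆ q := by
  have hsys := sys_irr A G P hA hG hP hne hdisj
  by_contra hcon
  push Not at hcon
  have h1 := weighted_le hsys (fun p hp y hy => by
    rw [filter_insert_empty]
    exact H p hp y hy) (fun p hp => by
      obtain ⟨q, hq, h1, h2⟩ := hcon p hp
      exact ⟨q, hq, h1, h2⟩)
  exact absurd (h1.trans (sum_hubs_le G P hdisj)) (not_le.2 hcard)

/-- some `p ∈ P` is met partially by no irreducible member (non-strict version) -/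
theorem untouched_weighted' (A G P : Finset (Finset α)) (hA : ∀ X ∈ A, ∀ Y ∈ A, X ∪ Y ∈ A)
    (hG : G = A.filter (fun q => q.Nonempty ∧ ∀ X ∈ A, ∀ Y ∈ A, X ∪ Y = q → X = q ∨ Y = q))
    (hP : P ⊆ A) (hPne : P.Nonempty) (hne : ∀ p ∈ P, p.Nonempty)
    (hdisj : ∀ p ∈ P, ∀ q ∈ P, p ≠ q → Disjoint p q)
    (hcard : ∑ k ∈ G.filter (fun k => ∃ p ∈ P, ¬ Disjoint p k ∧ ¬ p ⊆ k),
      (1 - (1 / 2 : ℝ) ^ (P.filter (fun p => ¬ Disjoint p k ∧ ¬ p ⊆ k)).card) ≤ P.card)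
    (H : ∀ p ∈ P, ∀ y ∈ p, 2 * (A.filter (fun S => y ∈ S)).card < (insert ∅ A).card) :
    ∃ p ∈ P, ∀ q ∈ G ∪ P, Disjoint p q ∨ p ⊆ q := by
  have hsys := sys_irr A G P hA hG hP hne hdisj
  by_contra hcon
  push Not at hcon
  have h1 := weighted_lt hsys hPne (fun p hp y hy => by
    rw [filter_insert_empty]
    exact H p hp y hy) (fun p hp => by
      obtain ⟨q, hq, h1, h2⟩ := hcon p hp
      exact ⟨q, hq, h1, h2⟩)
  exact absurd (h1.trans_le (sum_hubs_le G P hdisj)) (not_lt.2 hcard)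

end Pool.Agent.N435.One
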