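import Mathlib

/-!
# A Hölder inequality for cycles, and an entropy bound for families with a pairing

`V` is a finite set with a permutation `c` without fixed points. If a family of subsets of `V ∪ D` is
such that for every `v ∈ V` at least half of the members contain neither `v` nor `c v`, then it has
less than `12 ^ (|V| / 4) 2 ^ |D|` members.
-/

set_option autoImplicit false

namespace Pool.Agent.N435.Cyc

open Finset Real
open scoped Classical

variable {β : Type*} [DecidableEq β]

/-- the product of the factors -/
noncomputable def term (V : Finset β) (c : β → β) (f : β → Bool → Bool → ℝ) (T : Finset β) : ℝ :=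
  ∏ v ∈ V, f v (decide (v ∈ T)) (decide (c v ∈ T))

theorem cs4 {a b c d x y z w M N : ℝ} (hM : 0 ≤ M) (hN : 0 ≤ N)
    (h1 : a ^ 2 + b ^ 2 + c ^ 2 + d ^ 2 ≤ M ^ 2) (h2 : x ^ 2 + y ^ 2 + z ^ 2 + w ^ 2 ≤ N ^ 2) :
    a * x + b * y + c * z + d * w ≤ M * N := by
  have h3 : (a * x + b * y + c * z + d * w) ^ 2 ≤ (M * N) ^ 2 := by
    have e : (a * x + b * y + c * z + d * w) ^ 2 ≤
        (a ^ 2 + b ^ 2 + c ^ 2 + d ^ 2) * (x ^ 2 + y ^ 2 + z ^ 2 + w ^ 2) := by
      nlinarith [sq_nonneg (a * y - b * x), sq_nonneg (a * z - c * x), sq_nonneg (a * w - d * x),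
        sq_nonneg (b * z - c * y), sq_nonneg (b * w - d * y), sq_nonneg (c * w - d * z)]
    rw [mul_pow]
    exact e.trans (mul_le_mul h1 h2 (by positivity) (by positivity))
  exact le_of_sq_le_sq h3 (mul_nonneg hM hN)

/-- Hölder's inequality for a permutation. -/
theorem cyc_bound (n : ℕ) : ∀ V : Finset β, V.card = n → ∀ c : β → β, (∀ v ∈ V, c v ∈ V) →
    Set.InjOn c (V : Set β) → ∀ (f : β → Bool → Bool → ℝ) (N : β → ℝ),
    (∀ v a b, 0 ≤ f v a b) → (∀ v, 0 ≤ N v) →
    (∀ v ∈ V, c v = v → f v false false + f v true true ≤ N v) →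
    (∀ v ∈ V, c v ≠ v → (f v false false) ^ 2 + (f v false true) ^ 2 + (f v true false) ^ 2 +
      (f v true true) ^ 2 ≤ (N v) ^ 2) →
    ∑ T ∈ V.powerset, term V c f T ≤ ∏ v ∈ V, N v := by
  induction n with
  | zero =>
    intro V hV c _ _ f N _ _ _ _
    rw [card_eq_zero] at hV
    subst hV
    simp [term]
  | succ n ih =>
    intro V hV c hc hinj f N hf hN hfix hnf
    have hne : V.Nonempty := card_pos.1 (by omega)
    obtain ⟨u, hu⟩ := hne
    set V' := V.erase u with hV'
    have hV'c : V'.card = n := by
      rw [hV', card_erase_of_mem hu, hV]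
      rfl
    have hins : insert u V' = V := insert_erase hu
    have huV' : u ∉ V' := notMem_erase u V
    have hmem : ∀ v ∈ V', v ∈ V ∧ v ≠ u := fun v hv => ⟨(mem_erase.1 hv).2, (mem_erase.1 hv).1⟩
    by_cases hcu : c u = u
    · -- a fixed point
      have hcv : ∀ v ∈ V', c v ∈ V' := by
        intro v hv
        obtain ⟨h1, h2⟩ := hmem v hv
        refine mem_erase.2 ⟨?_, hc v h1⟩
        intro h
        exact h2 (hinj (mem_coe.2 h1) (mem_coe.2 hu) (h.trans hcu.symm))
      have IH := ih V' hV'c c hcv (hinj.mono (by
        intro v hv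
        exact mem_coe.2 (hmem v (mem_coe.1 hv)).1)) f N hf hN
        (fun v hv => hfix v (hmem v hv).1) (fun v hv => hnf v (hmem v hv).1)
      rw [← hins, sum_powerset_insert huV', prod_insert huV']
      have e0 : ∀ T ∈ V'.powerset, term (insert u V') c f T = f u false false * term V' c f T := by
        intro T hT
        rw [mem_powerset] at hT
        have huT : u ∉ T := fun h => huV' (hT h)
        unfold term
        rw [prod_insert huV', hcu]
        simp [huT]
      have e1 : ∀ T ∈ V'.powerset, term (insert u V') c f (insert u T) =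
          f u true true * term V' c f T := by
        intro T hT
        rw [mem_powerset] at hT
        unfold term
        rw [prod_insert huV', hcu]
        congr 1
        · simp
        · apply prod_congr rfl
          intro v hv
          have h1 : v ∈ insert u T ↔ v ∈ T := by
            rw [mem_insert]
            exact ⟨fun h => h.resolve_left (hmem v hv).2, Or.inr⟩
          have h2 : c v ∈ insert u T ↔ c v ∈ T := by
            rw [mem_insert]
            exact ⟨fun h => h.resolve_left (hmem _ (hcv v hv)).2, Or.inr⟩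
          simp only [h1, h2]
      rw [sum_congr rfl e0, sum_congr rfl e1, ← mul_sum, ← mul_sum, ← add_mul]
      apply mul_le_mul (hfix u hu hcu) IH _ (hN u)
      apply sum_nonneg
      intro T _
      unfold term
      exact prod_nonneg (fun v _ => hf _ _ _)
    · -- the predecessor of `u`
      obtain ⟨u', hu', hcu'⟩ : ∃ u' ∈ V, c u' = u := by
        have himg : V.image c = V := by
          apply eq_of_subset_of_card_le
          · intro y hy
            obtain ⟨v, hv, rfl⟩ := mem_image.1 hy
            exact hc v hv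
          · rw [card_image_of_injOn hinj]
        have : u ∈ V.image c := by rw [himg]; exact hu
        obtain ⟨v, hv, h⟩ := mem_image.1 this
        exact ⟨v, hv, h⟩
      have huu' : u' ≠ u := by
        rintro rfl
        exact hcu hcu'
      have hu'V' : u' ∈ V' := mem_erase.2 ⟨huu', hu'⟩
      set w := c u with hw
      have hwV' : w ∈ V' := mem_erase.2 ⟨hcu, hc u hu⟩
      set c' : β → β := Function.update c u' w with hc'
      set g : Bool → Bool → ℝ := fun b d => f u' b false * f u false d + f u' b true * f u true d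
        with hg
      set f' : β → Bool → Bool → ℝ := Function.update f u' g with hf'
      set N' : β → ℝ := Function.update N u' (N u' * N u) with hN'
      have c'u' : c' u' = w := by rw [hc']; exact Function.update_self _ _ _
      have c'v : ∀ v, v ≠ u' → c' v = c v := fun v hv => by
        rw [hc']; exact Function.update_of_ne hv _ _
      have f'u' : f' u' = g := by rw [hf']; exact Function.update_self _ _ _
      have f'v : ∀ v, v ≠ u' → f' v = f v := fun v hv => by
        rw [hf']; exact Function.update_of_ne hv _ _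
      have N'u' : N' u' = N u' * N u := by rw [hN']; exact Function.update_self _ _ _
      have N'v : ∀ v, v ≠ u' → N' v = N v := fun v hv => by
        rw [hN']; exact Function.update_of_ne hv _ _
      have hcv : ∀ v ∈ V', v ≠ u' → c v ∈ V' := by
        intro v hv hvu'
        obtain ⟨h1, h2⟩ := hmem v hv
        refine mem_erase.2 ⟨?_, hc v h1⟩
        intro h
        exact hvu' (hinj (mem_coe.2 h1) (mem_coe.2 hu') (h.trans hcu'.symm))
      have hgnn : ∀ b d, 0 ≤ g b d := by
        intro b d
        rw [hg]
        exact add_nonneg (mul_nonneg (hf _ _ _) (hf _ _ _)) (mul_nonneg (hf _ _ _) (hf _ _ _))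
      have IH := ih V' hV'c c' (by
          intro v hv
          by_cases h : v = u'
          · rw [h, c'u']
            exact hwV'
          · rw [c'v v h]
            exact hcv v hv h) (by
          intro v hv v' hv' hvv
          have hv := mem_coe.1 hv
          have hv' := mem_coe.1 hv'
          by_cases h : v = u' <;> by_cases h' : v' = u'
          · rw [h, h']
          · exfalso
            rw [h, c'u', c'v v' h'] at hvv
            exact (hmem v' hv').2 (hinj (mem_coe.2 (hmem v' hv').1) (mem_coe.2 hu) hvv.symm)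
          · exfalso
            rw [h', c'u', c'v v h] at hvv
            exact (hmem v hv).2 (hinj (mem_coe.2 (hmem v hv).1) (mem_coe.2 hu) hvv)
          · rw [c'v v h, c'v v' h'] at hvv
            exact hinj (mem_coe.2 (hmem v hv).1) (mem_coe.2 (hmem v' hv').1) hvv) f' N' (by
          intro v a b
          by_cases h : v = u'
          · rw [h, f'u']
            exact hgnn a b
          · rw [f'v v h]
            exact hf v a b) (by
          intro v
          by_cases h : v = u'
          · rw [h, N'u']
            exact mul_nonneg (hN _) (hN _)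
          · rw [N'v v h]
            exact hN v) (by
          intro v hv hcvv
          by_cases h : v = u'
          · rw [h, c'u'] at hcvv
            rw [h, f'u', N'u']
            have h1 := hnf u' hu' (by rw [hcu']; exact huu'.symm)
            have h2 := hnf u hu hcu
            have h3 := cs4 (hN u') (hN u)
              (a := f u' false false) (b := f u' false true) (c := f u' true false)
              (d := f u' true true) (x := f u false false) (y := f u true false)
              (z := f u false true) (w := f u true true) h1 (by linarith)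
            rw [hg]
            simp only
            linarith
          · rw [f'v v h, N'v v h]
            rw [c'v v h] at hcvv
            exact hfix v (hmem v hv).1 hcvv) (by
          intro v hv hcvv
          by_cases h : v = u'
          · rw [h, f'u', N'u']
            have h1 := hnf u' hu' (by rw [hcu']; exact huu'.symm)
            have h2 := hnf u hu hcu
            have h3 : (f u' false false ^ 2 + f u' false true ^ 2 + f u' true false ^ 2 +
                f u' true true ^ 2) * (f u false false ^ 2 + f u false true ^ 2 +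
                f u true false ^ 2 + f u true true ^ 2) ≤ N u' ^ 2 * N u ^ 2 :=
              mul_le_mul h1 h2 (by positivity) (by positivity)
            rw [hg, mul_pow]
            simp only
            nlinarith [sq_nonneg (f u' false false * f u true false - f u' false true * f u false false),
              sq_nonneg (f u' false false * f u true true - f u' false true * f u false true),
              sq_nonneg (f u' true false * f u true false - f u' true true * f u false false),
              sq_nonneg (f u' true false * f u true true - f u' true true * f u false true)]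
          · rw [f'v v h, N'v v h]
            rw [c'v v h] at hcvv
            exact hnf v (hmem v hv).1 hcvv)
      set V'' := V'.erase u' with hV''
      have hins' : insert u' V'' = V' := insert_erase hu'V'
      have hu'V'' : u' ∉ V'' := notMem_erase u' V'
      have hmem'' : ∀ v ∈ V'', v ∈ V' ∧ v ≠ u' := fun v hv =>
        ⟨(mem_erase.1 hv).2, (mem_erase.1 hv).1⟩
      have hPN : ∏ v ∈ V', N' v = ∏ v ∈ V, N v := by
        rw [← hins, prod_insert huV', ← hins', prod_insert hu'V'', prod_insert hu'V'', N'u']
        rw [prod_congr rfl (fun v hv => N'v v (hmem'' v hv).2)]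
        ring
      rw [hPN] at IH
      refine le_trans (le_of_eq ?_) IH
      rw [← hins, sum_powerset_insert huV', ← sum_add_distrib]
      apply sum_congr rfl
      intro T hT
      rw [mem_powerset] at hT
      have huT : u ∉ T := fun h => huV' (hT h)
      have hwu : w ≠ u := hcu
      unfold term
      rw [prod_insert huV', prod_insert huV', ← hins', prod_insert hu'V'', prod_insert hu'V'',
        prod_insert hu'V'', hcu', c'u', f'u', ← hw]
      have e1 : ∏ v ∈ V'', f v (decide (v ∈ insert u T)) (decide (c v ∈ insert u T)) =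
          ∏ v ∈ V'', f v (decide (v ∈ T)) (decide (c v ∈ T)) := by
        apply prod_congr rfl
        intro v hv
        obtain ⟨h0, h0'⟩ := hmem'' v hv
        have h1 : v ∈ insert u T ↔ v ∈ T := by
          rw [mem_insert]
          exact ⟨fun h => h.resolve_left (hmem v h0).2, Or.inr⟩
        have h2 : c v ∈ insert u T ↔ c v ∈ T := by
          rw [mem_insert]
          exact ⟨fun h => h.resolve_left (hmem _ (hcv v h0 h0')).2, Or.inr⟩
        simp only [h1, h2]
      have e2 : ∏ v ∈ V'', f' v (decide (v ∈ T)) (decide (c' v ∈ T)) =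
          ∏ v ∈ V'', f v (decide (v ∈ T)) (decide (c v ∈ T)) := by
        apply prod_congr rfl
        intro v hv
        obtain ⟨h0, h0'⟩ := hmem'' v hv
        rw [f'v v h0', c'v v h0']
      rw [e1, e2]
      have h3 : (u' ∈ insert u T) ↔ (u' ∈ T) := by
        rw [mem_insert]
        exact ⟨fun h => h.resolve_left huu', Or.inr⟩
      have h4 : (w ∈ insert u T) ↔ (w ∈ T) := by
        rw [mem_insert]
        exact ⟨fun h => h.resolve_left hwu, Or.inr⟩
      have h5 : u ∈ insert u T := mem_insert_self _ _
      simp only [h3, h4, h5, huT, decide_true, decide_false]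
      rw [hg]
      ring

/-- the weight of a set -/
noncomputable def wt (V : Finset β) (c : β → β) (H : Finset β) : ℝ :=
  ∏ v ∈ V, (if v ∉ H ∧ c v ∉ H then Real.sqrt 3 else 1)

theorem sqrt3_pos : 0 < Real.sqrt 3 := Real.sqrt_pos.2 (by norm_num)

theorem one_le_sqrt3 : 1 ≤ Real.sqrt 3 := Real.one_le_sqrt.2 (by norm_num)

theorem wt_pos (V : Finset β) (c : β → β) (H : Finset β) : 0 < wt V c H := by
  unfold wt
  apply prod_pos
  intro v _
  split_ifs
  · exact sqrt3_pos
  · norm_num

theorem weight_total {V : Finset β} {c : β → β} (hc : ∀ v ∈ V, c v ∈ V)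
    (hinj : Set.InjOn c (V : Set β)) (hne : ∀ v ∈ V, c v ≠ v) :
    ∑ T ∈ V.powerset, wt V c T ≤ Real.sqrt 6 ^ V.card := by
  have h := cyc_bound V.card V rfl c hc hinj
    (fun _ a b => if a = false ∧ b = false then Real.sqrt 3 else 1) (fun _ => Real.sqrt 6)
    (by intro v a b; split_ifs; exacts [sqrt3_pos.le, zero_le_one])
    (fun _ => Real.sqrt_nonneg _) (fun v hv h => absurd h (hne v hv)) (by
      intro v _ _
      simp only [and_self, if_true, Bool.true_eq_false, and_false, false_and, if_false]
      rw [Real.sq_sqrt (by norm_num), Real.sq_sqrt (by norm_num)]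
      norm_num)
  rw [prod_const] at h
  refine le_trans (le_of_eq ?_) h
  apply sum_congr rfl
  intro T _
  unfold wt term
  apply prod_congr rfl
  intro v _
  simp only [decide_eq_false_iff_not]

theorem wt_congr (V : Finset β) (c : β → β) (hc : ∀ v ∈ V, c v ∈ V) (H : Finset β) :
    wt V c H = wt V c (H ∩ V) := by
  unfold wt
  apply prod_congr rfl
  intro v hv
  have a1 : v ∈ H ↔ v ∈ H ∩ V := by
    rw [mem_inter]
    exact ⟨fun h => ⟨h, hv⟩, fun h => h.1⟩
  have a2 : c v ∈ H ↔ c v ∈ H ∩ V := by
    rw [mem_inter]
    exact ⟨fun h => ⟨h, hc v hv⟩, fun h => h.1⟩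
  simp only [← a1, ← a2]

theorem weight_total' {V : Finset β} {c : β → β} (hc : ∀ v ∈ V, c v ∈ V)
    (hinj : Set.InjOn c (V : Set β)) (hne : ∀ v ∈ V, c v ≠ v)
    (D : Finset β) (𝓗 : Finset (Finset β)) (hH : ∀ H ∈ 𝓗, H ⊆ V ∪ D) :
    ∑ H ∈ 𝓗, wt V c H ≤ 2 ^ D.card * Real.sqrt 6 ^ V.card := by
  have h1 : ∑ E ∈ D.powerset, ∑ H ∈ 𝓗.filter (fun H => H ∩ D = E), wt V c H =
      ∑ H ∈ 𝓗, wt V c H := by
    apply sum_fiberwise_of_maps_to
    intro H _
    rw [mem_powerset]
    exact inter_subset_right
  rw [← h1]
  have h2 : ∀ E ∈ D.powerset, ∑ H ∈ 𝓗.filter (fun H => H ∩ D = E), wt V c H ≤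
      Real.sqrt 6 ^ V.card := by
    intro E _
    have hinj' : Set.InjOn (fun H => H ∩ V) (𝓗.filter (fun H => H ∩ D = E) : Set (Finset β)) := by
      have key : ∀ H ∈ 𝓗.filter (fun H => H ∩ D = E), ∀ H' ∈ 𝓗.filter (fun H => H ∩ D = E),
          H ∩ V = H' ∩ V → H ⊆ H' := by
        intro H h1 H' h2 hHH v hv
        rw [mem_filter] at h1 h2
        rcases mem_union.1 (hH H h1.1 hv) with h | h
        · have : v ∈ H ∩ V := mem_inter.2 ⟨hv, h⟩
          rw [hHH] at this
          exact (mem_inter.1 this).1
        · have : v ∈ H ∩ D := mem_inter.2 ⟨hv, h⟩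
          rw [h1.2, ← h2.2] at this
          exact (mem_inter.1 this).1
      intro H h1 H' h2 hHH
      exact subset_antisymm (key H (mem_coe.1 h1) H' (mem_coe.1 h2) hHH)
        (key H' (mem_coe.1 h2) H (mem_coe.1 h1) hHH.symm)
    rw [sum_congr rfl (fun H _ => wt_congr V c hc H), ← sum_image (f := wt V c) hinj']
    refine le_trans ?_ (weight_total hc hinj hne)
    apply sum_le_sum_of_subset_of_nonneg
    · intro H hH'
      obtain ⟨H', _, rfl⟩ := mem_image.1 hH'
      rw [mem_powerset]
      exact inter_subset_right
    · intro H _ _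
      exact (wt_pos V c H).le
  refine (sum_le_sum h2).trans (le_of_eq ?_)
  rw [sum_const, nsmul_eq_mul, card_powerset]
  push_cast
  ring

/-- Entropy bound for a permutation without fixed points. -/
theorem pair_bound {V : Finset β} {c : β → β} (hc : ∀ v ∈ V, c v ∈ V)
    (hinj : Set.InjOn c (V : Set β)) (hne : ∀ v ∈ V, c v ≠ v) (hV : V.Nonempty)
    (D : Finset β) (𝓗 : Finset (Finset β)) (h0 : ∅ ∈ 𝓗) (hH : ∀ H ∈ 𝓗, H ⊆ V ∪ D)
    (hhalf : ∀ v ∈ V, 𝓗.card ≤ 2 * (𝓗.filter (fun H => v ∉ H ∧ c v ∉ H)).card) :
    𝓗.card ^ 4 < 12 ^ V.card * 16 ^ D.card := by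
  set m : ℝ := (V.card : ℝ) * ((1 / 2 : ℝ) * Real.log (Real.sqrt 3)) with hm
  have hl3 : 0 < Real.log (Real.sqrt 3) := by
    apply Real.log_pos
    rw [Real.lt_sqrt (by norm_num)]
    norm_num
  -- logarithm of the weight
  have hlog : ∀ H, Real.log (wt V c H) =
      ∑ v ∈ V, (if v ∉ H ∧ c v ∉ H then Real.log (Real.sqrt 3) else 0) := by
    intro H
    unfold wt
    rw [Real.log_prod]
    · apply sum_congr rfl
      intro v _
      split_ifs
      · rfl
      · exact Real.log_one
    · intro v _
      split_ifs
      · exact sqrt3_pos.ne'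
      · norm_num
  have h1 : (𝓗.card : ℝ) * m ≤ ∑ H ∈ 𝓗, Real.log (wt V c H) := by
    rw [sum_congr rfl (fun H _ => hlog H), sum_comm]
    have e0 : (𝓗.card : ℝ) * m = ∑ v ∈ V, (𝓗.card : ℝ) * ((1 / 2 : ℝ) * Real.log (Real.sqrt 3)) := by
      rw [sum_const, nsmul_eq_mul, hm]
      ring
    rw [e0]
    apply sum_le_sum
    intro v hv
    have e : ∑ H ∈ 𝓗, (if v ∉ H ∧ c v ∉ H then Real.log (Real.sqrt 3) else 0) =
        ((𝓗.filter (fun H => v ∉ H ∧ c v ∉ H)).card : ℝ) * Real.log (Real.sqrt 3) := by
      rw [← sum_filter, sum_const, nsmul_eq_mul]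
    rw [e]
    have h3 : (𝓗.card : ℝ) ≤ 2 * ((𝓗.filter (fun H => v ∉ H ∧ c v ∉ H)).card : ℝ) := by
      exact_mod_cast hhalf v hv
    nlinarith
  have h2 : (𝓗.card : ℝ) * Real.exp m < ∑ H ∈ 𝓗, wt V c H := by
    have e0 : ∀ H : Finset β, Real.exp m * Real.exp (Real.log (wt V c H) - m) = wt V c H := by
      intro H
      rw [← Real.exp_add]
      have : m + (Real.log (wt V c H) - m) = Real.log (wt V c H) := by ring
      rw [this, Real.exp_log (wt_pos V c H)]
    have h3 : ∀ H ∈ 𝓗, Real.exp m * (1 + (Real.log (wt V c H) - m)) ≤ wt V c H := by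
      intro H _
      have a := Real.add_one_le_exp (Real.log (wt V c H) - m)
      calc Real.exp m * (1 + (Real.log (wt V c H) - m))
          ≤ Real.exp m * Real.exp (Real.log (wt V c H) - m) := by
            apply mul_le_mul_of_nonneg_left _ (Real.exp_pos _).le
            linarith
        _ = wt V c H := e0 H
    have hVc : (0 : ℝ) < V.card := by exact_mod_cast card_pos.2 hV
    have h4 : Real.exp m * (1 + (Real.log (wt V c ∅) - m)) < wt V c ∅ := by
      have hx : Real.log (wt V c ∅) - m ≠ 0 := by
        rw [hlog, hm]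
        simp only [notMem_empty, not_false_eq_true, and_self, if_true, sum_const, nsmul_eq_mul]
        have : 0 < (V.card : ℝ) * Real.log (Real.sqrt 3) := mul_pos hVc hl3
        intro hcon
        linarith
      have a := Real.add_one_lt_exp hx
      calc Real.exp m * (1 + (Real.log (wt V c ∅) - m))
          < Real.exp m * Real.exp (Real.log (wt V c ∅) - m) := by
            apply mul_lt_mul_of_pos_left _ (Real.exp_pos _)
            linarith
        _ = wt V c ∅ := e0 ∅
    refine lt_of_le_of_lt ?_ (sum_lt_sum h3 ⟨∅, h0, h4⟩)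
    rw [← mul_sum, sum_add_distrib, sum_sub_distrib]
    simp only [sum_const, nsmul_eq_mul, mul_one]
    have : 0 ≤ ∑ H ∈ 𝓗, Real.log (wt V c H) - 𝓗.card * m := by linarith
    have h4 := mul_nonneg (Real.exp_pos m).le this
    nlinarith [Real.exp_pos m]
  have h3 := lt_of_lt_of_le h2 (weight_total' hc hinj hne D 𝓗 hH)
  -- the fourth power
  have hem : Real.exp m ^ 4 = 3 ^ V.card := by
    rw [← Real.exp_nat_mul, hm]
    have e : ((4 : ℕ) : ℝ) * ((V.card : ℝ) * ((1 / 2 : ℝ) * Real.log (Real.sqrt 3))) =
        (V.card : ℝ) * Real.log 3 := by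
      rw [Real.log_sqrt (by norm_num)]
      push_cast
      ring
    rw [e, Real.exp_nat_mul, Real.exp_log (by norm_num)]
  have h4 : ((𝓗.card : ℝ) * Real.exp m) ^ 4 < (2 ^ D.card * Real.sqrt 6 ^ V.card) ^ 4 :=
    pow_lt_pow_left₀ h3 (by positivity) (by norm_num)
  have e6 : (Real.sqrt 6 ^ V.card) ^ 4 = 12 ^ V.card * 3 ^ V.card := by
    rw [← pow_mul, mul_comm, pow_mul, ← mul_pow]
    congr 1
    have : Real.sqrt 6 ^ 4 = (Real.sqrt 6 ^ 2) ^ 2 := by ring
    rw [this, Real.sq_sqrt (by norm_num)]
    norm_num
  have e2 : ((2 : ℝ) ^ D.card) ^ 4 = 16 ^ D.card := by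
    rw [← pow_mul, mul_comm, pow_mul]
    norm_num
  rw [mul_pow, mul_pow, hem, e6, e2] at h4
  have h5 : (𝓗.card : ℝ) ^ 4 * 3 ^ V.card < (12 ^ V.card * 16 ^ D.card) * 3 ^ V.card := by
    linarith
  have h6 : (𝓗.card : ℝ) ^ 4 < 12 ^ V.card * 16 ^ D.card :=
    lt_of_mul_lt_mul_right h5 (by positivity)
  exact_mod_cast h6

end Pool.Agent.N435.Cyc
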