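import Pool.Agent.N435.Cyc

/-!
# The entropy bound with a general frequency
-/

set_option autoImplicit false

namespace Pool.Agent.N435.Cyc

open Finset Real
open scoped Classical

variable {β : Type*} [DecidableEq β]

/-- the weight of a set -/
noncomputable def wr (r : ℝ) (V : Finset β) (c : β → β) (H : Finset β) : ℝ :=
  ∏ v ∈ V, (if v ∉ H ∧ c v ∉ H then r else 1)

theorem wr_pos {r : ℝ} (hr : 0 < r) (V : Finset β) (c : β → β) (H : Finset β) :
    0 < wr r V c H := by
  unfold wr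
  apply prod_pos
  intro v _
  split_ifs
  · exact hr
  · norm_num

theorem wr_total {r : ℝ} (hr : 0 < r) {V : Finset β} {c : β → β} (hc : ∀ v ∈ V, c v ∈ V)
    (hinj : Set.InjOn c (V : Set β)) (hne : ∀ v ∈ V, c v ≠ v) :
    ∑ T ∈ V.powerset, wr r V c T ≤ Real.sqrt (r ^ 2 + 3) ^ V.card := by
  have h := cyc_bound V.card V rfl c hc hinj
    (fun _ a b => if a = false ∧ b = false then r else 1) (fun _ => Real.sqrt (r ^ 2 + 3))
    (by intro v a b; split_ifs; exacts [hr.le, zero_le_one])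
    (fun _ => Real.sqrt_nonneg _) (fun v hv h => absurd h (hne v hv)) (by
      intro v _ _
      simp only [and_self, if_true, Bool.true_eq_false, and_false, false_and, if_false]
      rw [Real.sq_sqrt (by positivity)]
      linarith)
  rw [prod_const] at h
  refine le_trans (le_of_eq ?_) h
  apply sum_congr rfl
  intro T _
  unfold wr term
  apply prod_congr rfl
  intro v _
  simp only [decide_eq_false_iff_not]

theorem wr_congr (r : ℝ) (V : Finset β) (c : β → β) (hc : ∀ v ∈ V, c v ∈ V) (H : Finset β) :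
    wr r V c H = wr r V c (H ∩ V) := by
  unfold wr
  apply prod_congr rfl
  intro v hv
  have a1 : v ∈ H ↔ v ∈ H ∩ V := by
    rw [mem_inter]
    exact ⟨fun h => ⟨h, hv⟩, fun h => h.1⟩
  have a2 : c v ∈ H ↔ c v ∈ H ∩ V := by
    rw [mem_inter]
    exact ⟨fun h => ⟨h, hc v hv⟩, fun h => h.1⟩
  simp only [← a1, ← a2]

theorem wr_total' {r : ℝ} (hr : 0 < r) {V : Finset β} {c : β → β} (hc : ∀ v ∈ V, c v ∈ V)
    (hinj : Set.InjOn c (V : Set β)) (hne : ∀ v ∈ V, c v ≠ v)
    (D : Finset β) (𝓗 : Finset (Finset β)) (hH : ∀ H ∈ 𝓗, H ⊆ V ∪ D) :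
    ∑ H ∈ 𝓗, wr r V c H ≤ 2 ^ D.card * Real.sqrt (r ^ 2 + 3) ^ V.card := by
  have h1 : ∑ E ∈ D.powerset, ∑ H ∈ 𝓗.filter (fun H => H ∩ D = E), wr r V c H =
      ∑ H ∈ 𝓗, wr r V c H := by
    apply sum_fiberwise_of_maps_to
    intro H _
    rw [mem_powerset]
    exact inter_subset_right
  rw [← h1]
  have h2 : ∀ E ∈ D.powerset, ∑ H ∈ 𝓗.filter (fun H => H ∩ D = E), wr r V c H ≤
      Real.sqrt (r ^ 2 + 3) ^ V.card := by
    intro E _
    have hinj' : Set.InjOn (fun H => H ∩ V) (𝓗.filter (fun H => H ∩ D = E) : Set (Finset β)) := by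
      have key : ∀ H ∈ 𝓗.filter (fun H => H ∩ D = E), ∀ H' ∈ 𝓗.filter (fun H => H ∩ D = E),
          H ∩ V = H' ∩ V → H ⊆ H' := by
        intro H h1 H' h2 hHH v hv
        rw [mem_filter] at h1 h2
        rcases mem_union.1 (hH H h1.1 hv) with h | h
        · have : v ∈ H ∩ V := mem_inter.2 ⟨hv, h⟩
          rw [hHH] at this
          exact (mem_inter.1 this).1
        · have : v ∈ H ∩ D := mem_inter.2 ⟨hv, h⟩
          rw [h1.2, ← h2.2] at this
          exact (mem_inter.1 this).1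
      intro H h1 H' h2 hHH
      exact subset_antisymm (key H (mem_coe.1 h1) H' (mem_coe.1 h2) hHH)
        (key H' (mem_coe.1 h2) H (mem_coe.1 h1) hHH.symm)
    rw [sum_congr rfl (fun H _ => wr_congr r V c hc H), ← sum_image (f := wr r V c) hinj']
    refine le_trans ?_ (wr_total hr hc hinj hne)
    apply sum_le_sum_of_subset_of_nonneg
    · intro H hH'
      obtain ⟨H', _, rfl⟩ := mem_image.1 hH'
      rw [mem_powerset]
      exact inter_subset_right
    · intro H _ _
      exact (wr_pos hr V c H).le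
  refine (sum_le_sum h2).trans (le_of_eq ?_)
  rw [sum_const, nsmul_eq_mul, card_powerset]
  push_cast
  ring

/-- Entropy bound for a permutation without fixed points, for a general frequency. -/
theorem pair_bound_t {V : Finset β} {c : β → β} (hc : ∀ v ∈ V, c v ∈ V)
    (hinj : Set.InjOn c (V : Set β)) (hne : ∀ v ∈ V, c v ≠ v) (hV : V.Nonempty)
    {t : ℝ} (ht0 : 0 < t) (ht : t ≤ 1 / 2)
    (D : Finset β) (𝓗 : Finset (Finset β)) (h0 : ∅ ∈ 𝓗) (hH : ∀ H ∈ 𝓗, H ⊆ V ∪ D)
    (hfreq : ∀ v ∈ V, (1 - t) * (𝓗.card : ℝ) ≤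
      ((𝓗.filter (fun H => v ∉ H ∧ c v ∉ H)).card : ℝ)) :
    (𝓗.card : ℝ) ^ 2 < ((3 / t) ^ t * (1 / (1 - t)) ^ (1 - t)) ^ V.card * 4 ^ D.card := by
  set R : ℝ := 3 * (1 - t) / t with hR
  have ht1 : 0 < 1 - t := by linarith
  have hR1 : 1 < R := by
    rw [hR, lt_div_iff₀ ht0]
    linarith
  have hR0 : 0 < R := by linarith
  set r : ℝ := Real.sqrt R with hr
  have hr0 : 0 < r := Real.sqrt_pos.2 hR0
  have hr2 : r ^ 2 = R := Real.sq_sqrt hR0.le
  have hl : 0 < Real.log r := by
    apply Real.log_pos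
    rw [hr, Real.lt_sqrt (by norm_num)]
    simpa using hR1
  set m : ℝ := (V.card : ℝ) * ((1 - t) * Real.log r) with hm
  -- logarithm of the weight
  have hlog : ∀ H, Real.log (wr r V c H) =
      ∑ v ∈ V, (if v ∉ H ∧ c v ∉ H then Real.log r else 0) := by
    intro H
    unfold wr
    rw [Real.log_prod]
    · apply sum_congr rfl
      intro v _
      split_ifs
      · rfl
      · exact Real.log_one
    · intro v _
      split_ifs
      · exact hr0.ne'
      · norm_num
  have h1 : (𝓗.card : ℝ) * m ≤ ∑ H ∈ 𝓗, Real.log (wr r V c H) := by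
    rw [sum_congr rfl (fun H _ => hlog H), sum_comm]
    have e0 : (𝓗.card : ℝ) * m = ∑ v ∈ V, (𝓗.card : ℝ) * ((1 - t) * Real.log r) := by
      rw [sum_const, nsmul_eq_mul, hm]
      ring
    rw [e0]
    apply sum_le_sum
    intro v hv
    have e : ∑ H ∈ 𝓗, (if v ∉ H ∧ c v ∉ H then Real.log r else 0) =
        ((𝓗.filter (fun H => v ∉ H ∧ c v ∉ H)).card : ℝ) * Real.log r := by
      rw [← sum_filter, sum_const, nsmul_eq_mul]
    rw [e]
    have h3 := mul_le_mul_of_nonneg_right (hfreq v hv) hl.le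
    linarith
  have h2 : (𝓗.card : ℝ) * Real.exp m < ∑ H ∈ 𝓗, wr r V c H := by
    have e0 : ∀ H : Finset β, Real.exp m * Real.exp (Real.log (wr r V c H) - m) = wr r V c H := by
      intro H
      rw [← Real.exp_add]
      have : m + (Real.log (wr r V c H) - m) = Real.log (wr r V c H) := by ring
      rw [this, Real.exp_log (wr_pos hr0 V c H)]
    have h3 : ∀ H ∈ 𝓗, Real.exp m * (1 + (Real.log (wr r V c H) - m)) ≤ wr r V c H := by
      intro H _
      have a := Real.add_one_le_exp (Real.log (wr r V c H) - m)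
      calc Real.exp m * (1 + (Real.log (wr r V c H) - m))
          ≤ Real.exp m * Real.exp (Real.log (wr r V c H) - m) := by
            apply mul_le_mul_of_nonneg_left _ (Real.exp_pos _).le
            linarith
        _ = wr r V c H := e0 H
    have hVc : (0 : ℝ) < V.card := by exact_mod_cast card_pos.2 hV
    have h4 : Real.exp m * (1 + (Real.log (wr r V c ∅) - m)) < wr r V c ∅ := by
      have hx : Real.log (wr r V c ∅) - m ≠ 0 := by
        rw [hlog, hm]
        simp only [notMem_empty, not_false_eq_true, and_self, if_true, sum_const, nsmul_eq_mul]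
        have : 0 < t * ((V.card : ℝ) * Real.log r) := mul_pos ht0 (mul_pos hVc hl)
        intro hcon
        have e : (V.card : ℝ) * Real.log r - (V.card : ℝ) * ((1 - t) * Real.log r) =
            t * ((V.card : ℝ) * Real.log r) := by ring
        rw [e] at hcon
        linarith
      have a := Real.add_one_lt_exp hx
      calc Real.exp m * (1 + (Real.log (wr r V c ∅) - m))
          < Real.exp m * Real.exp (Real.log (wr r V c ∅) - m) := by
            apply mul_lt_mul_of_pos_left _ (Real.exp_pos _)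
            linarith
        _ = wr r V c ∅ := e0 ∅
    refine lt_of_le_of_lt ?_ (sum_lt_sum h3 ⟨∅, h0, h4⟩)
    rw [← mul_sum, sum_add_distrib, sum_sub_distrib]
    simp only [sum_const, nsmul_eq_mul, mul_one]
    have : 0 ≤ ∑ H ∈ 𝓗, Real.log (wr r V c H) - 𝓗.card * m := by linarith
    have h4 := mul_nonneg (Real.exp_pos m).le this
    nlinarith [Real.exp_pos m]
  have h3 := lt_of_lt_of_le h2 (wr_total' hr0 hc hinj hne D 𝓗 hH)
  rw [hr2] at h3
  -- the square
  have hem : Real.exp m ^ 2 = (R ^ (1 - t)) ^ V.card := by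
    rw [← Real.exp_nat_mul, hm]
    have e : ((2 : ℕ) : ℝ) * ((V.card : ℝ) * ((1 - t) * Real.log r)) =
        (V.card : ℝ) * (Real.log R * (1 - t)) := by
      rw [hr, Real.log_sqrt hR0.le]
      push_cast
      ring
    rw [e, Real.exp_nat_mul, Real.rpow_def_of_pos hR0]
  have h4 : ((𝓗.card : ℝ) * Real.exp m) ^ 2 < (2 ^ D.card * Real.sqrt (R + 3) ^ V.card) ^ 2 :=
    pow_lt_pow_left₀ h3 (by positivity) (by norm_num)
  have hR3 : R + 3 = 3 / t := by
    rw [hR]
    field_simp
    ring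
  have e1 : R ^ (1 - t) * ((3 / t) ^ t * (1 / (1 - t)) ^ (1 - t)) = R + 3 := by
    have ht3 : 0 < 3 / t := by positivity
    have a1 : R = (3 / t) * (1 - t) := by
      rw [hR]
      ring
    rw [hR3, a1, Real.mul_rpow ht3.le ht1.le]
    have a2 : (1 - t) ^ (1 - t) * (1 / (1 - t)) ^ (1 - t) = 1 := by
      rw [← Real.mul_rpow ht1.le (by positivity)]
      rw [mul_one_div_cancel ht1.ne', Real.one_rpow]
    have a3 : (3 / t) ^ (1 - t) * (3 / t) ^ t = 3 / t := by
      rw [← Real.rpow_add ht3]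
      have : 1 - t + t = 1 := by ring
      rw [this, Real.rpow_one]
    calc (3 / t) ^ (1 - t) * (1 - t) ^ (1 - t) * ((3 / t) ^ t * (1 / (1 - t)) ^ (1 - t))
        = ((3 / t) ^ (1 - t) * (3 / t) ^ t) * ((1 - t) ^ (1 - t) * (1 / (1 - t)) ^ (1 - t)) := by
          ring
      _ = 3 / t := by rw [a2, a3, mul_one]
  have e6 : (Real.sqrt (R + 3) ^ V.card) ^ 2 =
      (R ^ (1 - t)) ^ V.card * ((3 / t) ^ t * (1 / (1 - t)) ^ (1 - t)) ^ V.card := by
    rw [← mul_pow, e1, ← pow_mul, mul_comm, pow_mul, Real.sq_sqrt (by linarith)]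
  have e2 : ((2 : ℝ) ^ D.card) ^ 2 = 4 ^ D.card := by
    rw [← pow_mul, mul_comm, pow_mul]
    norm_num
  rw [mul_pow, mul_pow, hem, e6, e2] at h4
  have hRp : 0 < (R ^ (1 - t)) ^ V.card := pow_pos (Real.rpow_pos_of_pos hR0 _) _
  have h5 : (𝓗.card : ℝ) ^ 2 * (R ^ (1 - t)) ^ V.card <
      (((3 / t) ^ t * (1 / (1 - t)) ^ (1 - t)) ^ V.card * 4 ^ D.card) *
        (R ^ (1 - t)) ^ V.card := by
    linarith
  exact lt_of_mul_lt_mul_right h5 hRp.le

end Pool.Agent.N435.Cyc
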