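import Pool.Agent.N435.One
import Pool.Agent.N435.Cyc
import Pool.Agent.N435.Lin4

/-!
# Dense families: `12 ^ (g / 4)` members suffice
-/

set_option autoImplicit false
set_option linter.unusedSectionVars false

namespace Pool.Agent.N435.One

open Finset Real
open scoped Classical

/-- Dense families: if every element lies in at most half of the members, some generator in `G1` is
met partially by no generator. -/
theorem dense12 {α : Type*} [DecidableEq α] {F G : Finset (Finset α)}
    (uc : ∀ S ∈ F, ∀ T ∈ F, S ∪ T ∈ F) (h0 : ∅ ∈ F) (gf : G ⊆ F)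
    (gen : ∀ S ∈ F, ∀ x ∈ S, ∃ q ∈ G, x ∈ q ∧ q ⊆ S) (ne : ∀ p ∈ G, p.Nonempty)
    (G1 : Finset (Finset α)) (hG1 : nonisol G ⊆ G1) (hG1' : G1 ⊆ G) (hne : G1.Nonempty)
    (hm : 12 ^ G1.card * 16 ^ (G \ G1).card ≤ F.card ^ 4)
    (H : ∀ x, 2 * (F.filter (fun S => x ∈ S)).card ≤ F.card) :
    ∃ p ∈ G1, ∀ q ∈ G, Disjoint p q ∨ p ⊆ q := by
  by_contra hcon
  push Not at hcon
  -- Hall's condition
  have hall : ∀ S : Finset {a // a ∈ G1}, S.card ≤
      (S.biUnion (fun a => G1.filter (fun b => a.1 ≠ b ∧ ¬ Disjoint a.1 b))).card := by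
    intro S0
    set S : Finset (Finset α) := S0.image Subtype.val with hS
    have hSc : S.card = S0.card := card_image_of_injective _ Subtype.val_injective
    have hSG : S ⊆ G1 := by
      intro a ha
      obtain ⟨b, _, rfl⟩ := mem_image.1 ha
      exact b.2
    set N := S0.biUnion (fun a => G1.filter (fun b => a.1 ≠ b ∧ ¬ Disjoint a.1 b)) with hN
    have hNmem : ∀ b, b ∈ N ↔ b ∈ G1 ∧ ∃ a ∈ S, a ≠ b ∧ ¬ Disjoint a b := by
      intro b
      rw [hN, mem_biUnion]
      constructor
      · rintro ⟨a, ha, hb⟩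
        rw [mem_filter] at hb
        exact ⟨hb.1, a.1, mem_image_of_mem _ ha, hb.2⟩
      · rintro ⟨hb, a, ha, hab⟩
        obtain ⟨a', ha', rfl⟩ := mem_image.1 ha
        exact ⟨a', ha', mem_filter.2 ⟨hb, hab⟩⟩
    rw [← hSc]
    rcases (S \ N).eq_empty_or_nonempty with h1 | h1
    · rw [sdiff_eq_empty_iff_subset] at h1
      exact card_le_card h1
    · set P := S \ N with hP
      have hPS : P ⊆ S := sdiff_subset
      have hPG : P ⊆ G1 := hPS.trans hSG
      have hdisj : ∀ p ∈ P, ∀ q ∈ P, p ≠ q → Disjoint p q := by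
        intro p hp q hq hpq
        by_contra hd
        exact (mem_sdiff.1 hq).2 ((hNmem q).2 ⟨hPG hq, p, hPS hp, hpq, hd⟩)
      have hsys : Sys F G P :=
        ⟨uc, gf, gen, hPG.trans hG1', hdisj, fun p hp => ne p (hG1' (hPG hp))⟩
      have h2 := card_lt_hubs hsys (fun p _ y _ => H y) (fun p hp => by
        obtain ⟨q, hq, h1, h2⟩ := hcon p (hPG hp)
        exact ⟨q, hq, h1, h2⟩) h1
      have h3 : hubs G P ⊆ N \ S := by
        intro k hk
        simp only [hubs, Mt, mem_filter] at hk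
        obtain ⟨hkG, p, hp, hk1, hk2⟩ := hk
        have hpk : p ≠ k := by
          rintro rfl
          exact hk2 Subset.rfl
        have hkG1 : k ∈ G1 := by
          apply hG1
          simp only [nonisol, mem_filter]
          exact ⟨hkG, p, hG1' (hPG hp), hpk, fun hd => hk1 hd.symm⟩
        rw [mem_sdiff]
        refine ⟨(hNmem k).2 ⟨hkG1, p, hPS hp, hpk, hk1⟩, ?_⟩
        intro hkS
        exact (mem_sdiff.1 hp).2 ((hNmem p).2 ⟨hPG hp, k, hkS, hpk.symm, fun hd => hk1 hd.symm⟩)
      have h4 := card_le_card h3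
      have e1 : P.card + (S ∩ N).card = S.card := by
        rw [hP]
        convert card_sdiff_add_card_inter S N using 3
      have e2 : (N \ S).card + (N ∩ S).card = N.card := by
        convert card_sdiff_add_card_inter N S using 3
      have e3 : (N ∩ S).card = (S ∩ N).card := by rw [inter_comm]
      omega
  obtain ⟨f, hf1, hf2⟩ := (Finset.all_card_le_biUnion_card_iff_exists_injective
    (fun a : {a // a ∈ G1} => G1.filter (fun b => a.1 ≠ b ∧ ¬ Disjoint a.1 b))).1 hall
  set c : Finset α → Finset α := fun v => if h : v ∈ G1 then f ⟨v, h⟩ else v with hc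
  have hcv : ∀ v ∈ G1, c v ∈ G1 ∧ v ≠ c v ∧ ¬ Disjoint v (c v) := by
    intro v hv
    have h1 := hf2 ⟨v, hv⟩
    rw [mem_filter] at h1
    have e : c v = f ⟨v, hv⟩ := by
      rw [hc]
      simp only [hv, dif_pos]
    rw [e]
    exact h1
  have hcinj : Set.InjOn c (G1 : Set (Finset α)) := by
    intro v hv w hw hvw
    have hv := mem_coe.1 hv
    have hw := mem_coe.1 hw
    have e : c v = f ⟨v, hv⟩ := by
      rw [hc]
      simp only [hv, dif_pos]
    have e' : c w = f ⟨w, hw⟩ := by
      rw [hc]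
      simp only [hw, dif_pos]
    rw [e, e'] at hvw
    exact congrArg Subtype.val (hf1 hvw)
  have hinj := gens_injOn (F := F) (G := G) gen
  have hb := Cyc.pair_bound (V := G1) (c := c) (fun v hv => (hcv v hv).1) hcinj
    (fun v hv => (hcv v hv).2.1.symm) hne (G \ G1) (F.image (gens G)) (by
      refine mem_image.2 ⟨∅, h0, ?_⟩
      unfold gens
      rw [filter_eq_empty_iff]
      intro q hq hqe
      have := ne q hq
      rw [subset_empty.1 hqe] at this
      exact absurd this (by simp)) (by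
      intro K hK
      obtain ⟨S, _, rfl⟩ := mem_image.1 hK
      rw [union_sdiff_of_subset hG1']
      exact filter_subset _ _) (by
      intro v hv
      obtain ⟨x, hxv, hxc⟩ := not_disjoint_iff.1 (hcv v hv).2.2
      rw [card_image_of_injOn hinj]
      have h1 : (F.filter (fun S => x ∉ S)).card ≤
          ((F.image (gens G)).filter (fun K => v ∉ K ∧ c v ∉ K)).card := by
        apply card_le_card_of_injOn (gens G)
        · intro S hS
          have hS' := mem_coe.1 hS
          rw [mem_filter] at hS'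
          apply mem_coe.2
          rw [mem_filter]
          refine ⟨mem_image_of_mem _ hS'.1, ?_, ?_⟩
          · intro hvS
            exact hS'.2 ((mem_filter.1 hvS).2 hxv)
          · intro hvS
            exact hS'.2 ((mem_filter.1 hvS).2 hxc)
        · intro S hS T hT hST
          exact hinj (mem_coe.2 (mem_filter.1 (mem_coe.1 hS)).1)
            (mem_coe.2 (mem_filter.1 (mem_coe.1 hT)).1) hST
      have h2 := card_filter_add_card_filter_not (s := F) (fun S => x ∈ S)
      have h3 := H x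
      omega)
  rw [card_image_of_injOn hinj] at hb
  exact absurd hm (not_le.2 hb)


variable {α : Type*} [DecidableEq α]

/-- some `p ∈ P` is met partially by no irreducible member -/
theorem untouched_irr (A G P : Finset (Finset α)) (hA : ∀ X ∈ A, ∀ Y ∈ A, X ∪ Y ∈ A)
    (hG : G = A.filter (fun q => q.Nonempty ∧ ∀ X ∈ A, ∀ Y ∈ A, X ∪ Y = q → X = q ∨ Y = q))
    (hP : P ⊆ A) (hPne : P.Nonempty) (hne : ∀ p ∈ P, p.Nonempty)
    (hdisj : ∀ p ∈ P, ∀ q ∈ P, p ≠ q → Disjoint p q)
    (hcard : (G.filter (fun k => ∃ p ∈ P, ¬ Disjoint p k ∧ ¬ p ⊆ k)).card ≤ P.card)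
    (H : ∀ p ∈ P, ∀ y ∈ p, 2 * (A.filter (fun S => y ∈ S)).card ≤ (insert ∅ A).card) :
    ∃ p ∈ P, ∀ q ∈ G ∪ P, Disjoint p q ∨ p ⊆ q := by
  have hsys := sys_irr A G P hA hG hP hne hdisj
  have hc := card_le_card (hubs_irr G P hdisj)
  exact exists_untouched hsys
    (fun p hp y hy => by
      rw [filter_insert_empty]
      exact H p hp y hy) hPne (by omega)

/-- Dense families, in terms of a set `G1 ⊇ nonisol G` of irreducible members. -/
theorem dense_irr12 (A G G1 : Finset (Finset α)) (hA : ∀ X ∈ A, ∀ Y ∈ A, X ∪ Y ∈ A)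
    (hG : G = A.filter (fun q => q.Nonempty ∧ ∀ X ∈ A, ∀ Y ∈ A, X ∪ Y = q → X = q ∨ Y = q))
    (hG1 : nonisol G ⊆ G1) (hG1' : G1 ⊆ G) (hne : G1.Nonempty)
    (hm : 12 ^ G1.card * 16 ^ (G \ G1).card ≤ (insert ∅ A).card ^ 4)
    (H : ∀ x, 2 * (A.filter (fun S => x ∈ S)).card ≤ (insert ∅ A).card) :
    ∃ p ∈ G1, (∀ q ∈ G, q ≠ p → Disjoint p q) ∧
      ∀ y ∈ p, (insert ∅ A).card ≤ 2 * (A.filter (fun S => y ∈ S)).card := by
  have hGA : G ⊆ A := by rw [hG]; exact filter_subset _ _
  have gf : G ⊆ insert ∅ A := hGA.trans (subset_insert _ _)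
  have ne : ∀ p ∈ G, p.Nonempty := by
    intro p hp
    rw [hG, mem_filter] at hp
    exact hp.2.1
  have gen : ∀ S ∈ insert ∅ A, ∀ x ∈ S, ∃ q ∈ G, x ∈ q ∧ q ⊆ S := by
    intro S hS x hx
    rcases mem_insert.1 hS with rfl | hS
    · exact absurd hx (notMem_empty x)
    · obtain ⟨q, hq, hq', hq''⟩ := irr_gen A S hS x hx
      exact ⟨q, by rw [hG, mem_filter]; exact ⟨hq, hq'⟩, hq''⟩
  have H' : ∀ x, 2 * ((insert ∅ A).filter (fun S => x ∈ S)).card ≤ (insert ∅ A).card := by
    intro x
    rw [filter_insert_empty]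
    exact H x
  obtain ⟨p, hp, hu⟩ := dense12 (union_insert hA) (mem_insert_self _ _) gf gen ne G1 hG1 hG1' hne
    hm H'
  have hpG := hG1' hp
  refine ⟨p, hp, untouched_disjoint A G hA hG hpG hu (fun y _ => H y), ?_⟩
  intro y hy
  have hsys : Sys (insert ∅ A) G {p} := by
    refine ⟨union_insert hA, gf, gen, by simpa using hpG, ?_, ?_⟩
    · intro a ha b hb hab
      rw [mem_singleton] at ha hb
      exact absurd (ha.trans hb.symm) hab
    · intro a ha
      rw [mem_singleton] at ha
      rw [ha]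
      exact ne p hpG
  have := untouched hsys (mem_singleton_self p) hu hy
  rw [filter_insert_empty] at this
  exact this.1

end Pool.Agent.N435.One
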