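import Pool.Agent.N435.Dense12
import Pool.Agent.N435.Cyc2

/-!
# Dense families and the maximal frequency
-/

set_option autoImplicit false
set_option linter.unusedSectionVars false

namespace Pool.Agent.N435.One

open Finset Real
open scoped Classical

/-- If all elements lie in at most half of the members and every generator in `G1` is met partially by
some generator, then there is a permutation of `G1` mapping each of its members to a different one
which it meets. -/
theorem exists_perm {α : Type*} [DecidableEq α] {F G : Finset (Finset α)}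
    (uc : ∀ S ∈ F, ∀ T ∈ F, S ∪ T ∈ F) (gf : G ⊆ F)
    (gen : ∀ S ∈ F, ∀ x ∈ S, ∃ q ∈ G, x ∈ q ∧ q ⊆ S) (ne : ∀ p ∈ G, p.Nonempty)
    (G1 : Finset (Finset α)) (hG1 : nonisol G ⊆ G1) (hG1' : G1 ⊆ G)
    (H : ∀ x, 2 * (F.filter (fun S => x ∈ S)).card ≤ F.card)
    (hcon : ∀ p ∈ G1, ∃ q ∈ G, ¬ Disjoint p q ∧ ¬ p ⊆ q) :
    ∃ c : Finset α → Finset α, (∀ v ∈ G1, c v ∈ G1 ∧ v ≠ c v ∧ ¬ Disjoint v (c v)) ∧
      Set.InjOn c (G1 : Set (Finset α)) := by
  -- Hall's condition
  have hall : ∀ S : Finset {a // a ∈ G1}, S.card ≤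
      (S.biUnion (fun a => G1.filter (fun b => a.1 ≠ b ∧ ¬ Disjoint a.1 b))).card := by
    intro S0
    set S : Finset (Finset α) := S0.image Subtype.val with hS
    have hSc : S.card = S0.card := card_image_of_injective _ Subtype.val_injective
    have hSG : S ⊆ G1 := by
      intro a ha
      obtain ⟨b, _, rfl⟩ := mem_image.1 ha
      exact b.2
    set N := S0.biUnion (fun a => G1.filter (fun b => a.1 ≠ b ∧ ¬ Disjoint a.1 b)) with hN
    have hNmem : ∀ b, b ∈ N ↔ b ∈ G1 ∧ ∃ a ∈ S, a ≠ b ∧ ¬ Disjoint a b := by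
      intro b
      rw [hN, mem_biUnion]
      constructor
      · rintro ⟨a, ha, hb⟩
        rw [mem_filter] at hb
        exact ⟨hb.1, a.1, mem_image_of_mem _ ha, hb.2⟩
      · rintro ⟨hb, a, ha, hab⟩
        obtain ⟨a', ha', rfl⟩ := mem_image.1 ha
        exact ⟨a', ha', mem_filter.2 ⟨hb, hab⟩⟩
    rw [← hSc]
    rcases (S \ N).eq_empty_or_nonempty with h1 | h1
    · rw [sdiff_eq_empty_iff_subset] at h1
      exact card_le_card h1
    · set P := S \ N with hP
      have hPS : P ⊆ S := sdiff_subset
      have hPG : P ⊆ G1 := hPS.trans hSG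
      have hdisj : ∀ p ∈ P, ∀ q ∈ P, p ≠ q → Disjoint p q := by
        intro p hp q hq hpq
        by_contra hd
        exact (mem_sdiff.1 hq).2 ((hNmem q).2 ⟨hPG hq, p, hPS hp, hpq, hd⟩)
      have hsys : Sys F G P :=
        ⟨uc, gf, gen, hPG.trans hG1', hdisj, fun p hp => ne p (hG1' (hPG hp))⟩
      have h2 := card_lt_hubs hsys (fun p _ y _ => H y) (fun p hp => by
        obtain ⟨q, hq, h1, h2⟩ := hcon p (hPG hp)
        exact ⟨q, hq, h1, h2⟩) h1
      have h3 : hubs G P ⊆ N \ S := by
        intro k hk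
        simp only [hubs, Mt, mem_filter] at hk
        obtain ⟨hkG, p, hp, hk1, hk2⟩ := hk
        have hpk : p ≠ k := by
          rintro rfl
          exact hk2 Subset.rfl
        have hkG1 : k ∈ G1 := by
          apply hG1
          simp only [nonisol, mem_filter]
          exact ⟨hkG, p, hG1' (hPG hp), hpk, fun hd => hk1 hd.symm⟩
        rw [mem_sdiff]
        refine ⟨(hNmem k).2 ⟨hkG1, p, hPS hp, hpk, hk1⟩, ?_⟩
        intro hkS
        exact (mem_sdiff.1 hp).2 ((hNmem p).2 ⟨hPG hp, k, hkS, hpk.symm, fun hd => hk1 hd.symm⟩)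
      have h4 := card_le_card h3
      have e1 : P.card + (S ∩ N).card = S.card := by
        rw [hP]
        convert card_sdiff_add_card_inter S N using 3
      have e2 : (N \ S).card + (N ∩ S).card = N.card := by
        convert card_sdiff_add_card_inter N S using 3
      have e3 : (N ∩ S).card = (S ∩ N).card := by rw [inter_comm]
      omega
  obtain ⟨f, hf1, hf2⟩ := (Finset.all_card_le_biUnion_card_iff_exists_injective
    (fun a : {a // a ∈ G1} => G1.filter (fun b => a.1 ≠ b ∧ ¬ Disjoint a.1 b))).1 hall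
  refine ⟨fun v => if h : v ∈ G1 then f ⟨v, h⟩ else v, ?_, ?_⟩
  · intro v hv
    have h1 := hf2 ⟨v, hv⟩
    rw [mem_filter] at h1
    simp only [hv, dif_pos]
    exact h1
  · intro v hv w hw hvw
    have hv := mem_coe.1 hv
    have hw := mem_coe.1 hw
    simp only [hv, hw, dif_pos] at hvw
    exact congrArg Subtype.val (hf1 hvw)

/-- Dense families have an element of frequency at least `t`. -/
theorem dense_t {α : Type*} [DecidableEq α] {F G : Finset (Finset α)}
    (uc : ∀ S ∈ F, ∀ T ∈ F, S ∪ T ∈ F) (h0 : ∅ ∈ F) (gf : G ⊆ F)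
    (gen : ∀ S ∈ F, ∀ x ∈ S, ∃ q ∈ G, x ∈ q ∧ q ⊆ S) (ne : ∀ p ∈ G, p.Nonempty)
    (hne : G.Nonempty) {t : ℝ} (ht0 : 0 < t) (ht : t ≤ 1 / 2)
    (hm : ((3 / t) ^ t * (1 / (1 - t)) ^ (1 - t)) ^ G.card ≤ (F.card : ℝ) ^ 2) :
    ∃ x, t * (F.card : ℝ) ≤ ((F.filter (fun S => x ∈ S)).card : ℝ) := by
  by_contra hcon0
  push Not at hcon0
  have hF0 : (0 : ℝ) ≤ F.card := by positivity
  have H' : ∀ x, 2 * (F.filter (fun S => x ∈ S)).card < F.card := by
    intro x
    have h1 := hcon0 x
    have h2 : t * (F.card : ℝ) ≤ 1 / 2 * F.card := mul_le_mul_of_nonneg_right ht hF0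
    have h3 : (2 : ℝ) * ((F.filter (fun S => x ∈ S)).card : ℝ) < F.card := by linarith
    exact_mod_cast h3
  have hcon : ∀ p ∈ G, ∃ q ∈ G, ¬ Disjoint p q ∧ ¬ p ⊆ q := by
    intro p hp
    by_contra hc
    push Not at hc
    obtain ⟨y, hy⟩ := ne p hp
    have hsys : Sys F G {p} := by
      refine ⟨uc, gf, gen, by simpa using hp, ?_, ?_⟩
      · intro a ha b hb hab
        rw [mem_singleton] at ha hb
        exact absurd (ha.trans hb.symm) hab
      · intro a ha
        rw [mem_singleton] at ha
        rw [ha]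
        exact ne p hp
    have h1 := (untouched hsys (mem_singleton_self p) (fun q hq => by
      by_cases hd : Disjoint p q
      · exact Or.inl hd
      · exact Or.inr (hc q hq hd)) hy).1
    exact absurd h1 (not_le.2 (H' y))
  obtain ⟨c, hcv, hcinj⟩ := exists_perm uc gf gen ne G (filter_subset _ _) Subset.rfl
    (fun x => (H' x).le) hcon
  have hinj := gens_injOn (F := F) (G := G) gen
  have hb := Cyc.pair_bound_t (V := G) (c := c) (fun v hv => (hcv v hv).1) hcinj
    (fun v hv => (hcv v hv).2.1.symm) hne ht0 ht ∅ (F.image (gens G)) (by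
      refine mem_image.2 ⟨∅, h0, ?_⟩
      unfold gens
      rw [filter_eq_empty_iff]
      intro q hq hqe
      have := ne q hq
      rw [subset_empty.1 hqe] at this
      exact absurd this (by simp)) (by
      intro K hK
      obtain ⟨S, _, rfl⟩ := mem_image.1 hK
      rw [union_empty]
      exact filter_subset _ _) (by
      intro v hv
      obtain ⟨x, hxv, hxc⟩ := not_disjoint_iff.1 (hcv v hv).2.2
      rw [card_image_of_injOn hinj]
      have h1 : (F.filter (fun S => x ∉ S)).card ≤
          ((F.image (gens G)).filter (fun K => v ∉ K ∧ c v ∉ K)).card := by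
        apply card_le_card_of_injOn (gens G)
        · intro S hS
          have hS' := mem_coe.1 hS
          rw [mem_filter] at hS'
          apply mem_coe.2
          rw [mem_filter]
          refine ⟨mem_image_of_mem _ hS'.1, ?_, ?_⟩
          · intro hvS
            exact hS'.2 ((mem_filter.1 hvS).2 hxv)
          · intro hvS
            exact hS'.2 ((mem_filter.1 hvS).2 hxc)
        · intro S hS T hT hST
          exact hinj (mem_coe.2 (mem_filter.1 (mem_coe.1 hS)).1)
            (mem_coe.2 (mem_filter.1 (mem_coe.1 hT)).1) hST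
      have h1' : ((F.filter (fun S => x ∉ S)).card : ℝ) ≤
          (((F.image (gens G)).filter (fun K => v ∉ K ∧ c v ∉ K)).card : ℝ) := by
        exact_mod_cast h1
      have h2 := card_filter_add_card_filter_not (s := F) (fun S => x ∈ S)
      have h2' : ((F.filter (fun S => x ∈ S)).card : ℝ) + ((F.filter (fun S => x ∉ S)).card : ℝ) =
          F.card := by exact_mod_cast h2
      have h3 := hcon0 x
      have e : (1 - t) * (F.card : ℝ) = F.card - t * F.card := by ring
      rw [e]
      linarith)
  rw [card_image_of_injOn hinj, card_empty, pow_zero, mul_one] at hb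
  exact absurd hm (not_le.2 hb)

end Pool.Agent.N435.One
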