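import Pool.Agent.N435.HalfP
import Pool.Agent.N188.LD.Main

set_option autoImplicit false

/-!
# Half of the subsets of some set

The edge inequality gives the averaging statement for the fibres of a union-closed family; the
reduction removes elements of `S` which lie in few members of `G`.
-/

namespace Pool.Agent.N435.Half

open Finset

variable {α : Type*} [DecidableEq α]

theorem card_up_eq (H : Finset (Finset α)) (i : α) :
    (up i H).card = (H.filter (fun A => i ∈ A)).card := by
  have h1 := card_memberSubfamily_add_card_nonMemberSubfamily i H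
  have h2 := card_filter_add_card_filter_not (s := H) (fun A => i ∈ A)
  unfold Finset.nonMemberSubfamily at h1
  unfold up
  omega

/-- the averaging statement for one fibre -/
theorem avg_fib {S : Finset α} {H G : Finset (Finset α)} (hS : ∀ A ∈ H, A ⊆ S)
    (hH : ∀ A ∈ H, ∀ B ∈ H, A ∪ B ∈ H) (hG : ∀ B ∈ G, B ⊆ S)
    (ha : ∀ A ∈ H, ∀ B ∈ G, A ∪ B ∈ H)
    (h4 : ∀ i ∈ S, 2 ^ S.card ≤ 4 * (G.filter (fun g => i ∈ g)).card) :
    (H.card : ℝ) * S.card ≤ ∑ A ∈ H, 2 * (A.card : ℝ) := by
  rcases S.eq_empty_or_nonempty with h0 | h0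
  · rw [h0, card_empty, Nat.cast_zero, mul_zero]
    exact sum_nonneg (fun A _ => by positivity)
  have hn : 0 < S.card := card_pos.2 h0
  have hedge := edges hS hH hG ha
  have hp : 2 ^ S.card = 2 * 2 ^ (S.card - 1) := by
    rw [← pow_succ']
    congr 1
    omega
  -- losses are at most gains
  have h1 : ∑ i ∈ S, (lo i H \ up i H).card ≤ ∑ i ∈ S, (up i H \ lo i H).card := by
    have h2 : 2 ^ (S.card - 1) * ∑ i ∈ S, (lo i H \ up i H).card ≤
        2 ^ (S.card - 1) * ∑ i ∈ S, (up i H \ lo i H).card := by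
      refine le_trans ?_ hedge
      rw [mul_sum]
      apply sum_le_sum
      intro i hi
      have h3 := h4 i hi
      rw [hp] at h3
      have h5 : 2 ^ (S.card - 1) ≤ 2 * (G.filter (fun g => i ∈ g)).card := by omega
      calc 2 ^ (S.card - 1) * (lo i H \ up i H).card
          ≤ (2 * (G.filter (fun g => i ∈ g)).card) * (lo i H \ up i H).card :=
            Nat.mul_le_mul_right _ h5
        _ = 2 * (lo i H \ up i H).card * (G.filter (fun g => i ∈ g)).card := by ring
    exact Nat.le_of_mul_le_mul_left h2 (by positivity)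
  have h2 : ∑ i ∈ S, (lo i H).card ≤ ∑ i ∈ S, (up i H).card := by
    have h3 : ∀ i ∈ S, (up i H).card + (lo i H \ up i H).card =
        (lo i H).card + (up i H \ lo i H).card := by
      intro i _
      have e1 := card_sdiff_add_card (lo i H) (up i H)
      have e2 := card_sdiff_add_card (up i H) (lo i H)
      rw [union_comm] at e2
      omega
    have h4' := sum_congr rfl h3
    rw [sum_add_distrib, sum_add_distrib] at h4'
    omega
  have h3 : ∑ i ∈ S, ((lo i H).card + (up i H).card) = H.card * S.card := by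
    rw [mul_comm, ← smul_eq_mul, ← sum_const]
    apply sum_congr rfl
    intro i _
    have e1 := card_memberSubfamily_add_card_nonMemberSubfamily i H
    unfold lo up
    omega
  have h5 : ∑ i ∈ S, (up i H).card = ∑ A ∈ H, A.card := by
    have e1 := Pool.Agent.N188.LD.sum_freq H S
    rw [sum_congr rfl (fun i _ => card_up_eq H i), e1]
    apply sum_congr rfl
    intro A hA
    rw [inter_eq_left.2 (hS A hA)]
  rw [sum_add_distrib] at h3
  have h6 : H.card * S.card ≤ 2 * ∑ A ∈ H, A.card := by omega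
  rw [← mul_sum]
  exact_mod_cast h6

section

variable {F G : Finset (Finset α)} {S : Finset α}

/-- If every element of `S` lies in at least `2 ^ |S| / 4` members of `G`, the traces on `S` of the
members of `F` have on average at least `|S| / 2` elements. -/
theorem avg (hF : ∀ A ∈ F, ∀ B ∈ F, A ∪ B ∈ F) (hG : ∀ B ∈ G, B ⊆ S)
    (ha : ∀ A ∈ F, ∀ B ∈ G, A ∪ B ∈ F)
    (h4 : ∀ i ∈ S, 2 ^ S.card ≤ 4 * (G.filter (fun g => i ∈ g)).card) :
    F.card * S.card ≤ 2 * ∑ A ∈ F, (A ∩ S).card := by
  have h := Pool.Agent.N188.LD.fib_sum F S (S.card : ℝ) (fun T =>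
    avg_fib (Pool.Agent.N188.LD.fib_sub T) (Pool.Agent.N188.LD.fib_union hF T) hG
      (Pool.Agent.N188.LD.fib_absorb hG ha T) h4)
  rw [← mul_sum] at h
  exact_mod_cast h

/-- some element of `S` is in at least half of the members -/
theorem exists_mem (hF : ∀ A ∈ F, ∀ B ∈ F, A ∪ B ∈ F) (hG : ∀ B ∈ G, B ⊆ S)
    (ha : ∀ A ∈ F, ∀ B ∈ G, A ∪ B ∈ F)
    (h4 : ∀ i ∈ S, 2 ^ S.card ≤ 4 * (G.filter (fun g => i ∈ g)).card) (hS : S.Nonempty) :
    ∃ x ∈ S, F.card ≤ 2 * (F.filter (fun A => x ∈ A)).card := by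
  have h1 := avg hF hG ha h4
  by_contra hcon
  push Not at hcon
  have h2 : ∑ x ∈ S, 2 * (F.filter (fun A => x ∈ A)).card < ∑ x ∈ S, F.card :=
    sum_lt_sum_of_nonempty hS hcon
  rw [← mul_sum, Pool.Agent.N188.LD.sum_freq, sum_const, smul_eq_mul, mul_comm S.card] at h2
  omega

end

/-- removing an element which is in few members -/
theorem remove {S : Finset α} {G : Finset (Finset α)} (hG : ∀ B ∈ G, B ⊆ S)
    (h : 2 ^ S.card ≤ 2 * G.card) {i : α} (hi : i ∈ S)
    (h4 : 4 * (G.filter (fun g => i ∈ g)).card < 2 ^ S.card) :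
    (∀ B ∈ G.filter (fun g => i ∉ g), B ⊆ S.erase i) ∧
      2 ^ (S.erase i).card < 2 * (G.filter (fun g => i ∉ g)).card := by
  constructor
  · intro B hB
    rw [mem_filter] at hB
    exact subset_erase.2 ⟨hG B hB.1, hB.2⟩
  · have h1 := card_filter_add_card_filter_not (s := G) (fun g => i ∈ g)
    rw [card_erase_of_mem hi]
    have hn : 0 < S.card := card_pos.2 ⟨i, hi⟩
    have hp : 2 ^ S.card = 2 * 2 ^ (S.card - 1) := by
      rw [← pow_succ']
      congr 1
      omega
    omega

/-- the reduction, strict form -/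
theorem good_strict : ∀ (n : ℕ) (S : Finset α) (G : Finset (Finset α)), S.card = n + 1 →
    (∀ B ∈ G, B ⊆ S) → 2 ^ S.card < 2 * G.card →
    ∃ S' ⊆ S, S'.Nonempty ∧ ∀ i ∈ S', 2 ^ S'.card ≤
      4 * ((G.filter (fun g => g ⊆ S')).filter (fun g => i ∈ g)).card := by
  intro n
  induction n with
  | zero =>
    intro S G hS hG h
    refine ⟨S, Subset.rfl, card_pos.1 (by omega), ?_⟩
    intro i hi
    rw [filter_true_of_mem hG]
    by_contra hcon
    rw [not_le] at hcon
    obtain ⟨h1, h2⟩ := remove hG h.le hi hcon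
    have hE : S.erase i = ∅ := by
      rw [← card_eq_zero, card_erase_of_mem hi]
      omega
    rw [hE] at h1
    have h3 : (G.filter (fun g => i ∉ g)).card ≤ 1 := by
      rw [card_le_one]
      intro a ha b hb
      rw [subset_empty.1 (h1 a ha), subset_empty.1 (h1 b hb)]
    have h5 := card_filter_add_card_filter_not (s := G) (fun g => i ∈ g)
    rw [hS] at h hcon
    norm_num at h hcon
    omega
  | succ n ih =>
    intro S G hS hG h
    by_cases hall : ∀ i ∈ S, 2 ^ S.card ≤ 4 * (G.filter (fun g => i ∈ g)).card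
    · refine ⟨S, Subset.rfl, card_pos.1 (by omega), ?_⟩
      intro i hi
      rw [filter_true_of_mem hG]
      exact hall i hi
    · push Not at hall
      obtain ⟨i, hi, hlt⟩ := hall
      obtain ⟨h1, h2⟩ := remove hG h.le hi hlt
      obtain ⟨S', hS', hne, hS4⟩ := ih (S.erase i) (G.filter (fun g => i ∉ g))
        (by rw [card_erase_of_mem hi]; omega) h1 h2
      refine ⟨S', hS'.trans (erase_subset _ _), hne, ?_⟩
      intro x hx
      refine (hS4 x hx).trans (Nat.mul_le_mul_left _ (card_le_card ?_))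
      intro g hg
      simp only [mem_filter] at hg ⊢
      tauto

/-- the reduction -/
theorem good {S : Finset α} {G : Finset (Finset α)} (hS : 2 ≤ S.card) (hG : ∀ B ∈ G, B ⊆ S)
    (h : 2 ^ S.card ≤ 2 * G.card) :
    ∃ S' ⊆ S, S'.Nonempty ∧ ∀ i ∈ S', 2 ^ S'.card ≤
      4 * ((G.filter (fun g => g ⊆ S')).filter (fun g => i ∈ g)).card := by
  by_cases hall : ∀ i ∈ S, 2 ^ S.card ≤ 4 * (G.filter (fun g => i ∈ g)).card
  · refine ⟨S, Subset.rfl, card_pos.1 (by omega), ?_⟩
    intro i hi
    rw [filter_true_of_mem hG]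
    exact hall i hi
  · push Not at hall
    obtain ⟨i, hi, hlt⟩ := hall
    obtain ⟨h1, h2⟩ := remove hG h hi hlt
    obtain ⟨S', hS', hne, hS4⟩ := good_strict (S.card - 2) (S.erase i)
      (G.filter (fun g => i ∉ g)) (by rw [card_erase_of_mem hi]; omega) h1 h2
    refine ⟨S', hS'.trans (erase_subset _ _), hne, ?_⟩
    intro x hx
    refine (hS4 x hx).trans (Nat.mul_le_mul_left _ (card_le_card ?_))
    intro g hg
    simp only [mem_filter] at hg ⊢
    tauto

/-- Half of the subsets of some set with at least two elements. -/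
theorem half {F G : Finset (Finset α)} {S : Finset α} (hF : ∀ A ∈ F, ∀ B ∈ F, A ∪ B ∈ F)
    (hG : ∀ B ∈ G, B ⊆ S) (ha : ∀ A ∈ F, ∀ B ∈ G, A ∪ B ∈ F) (hS : 2 ≤ S.card)
    (h : 2 ^ S.card ≤ 2 * G.card) :
    ∃ x ∈ S, F.card ≤ 2 * (F.filter (fun A => x ∈ A)).card := by
  obtain ⟨S', hS', hne, hS4⟩ := good hS hG h
  obtain ⟨x, hx, hx2⟩ := exists_mem (G := G.filter (fun g => g ⊆ S')) hF
    (fun B hB => (mem_filter.1 hB).2) (fun A hA B hB => ha A hA B (mem_filter.1 hB).1) hS4 hne
  exact ⟨x, hS' hx, hx2⟩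

end Pool.Agent.N435.Half
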