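import Pool.Agent.N435.HalfT

set_option autoImplicit false

/-!
# The edge inequality

`H` is a union-closed family of subsets of `S` and absorbs the family `G` of subsets of `S`. Then
`2 ∑_i |L_i| |G_i| ≤ 2 ^ (|S| - 1) ∑_i |D_i|` where `L_i` consists of the members `A` of `H` with
`i ∉ A`, `A ∪ {i} ∉ H`, `D_i` of the sets `A ∉ H` with `i ∉ A`, `A ∪ {i} ∈ H`, and `G_i` of the members
of `G` containing `i`. The two family inequality is applied for every `i` and averaged over all
orders of `S`.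
-/

namespace Pool.Agent.N435.Half

open Finset

section perm

variable {β : Type*} [Fintype β] [DecidableEq β] {n : ℕ}

/-- At most one in `|K|` orders has its maximum over `K` at a given element of `K`. -/
theorem perm_count (K : Finset β) (j : β) (hj : j ∈ K) :
    (univ.filter (fun σ : β ≃ Fin n => ∀ y ∈ K, σ y ≤ σ j)).card * K.card ≤
      Fintype.card (β ≃ Fin n) := by
  have hc : ∀ x ∈ K, (univ.filter (fun σ : β ≃ Fin n => ∀ y ∈ K, σ y ≤ σ x)).card =
      (univ.filter (fun σ : β ≃ Fin n => ∀ y ∈ K, σ y ≤ σ j)).card := by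
    intro x hx
    have hsw : ∀ y ∈ K, Equiv.swap x j y ∈ K := by
      intro y hy
      by_cases h1 : y = x
      · rw [h1, Equiv.swap_apply_left]; exact hj
      · by_cases h2 : y = j
        · rw [h2, Equiv.swap_apply_right]; exact hx
        · rw [Equiv.swap_apply_of_ne_of_ne h1 h2]; exact hy
    apply le_antisymm
    · apply card_le_card_of_injOn (fun σ => (Equiv.swap x j).trans σ)
      · intro σ hσ
        simp only [coe_filter, mem_univ, true_and, Set.mem_setOf_eq] at hσ ⊢
        intro y hy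
        rw [Equiv.trans_apply, Equiv.trans_apply, Equiv.swap_apply_right]
        exact hσ _ (hsw y hy)
      · intro σ _ τ _ hst
        have h1 : (Equiv.swap x j).trans σ = (Equiv.swap x j).trans τ := hst
        ext y
        have h2 := DFunLike.congr_fun h1 (Equiv.swap x j y)
        rw [Equiv.trans_apply, Equiv.trans_apply, Equiv.swap_apply_self] at h2
        rw [h2]
    · apply card_le_card_of_injOn (fun σ => (Equiv.swap x j).trans σ)
      · intro σ hσ
        simp only [coe_filter, mem_univ, true_and, Set.mem_setOf_eq] at hσ ⊢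
        intro y hy
        rw [Equiv.trans_apply, Equiv.trans_apply, Equiv.swap_apply_left]
        exact hσ _ (hsw y hy)
      · intro σ _ τ _ hst
        have h1 : (Equiv.swap x j).trans σ = (Equiv.swap x j).trans τ := hst
        ext y
        have h2 := DFunLike.congr_fun h1 (Equiv.swap x j y)
        rw [Equiv.trans_apply, Equiv.trans_apply, Equiv.swap_apply_self] at h2
        rw [h2]
  have hd : (K : Set β).PairwiseDisjoint
      (fun x => univ.filter (fun σ : β ≃ Fin n => ∀ y ∈ K, σ y ≤ σ x)) := by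
    intro x hx z hz hxz
    change Disjoint _ _
    rw [disjoint_left]
    intro σ h1 h2
    rw [mem_filter] at h1 h2
    exact hxz (σ.injective (le_antisymm (h2.2 x hx) (h1.2 z hz)))
  have hb := card_biUnion hd
  rw [sum_congr rfl hc, sum_const, smul_eq_mul] at hb
  rw [mul_comm, ← hb]
  exact card_le_univ _

end perm

variable {α : Type*} [DecidableEq α]

/-- the rank function of an enumeration of `S` -/
def rkf (S : Finset α) {n : ℕ} (σ : ↥S ≃ Fin n) (x : α) : ℕ :=
  if h : x ∈ S then (σ ⟨x, h⟩ : ℕ) else 0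

theorem count_rk {S : Finset α} {n : ℕ} {I : Finset α} (hI : I ⊆ S) {j : α} (hj : j ∈ S)
    (hjI : j ∉ I) {i : α} (hi : i ∈ I) :
    (univ.filter (fun σ : ↥S ≃ Fin n => ∀ x ∈ I, x ≠ i → rkf S σ x ≤ rkf S σ j)).card * I.card ≤
      Fintype.card (↥S ≃ Fin n) := by
  have hsub : insert j (I.erase i) ⊆ S := by
    intro x hx
    rw [mem_insert] at hx
    rcases hx with rfl | hx
    · exact hj
    · exact hI (mem_of_mem_erase hx)
  have hcK : ((insert j (I.erase i)).subtype (· ∈ S)).card = I.card := by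
    rw [card_subtype, filter_true_of_mem (fun x hx => hsub hx), card_insert_of_notMem,
      card_erase_add_one hi]
    exact fun hh => hjI (mem_of_mem_erase hh)
  have hjK : (⟨j, hj⟩ : ↥S) ∈ (insert j (I.erase i)).subtype (· ∈ S) := by
    rw [mem_subtype]
    exact mem_insert_self _ _
  have hp := perm_count (n := n) _ _ hjK
  rw [hcK] at hp
  refine le_trans (Nat.mul_le_mul_right _ (card_le_card ?_)) hp
  intro σ hσ
  rw [mem_filter] at hσ ⊢
  refine ⟨mem_univ _, ?_⟩
  rintro ⟨y, hy⟩ hyK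
  rw [mem_subtype, mem_insert, mem_erase] at hyK
  rcases hyK with hyj | ⟨hyi, hyI⟩
  · have hyj' : y = j := hyj
    subst hyj'
    exact le_rfl
  · have h1 := hσ.2 y hyI hyi
    unfold rkf at h1
    rw [dif_pos hy, dif_pos hj] at h1
    exact h1

theorem count_pair {S : Finset α} {n : ℕ} {I : Finset α} (hI : I ⊆ S) {j : α} (hj : j ∈ S)
    (hjI : j ∉ I) :
    ∑ i ∈ S, (univ.filter (fun σ : ↥S ≃ Fin n => i ∈ I ∧ ∀ x ∈ I, x ≠ i →
      rkf S σ x ≤ rkf S σ j)).card ≤ Fintype.card (↥S ≃ Fin n) := by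
  have h1 : ∑ i ∈ S, (univ.filter (fun σ : ↥S ≃ Fin n => i ∈ I ∧ ∀ x ∈ I, x ≠ i →
      rkf S σ x ≤ rkf S σ j)).card =
      ∑ i ∈ I, (univ.filter (fun σ : ↥S ≃ Fin n => ∀ x ∈ I, x ≠ i →
      rkf S σ x ≤ rkf S σ j)).card := by
    rw [← sum_subset hI]
    · apply sum_congr rfl
      intro i hi
      simp only [hi, true_and]
    · intro i _ hi
      simp only [hi, false_and, filter_false, card_empty]
  rw [h1]
  rcases I.eq_empty_or_nonempty with h0 | h0
  · rw [h0, sum_empty]
    exact Nat.zero_le _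
  · have h2 : (∑ i ∈ I, (univ.filter (fun σ : ↥S ≃ Fin n => ∀ x ∈ I, x ≠ i →
        rkf S σ x ≤ rkf S σ j)).card) * I.card ≤ Fintype.card (↥S ≃ Fin n) * I.card := by
      rw [sum_mul]
      refine (sum_le_card_nsmul _ _ _ (fun i hi => count_rk hI hj hjI hi)).trans ?_
      rw [smul_eq_mul, mul_comm]
    exact Nat.le_of_mul_le_mul_right h2 (card_pos.2 h0)

section main

variable {S : Finset α} {H G : Finset (Finset α)}

theorem hypi (hS : ∀ A ∈ H, A ⊆ S) (hH : ∀ A ∈ H, ∀ B ∈ H, A ∪ B ∈ H) (i : α) :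
    Hyp (S.erase i) (lo i H) (up i H) := by
  refine ⟨?_, ?_, ?_, ?_, ?_⟩
  · intro A hA
    rw [mem_lo] at hA
    exact subset_erase.2 ⟨hS A hA.1, hA.2⟩
  · intro A hA
    rw [mem_up] at hA
    exact subset_erase.2 ⟨(subset_insert _ _).trans (hS _ hA.1), hA.2⟩
  · intro A hA B hB
    rw [mem_lo] at *
    refine ⟨hH A hA.1 B hB.1, ?_⟩
    rw [mem_union]
    tauto
  · intro A hA B hB
    rw [mem_up] at *
    refine ⟨?_, ?_⟩
    · have := hH _ hA.1 _ hB.1
      rwa [insert_union, union_insert, insert_idem] at this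
    · rw [mem_union]
      tauto
  · intro A hA B hB
    rw [mem_lo] at hA
    rw [mem_up] at *
    refine ⟨?_, ?_⟩
    · have := hH _ hA.1 _ hB.1
      rwa [union_insert] at this
    · rw [mem_union]
      tauto

theorem G_le_T (hG : ∀ B ∈ G, B ⊆ S) (ha : ∀ A ∈ H, ∀ B ∈ G, A ∪ B ∈ H) (i : α) :
    (G.filter (fun g => i ∈ g)).card ≤ (T (S.erase i) (lo i H) (up i H)).card := by
  apply card_le_card_of_injOn (fun g => g.erase i)
  · intro g hg
    rw [mem_coe, mem_filter] at hg
    rw [mem_coe, mem_T]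
    refine ⟨erase_subset_erase _ (hG g hg.1), ?_⟩
    intro A hA
    rw [mem_lo] at hA
    refine ⟨(A ∪ g).erase i, ?_, ?_⟩
    · rw [mem_up, insert_erase (mem_union_right _ hg.2)]
      exact ⟨ha A hA.1 g hg.1, notMem_erase _ _⟩
    · intro x hx
      rw [mem_erase, mem_union] at hx
      rw [mem_union, mem_erase]
      tauto
  · intro g hg g' hg' hgg
    rw [mem_coe, mem_filter] at hg hg'
    have h1 : g.erase i = g'.erase i := hgg
    rw [← insert_erase hg.2, ← insert_erase hg'.2, h1]

/-- the elements of `C` in no member of `H` contained in `C` -/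
def II (H : Finset (Finset α)) (C : Finset α) : Finset α :=
  C.filter (fun x => ∀ A ∈ H, A ⊆ C → x ∉ A)

/-- the pairs `(j, C)` with `j ∉ C ∉ H`, `C ∪ {j} ∈ H` -/
abbrev DD (S : Finset α) (H : Finset (Finset α)) : Finset (Σ _ : α, Finset α) :=
  S.sigma (fun j => up j H \ lo j H)

theorem E_le (hS : ∀ A ∈ H, A ⊆ S) (hH : ∀ A ∈ H, ∀ B ∈ H, A ∪ B ∈ H) {i : α} (hi : i ∈ S)
    (rk : α → ℕ) : (E rk (S.erase i) (lo i H) (up i H)).card ≤
      ((DD S H).filter (fun q => i ∈ II H q.2 ∧ ∀ x ∈ II H q.2, x ≠ i → rk x ≤ rk q.1)).card := by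
  have hy := hypi hS hH i
  apply card_le_card_of_injOn (fun p => (⟨p.2, insert i (p.1.erase p.2)⟩ : Σ _ : α, Finset α))
  · intro p hp
    rw [mem_coe, mem_E hy.subY] at hp
    obtain ⟨hY, hj, hno, _, hcov⟩ := hp
    have hsub := hy.subY _ hY
    have hjS := hsub hj
    rw [mem_erase] at hjS
    have hip : i ∉ p.1 := fun hh => (mem_erase.1 (hsub hh)).1 rfl
    rw [mem_coe, mem_filter, mem_sigma, mem_sdiff, mem_up, mem_lo]
    have hins : insert p.2 (insert i (p.1.erase p.2)) = insert i p.1 := by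
      rw [insert_comm, insert_erase hj]
    have hjn : p.2 ∉ insert i (p.1.erase p.2) := by
      rw [mem_insert, mem_erase]
      rintro (h | h)
      · exact hjS.1 h
      · exact h.1 rfl
    have hI : ∀ A ∈ H, A ⊆ insert i (p.1.erase p.2) → i ∉ A := by
      intro A hA hAs hiA
      apply hno (A.erase i)
      · rw [mem_up, insert_erase hiA]
        exact ⟨hA, notMem_erase _ _⟩
      · exact subset_insert_iff.1 hAs
    refine ⟨⟨hjS.2, ⟨?_, hjn⟩, ?_⟩, ?_, ?_⟩
    · change insert p.2 (insert i (p.1.erase p.2)) ∈ H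
      rw [hins]
      exact (mem_up.1 hY).1
    · rintro ⟨h1, _⟩
      exact hI _ h1 Subset.rfl (mem_insert_self _ _)
    · unfold II
      rw [mem_filter]
      exact ⟨mem_insert_self _ _, hI⟩
    · intro x hx hxi
      unfold II at hx
      rw [mem_filter] at hx
      by_contra hcon
      rw [not_le] at hcon
      have hxB : x ∈ p.1 := by
        have := hx.1
        change x ∈ insert i (p.1.erase p.2) at this
        rw [mem_insert, mem_erase] at this
        rcases this with h | h
        · exact absurd h hxi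
        · exact h.2
      obtain ⟨A, hA, hAs, hxA⟩ := hcov x hxB hcon
      exact hx.2 A (mem_lo.1 hA).1 (hAs.trans (subset_insert _ _)) hxA
  · intro p hp q hq hpq
    rw [mem_coe, mem_E hy.subY] at hp hq
    have h1 : (⟨p.2, insert i (p.1.erase p.2)⟩ : Σ _ : α, Finset α) =
      ⟨q.2, insert i (q.1.erase q.2)⟩ := hpq
    have h2 : p.2 = q.2 := congrArg Sigma.fst h1
    have h3 : insert i (p.1.erase p.2) = insert i (q.1.erase q.2) := by
      have := (Sigma.mk.inj_iff.1 h1).2
      exact eq_of_heq this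
    have hip : i ∉ p.1.erase p.2 := fun hh =>
      (mem_erase.1 (hy.subY _ hp.1 (mem_of_mem_erase hh))).1 rfl
    have hiq : i ∉ q.1.erase q.2 := fun hh =>
      (mem_erase.1 (hy.subY _ hq.1 (mem_of_mem_erase hh))).1 rfl
    have h4 : p.1.erase p.2 = q.1.erase q.2 := by
      rw [← erase_insert hip, ← erase_insert hiq, h3]
    ext1
    · rw [← insert_erase hp.2.1, ← insert_erase hq.2.1, h4, h2]
    · exact h2

/-- The edge inequality. -/
theorem edges (hS : ∀ A ∈ H, A ⊆ S) (hH : ∀ A ∈ H, ∀ B ∈ H, A ∪ B ∈ H)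
    (hG : ∀ B ∈ G, B ⊆ S) (ha : ∀ A ∈ H, ∀ B ∈ G, A ∪ B ∈ H) :
    ∑ i ∈ S, 2 * (lo i H \ up i H).card * (G.filter (fun g => i ∈ g)).card ≤
      2 ^ (S.card - 1) * ∑ i ∈ S, (up i H \ lo i H).card := by
  classical
  set N := Fintype.card (↥S ≃ Fin S.card) with hN
  have hN0 : 0 < N := Fintype.card_pos_iff.2 ⟨S.equivFin⟩
  set L := ∑ i ∈ S, 2 * (lo i H \ up i H).card * (G.filter (fun g => i ∈ g)).card with hL
  have h1 : ∀ σ : ↥S ≃ Fin S.card, L ≤ 2 ^ (S.card - 1) *
      ∑ i ∈ S, (E (rkf S σ) (S.erase i) (lo i H) (up i H)).card := by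
    intro σ
    rw [mul_sum]
    apply sum_le_sum
    intro i hi
    have h2 := main (rkf S σ) (S.erase i) _ _ (hypi hS hH i)
    rw [card_erase_of_mem hi] at h2
    exact (Nat.mul_le_mul_left _ (G_le_T hG ha i)).trans h2
  have h2 : ∑ σ : ↥S ≃ Fin S.card, ∑ i ∈ S,
      (E (rkf S σ) (S.erase i) (lo i H) (up i H)).card ≤ (DD S H).card * N := by
    calc ∑ σ : ↥S ≃ Fin S.card, ∑ i ∈ S, (E (rkf S σ) (S.erase i) (lo i H) (up i H)).card
        ≤ ∑ σ : ↥S ≃ Fin S.card, ∑ i ∈ S, ((DD S H).filter (fun q => i ∈ II H q.2 ∧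
          ∀ x ∈ II H q.2, x ≠ i → rkf S σ x ≤ rkf S σ q.1)).card := by
          apply sum_le_sum
          intro σ _
          apply sum_le_sum
          intro i hi
          exact E_le hS hH hi _
      _ = ∑ q ∈ DD S H, ∑ i ∈ S, (univ.filter (fun σ : ↥S ≃ Fin S.card => i ∈ II H q.2 ∧
          ∀ x ∈ II H q.2, x ≠ i → rkf S σ x ≤ rkf S σ q.1)).card := by
          simp_rw [card_filter]
          rw [sum_comm]
          rw [sum_comm (s := DD S H)]
          apply sum_congr rfl
          intro i _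
          rw [sum_comm]
      _ ≤ ∑ q ∈ DD S H, N := by
          apply sum_le_sum
          intro q hq
          rw [mem_sigma, mem_sdiff, mem_up] at hq
          apply count_pair
          · intro x hx
            unfold II at hx
            rw [mem_filter] at hx
            exact hS _ hq.2.1.1 (mem_insert_of_mem hx.1)
          · exact hq.1
          · intro hh
            unfold II at hh
            rw [mem_filter] at hh
            exact hq.2.1.2 hh.1
      _ = (DD S H).card * N := by rw [sum_const, smul_eq_mul]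
  have h3 : (DD S H).card = ∑ i ∈ S, (up i H \ lo i H).card := card_sigma _ _
  rw [← h3]
  have h4 : L * N ≤ 2 ^ (S.card - 1) * (DD S H).card * N := by
    calc L * N = ∑ σ : ↥S ≃ Fin S.card, L := by
          rw [sum_const, smul_eq_mul, card_univ, mul_comm]
      _ ≤ ∑ σ : ↥S ≃ Fin S.card, 2 ^ (S.card - 1) *
          ∑ i ∈ S, (E (rkf S σ) (S.erase i) (lo i H) (up i H)).card :=
          sum_le_sum (fun σ _ => h1 σ)
      _ = 2 ^ (S.card - 1) * ∑ σ : ↥S ≃ Fin S.card,
          ∑ i ∈ S, (E (rkf S σ) (S.erase i) (lo i H) (up i H)).card := by rw [mul_sum]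
      _ ≤ 2 ^ (S.card - 1) * ((DD S H).card * N) := Nat.mul_le_mul_left _ h2
      _ = 2 ^ (S.card - 1) * (DD S H).card * N := by rw [mul_assoc]
  exact Nat.le_of_mul_le_mul_right h4 hN0

end main

end Pool.Agent.N435.Half
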