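import Pool.Agent.N435.HalfMain
import Pool.Agent.N188.LD.Strict

set_option autoImplicit false

/-!
# The strict inequality for density greater than one half
-/

namespace Pool.Agent.N435.Half

open Finset

variable {α : Type*} [DecidableEq α]

/-- twice the sum of the sizes in terms of the losses and gains -/
theorem ident {S : Finset α} {H : Finset (Finset α)} (hS : ∀ A ∈ H, A ⊆ S) :
    2 * ∑ A ∈ H, A.card + ∑ i ∈ S, (lo i H \ up i H).card =
      H.card * S.card + ∑ i ∈ S, (up i H \ lo i H).card := by
  have h3 : ∀ i ∈ S, (up i H).card + (lo i H \ up i H).card =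
      (lo i H).card + (up i H \ lo i H).card := by
    intro i _
    have e1 := card_sdiff_add_card (lo i H) (up i H)
    have e2 := card_sdiff_add_card (up i H) (lo i H)
    rw [union_comm] at e2
    omega
  have h4' := sum_congr rfl h3
  rw [sum_add_distrib, sum_add_distrib] at h4'
  have h3 : ∑ i ∈ S, ((lo i H).card + (up i H).card) = H.card * S.card := by
    rw [mul_comm, ← smul_eq_mul, ← sum_const]
    apply sum_congr rfl
    intro i _
    have e1 := card_memberSubfamily_add_card_nonMemberSubfamily i H
    unfold lo up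
    omega
  have h5 : ∑ i ∈ S, (up i H).card = ∑ A ∈ H, A.card := by
    have e1 := Pool.Agent.N188.LD.sum_freq H S
    rw [sum_congr rfl (fun i _ => card_up_eq H i), e1]
    apply sum_congr rfl
    intro A hA
    rw [inter_eq_left.2 (hS A hA)]
  rw [sum_add_distrib] at h3
  omega

theorem closed_powerset {S : Finset α} {H : Finset (Finset α)} (hS : ∀ A ∈ H, A ⊆ S)
    (heq : ∀ i ∈ S, lo i H = up i H) (hne : H.Nonempty) : H = S.powerset := by
  have hins : ∀ i ∈ S, ∀ A ∈ H, insert i A ∈ H := by
    intro i hi A hA
    by_cases hiA : i ∈ A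
    · rwa [insert_eq_of_mem hiA]
    · have h1 : A ∈ lo i H := mem_lo.2 ⟨hA, hiA⟩
      rw [heq i hi] at h1
      exact (mem_up.1 h1).1
  have her : ∀ i ∈ S, ∀ A ∈ H, A.erase i ∈ H := by
    intro i hi A hA
    by_cases hiA : i ∈ A
    · have h1 : A.erase i ∈ up i H := by
        rw [mem_up, insert_erase hiA]
        exact ⟨hA, notMem_erase _ _⟩
      rw [← heq i hi] at h1
      exact (mem_lo.1 h1).1
    · rwa [erase_eq_of_notMem hiA]
  have hun : ∀ B : Finset α, B ⊆ S → ∀ A ∈ H, A ∪ B ∈ H := by
    intro B
    induction B using Finset.induction_on with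
    | empty => intro _ A hA; rwa [union_empty]
    | insert b B _ ih =>
      intro hB A hA
      rw [union_insert]
      exact hins b (hB (mem_insert_self _ _)) _ (ih ((subset_insert _ _).trans hB) A hA)
  have hdi : ∀ B : Finset α, B ⊆ S → ∀ A ∈ H, A \ B ∈ H := by
    intro B
    induction B using Finset.induction_on with
    | empty => intro _ A hA; rwa [sdiff_empty]
    | insert b B _ ih =>
      intro hB A hA
      rw [sdiff_insert]
      exact her b (hB (mem_insert_self _ _)) _ (ih ((subset_insert _ _).trans hB) A hA)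
  obtain ⟨A, hA⟩ := hne
  apply subset_antisymm
  · intro B hB
    exact mem_powerset.2 (hS B hB)
  · intro B hB
    rw [mem_powerset] at hB
    have h1 := hdi (A \ B) (sdiff_subset.trans (hS A hA)) _ (hun B hB A hA)
    have h2 : (A ∪ B) \ (A \ B) = B := by
      ext x
      simp only [mem_sdiff, mem_union]
      tauto
    rwa [h2] at h1

/-- the strict averaging statement for one fibre -/
theorem avg_fib_lt {S : Finset α} {H G : Finset (Finset α)} (hS : ∀ A ∈ H, A ⊆ S)
    (hH : ∀ A ∈ H, ∀ B ∈ H, A ∪ B ∈ H) (hG : ∀ B ∈ G, B ⊆ S)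
    (ha : ∀ A ∈ H, ∀ B ∈ G, A ∪ B ∈ H)
    (h4 : ∀ i ∈ S, 2 ^ S.card < 4 * (G.filter (fun g => i ∈ g)).card)
    (hne : H.Nonempty) (hnp : H ≠ S.powerset) :
    (H.card : ℝ) * S.card < ∑ A ∈ H, 2 * (A.card : ℝ) := by
  have hid := ident hS
  have hedge := edges hS hH hG ha
  have h1 : (2 ^ (S.card - 1) + 1) * ∑ i ∈ S, (lo i H \ up i H).card ≤
      2 ^ (S.card - 1) * ∑ i ∈ S, (up i H \ lo i H).card := by
    refine le_trans ?_ hedge
    rw [mul_sum]
    apply sum_le_sum
    intro i hi
    have h3 := h4 i hi
    have hn : 0 < S.card := card_pos.2 ⟨i, hi⟩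
    have hp : 2 ^ S.card = 2 * 2 ^ (S.card - 1) := by
      rw [← pow_succ']
      congr 1
      omega
    rw [hp] at h3
    have h5 : 2 ^ (S.card - 1) + 1 ≤ 2 * (G.filter (fun g => i ∈ g)).card := by omega
    calc (2 ^ (S.card - 1) + 1) * (lo i H \ up i H).card
        ≤ (2 * (G.filter (fun g => i ∈ g)).card) * (lo i H \ up i H).card :=
          Nat.mul_le_mul_right _ h5
      _ = 2 * (lo i H \ up i H).card * (G.filter (fun g => i ∈ g)).card := by ring
  have h2 : ∑ i ∈ S, (lo i H \ up i H).card < ∑ i ∈ S, (up i H \ lo i H).card := by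
    by_contra hcon
    rw [not_lt] at hcon
    have h3 := h1.trans (Nat.mul_le_mul_left (2 ^ (S.card - 1)) hcon)
    rw [add_mul, one_mul] at h3
    have h5 : ∑ i ∈ S, (lo i H \ up i H).card = 0 := by omega
    have h6 : ∑ i ∈ S, (up i H \ lo i H).card = 0 := by omega
    apply hnp
    apply closed_powerset hS _ hne
    intro i hi
    rw [sum_eq_zero_iff] at h5 h6
    apply subset_antisymm
    · exact sdiff_eq_empty_iff_subset.1 (card_eq_zero.1 (h5 i hi))
    · exact sdiff_eq_empty_iff_subset.1 (card_eq_zero.1 (h6 i hi))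
  have h7 : H.card * S.card < 2 * ∑ A ∈ H, A.card := by omega
  rw [← mul_sum]
  exact_mod_cast h7

variable {F : Finset (Finset α)}

/-- the dichotomy when every element of `S` is in many members -/
theorem dich {G : Finset (Finset α)} {S : Finset α}
    (hF : ∀ A ∈ F, ∀ B ∈ F, A ∪ B ∈ F) (hG : ∀ B ∈ G, B ⊆ S)
    (ha : ∀ A ∈ F, ∀ B ∈ G, A ∪ B ∈ F)
    (h4 : ∀ i ∈ S, 2 ^ S.card < 4 * (G.filter (fun g => i ∈ g)).card) :
    (∃ x ∈ S, F.card < 2 * (F.filter (fun A => x ∈ A)).card) ∨
      (∀ A ∈ F, ∀ B, B ⊆ S → A ∪ B ∈ F ∧ A \ B ∈ F) := by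
  by_cases hall : ∀ T, (Pool.Agent.N188.LD.fib F S T).Nonempty →
      Pool.Agent.N188.LD.fib F S T = S.powerset
  · right
    intro A hA B hB
    have h1 : A ∩ S ∈ Pool.Agent.N188.LD.fib F S (A \ S) :=
      Pool.Agent.N188.LD.mem_fib.2 ⟨A, hA, rfl, rfl⟩
    have h2 := hall (A \ S) ⟨_, h1⟩
    have h3 : ∀ C, C ⊆ S → (A \ S) ∪ C ∈ F := by
      intro C hC
      have h4 : C ∈ Pool.Agent.N188.LD.fib F S (A \ S) := by rw [h2, mem_powerset]; exact hC
      rw [Pool.Agent.N188.LD.mem_fib] at h4
      obtain ⟨A', hA', h5, h6⟩ := h4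
      rw [← h5, ← h6, sdiff_union_inter]
      exact hA'
    constructor
    · have h4 := h3 (A ∩ S ∪ B) (union_subset inter_subset_right hB)
      rwa [← union_assoc, sdiff_union_inter] at h4
    · have h4 := h3 ((A ∩ S) \ B) (sdiff_subset.trans inter_subset_right)
      have h5 : A \ S ∪ (A ∩ S) \ B = A \ B := by
        ext y
        rw [mem_union, mem_sdiff, mem_sdiff, mem_inter, mem_sdiff]
        constructor
        · rintro (⟨h6, h7⟩ | ⟨⟨h6, _⟩, h7⟩)
          · exact ⟨h6, fun h => h7 (hB h)⟩
          · exact ⟨h6, h7⟩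
        · rintro ⟨h6, h7⟩
          by_cases hyS : y ∈ S
          · right; exact ⟨⟨h6, hyS⟩, h7⟩
          · left; exact ⟨h6, hyS⟩
      rwa [h5] at h4
  · left
    push Not at hall
    obtain ⟨T, hT1, hT2⟩ := hall
    have h := Pool.Agent.N188.LD.fib_sum_lt F S (S.card : ℝ)
      (fun T => avg_fib (Pool.Agent.N188.LD.fib_sub T) (Pool.Agent.N188.LD.fib_union hF T) hG
        (Pool.Agent.N188.LD.fib_absorb hG ha T) (fun i hi => (h4 i hi).le))
      ⟨T, avg_fib_lt (Pool.Agent.N188.LD.fib_sub T) (Pool.Agent.N188.LD.fib_union hF T) hG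
        (Pool.Agent.N188.LD.fib_absorb hG ha T) h4 hT1 hT2⟩
    rw [← mul_sum] at h
    have h1 : F.card * S.card < 2 * ∑ A ∈ F, (A ∩ S).card := by exact_mod_cast h
    by_contra hcon
    push Not at hcon
    have h2 : ∑ x ∈ S, 2 * (F.filter (fun A => x ∈ A)).card ≤ ∑ x ∈ S, F.card :=
      sum_le_sum hcon
    rw [← mul_sum, Pool.Agent.N188.LD.sum_freq, sum_const, smul_eq_mul, mul_comm S.card] at h2
    omega

theorem remove' {S : Finset α} {G : Finset (Finset α)} (hG : ∀ B ∈ G, B ⊆ S)
    (h : 2 ^ S.card < 2 * G.card) {i : α} (hi : i ∈ S)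
    (h4 : 4 * (G.filter (fun g => i ∈ g)).card ≤ 2 ^ S.card) :
    (∀ B ∈ G.filter (fun g => i ∉ g), B ⊆ S.erase i) ∧
      2 ^ (S.erase i).card < 2 * (G.filter (fun g => i ∉ g)).card ∧ ∃ g ∈ G, i ∈ g := by
  have hn : 0 < S.card := card_pos.2 ⟨i, hi⟩
  have hp : 2 ^ S.card = 2 * 2 ^ (S.card - 1) := by
    rw [← pow_succ']
    congr 1
    omega
  have hsub : ∀ B ∈ G.filter (fun g => i ∉ g), B ⊆ S.erase i := by
    intro B hB
    rw [mem_filter] at hB
    exact subset_erase.2 ⟨hG B hB.1, hB.2⟩
  refine ⟨hsub, ?_, ?_⟩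
  · have h1 := card_filter_add_card_filter_not (s := G) (fun g => i ∈ g)
    rw [card_erase_of_mem hi]
    omega
  · by_contra hcon
    push Not at hcon
    have h1 : G ⊆ (S.erase i).powerset := by
      intro B hB
      rw [mem_powerset]
      exact hsub B (mem_filter.2 ⟨hB, hcon B hB⟩)
    have h2 := card_le_card h1
    rw [card_powerset, card_erase_of_mem hi] at h2
    omega

/-- The dichotomy: if `G` contains more than half of the subsets of `S`, some element of `S` lies in
more than half of the members of `F`, or all elements of `S` are free. -/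
theorem dichotomy (hF : ∀ A ∈ F, ∀ B ∈ F, A ∪ B ∈ F) : ∀ (n : ℕ) (S : Finset α)
    (G : Finset (Finset α)), S.card = n → (∀ B ∈ G, B ⊆ S) → (∀ A ∈ F, ∀ B ∈ G, A ∪ B ∈ F) →
    2 ^ S.card < 2 * G.card → (∃ x ∈ S, F.card < 2 * (F.filter (fun A => x ∈ A)).card) ∨
      (∀ A ∈ F, ∀ B, B ⊆ S → A ∪ B ∈ F ∧ A \ B ∈ F) := by
  intro n
  induction n with
  | zero =>
    intro S G hS _ _ _
    right
    intro A hA B hB
    rw [card_eq_zero] at hS
    rw [hS, subset_empty] at hB
    rw [hB, union_empty, sdiff_empty]
    exact ⟨hA, hA⟩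
  | succ n ih =>
    intro S G hS hG ha h
    by_cases hall : ∀ i ∈ S, 2 ^ S.card < 4 * (G.filter (fun g => i ∈ g)).card
    · exact dich hF hG ha hall
    · push Not at hall
      obtain ⟨i, hi, hle⟩ := hall
      obtain ⟨h1, h2, g, hgG, hig⟩ := remove' hG h hi hle
      rcases ih (S.erase i) _ (by rw [card_erase_of_mem hi]; omega) h1
        (fun A hA B hB => ha A hA B (mem_filter.1 hB).1) h2 with h3 | h3
      · left
        obtain ⟨x, hx, hx2⟩ := h3
        exact ⟨x, mem_of_mem_erase hx, hx2⟩
      · have hins : ∀ A ∈ F, insert i A ∈ F := by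
          intro A hA
          have h4 := (h3 _ (ha A hA g hgG) ((g \ A).erase i)
            (erase_subset_erase _ (sdiff_subset.trans (hG g hgG)))).2
          have h5 : (A ∪ g) \ (g \ A).erase i = insert i A := by
            ext x
            simp only [mem_sdiff, mem_union, mem_erase, mem_insert]
            by_cases hxi : x = i
            · subst hxi
              tauto
            · tauto
          rwa [h5] at h4
        by_cases hcl : ∀ A ∈ F, A.erase i ∈ F
        · right
          intro A hA B hB
          have h4 := h3 A hA (B.erase i) (erase_subset_erase _ hB)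
          by_cases hiB : i ∈ B
          · constructor
            · have h5 := hins _ h4.1
              rwa [← union_insert, insert_erase hiB] at h5
            · have h5 := hcl _ h4.2
              have h6 : (A \ B.erase i).erase i = A \ B := by
                ext x
                simp only [mem_erase, mem_sdiff]
                by_cases hxi : x = i
                · subst hxi
                  tauto
                · tauto
              rwa [h6] at h5
          · rwa [erase_eq_of_notMem hiB] at h4
        · left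
          push Not at hcl
          obtain ⟨A, hA, hAn⟩ := hcl
          refine ⟨i, hi, ?_⟩
          have hiA : i ∈ A := by
            by_contra hh
            rw [erase_eq_of_notMem hh] at hAn
            exact hAn hA
          have h5 : (F.filter (fun B => i ∉ B)).card < (F.filter (fun B => i ∈ B)).card := by
            rw [← card_image_of_injOn (f := fun B => insert i B)
              (s := F.filter (fun B => i ∉ B))]
            · apply card_lt_card
              rw [ssubset_iff_of_subset]
              · refine ⟨A, mem_filter.2 ⟨hA, hiA⟩, ?_⟩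
                intro hh
                rw [mem_image] at hh
                obtain ⟨B, hB, hBA⟩ := hh
                rw [mem_filter] at hB
                apply hAn
                rw [← hBA, erase_insert hB.2]
                exact hB.1
              · intro B hB
                rw [mem_image] at hB
                obtain ⟨C, hC, rfl⟩ := hB
                rw [mem_filter] at hC ⊢
                exact ⟨hins C hC.1, mem_insert_self _ _⟩
            · intro B hB C hC hBC
              rw [mem_coe, mem_filter] at hB hC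
              have h6 : insert i B = insert i C := hBC
              rw [← erase_insert hB.2, ← erase_insert hC.2, h6]
          have h6 := card_filter_add_card_filter_not (s := F) (fun B => i ∈ B)
          omega

end Pool.Agent.N435.Half
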