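import Mathlib

set_option autoImplicit false

/-!
# The two family inequality

`X, Y` are families of subsets of a finite set `V` with `X ∨ X ⊆ X`, `Y ∨ Y ⊆ Y`, `X ∨ Y ⊆ Y`, and `rk`
is any function on the ground set. `T V X Y` is the family of all `g ⊆ V` such that every `A ∪ g`,
`A ∈ X`, contains a member of `Y`; `E rk V X Y` is a set of pairs `(B, j)`, `j ∈ B ∈ Y`, such that no
member of `Y` is contained in `B \ {j}` but there are members of `X` contained in `B \ {j}`, which
cover all elements `x ∈ B` with `rk j < rk x`. Then `2 |X \ Y| |T| ≤ 2 ^ |V| |E|`.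
-/

namespace Pool.Agent.N435.Half

open Finset

variable {α : Type*} [DecidableEq α]

/-- the condition on the pair `(B, j)` -/
def IsE (rk : α → ℕ) (X Y : Finset (Finset α)) (p : Finset α × α) : Prop :=
  p.1 ∈ Y ∧ p.2 ∈ p.1 ∧ (∀ y ∈ Y, ¬ y ⊆ p.1.erase p.2) ∧ (∃ A ∈ X, A ⊆ p.1.erase p.2) ∧
    ∀ x ∈ p.1, rk p.2 < rk x → ∃ A ∈ X, A ⊆ p.1.erase p.2 ∧ x ∈ A

open Classical in
/-- the set of pairs -/
noncomputable def E (rk : α → ℕ) (V : Finset α) (X Y : Finset (Finset α)) :
    Finset (Finset α × α) :=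
  (V.powerset ×ˢ V).filter (IsE rk X Y)

/-- the sets `g` such that every `A ∪ g`, `A ∈ X`, contains a member of `Y` -/
def T (V : Finset α) (X Y : Finset (Finset α)) : Finset (Finset α) :=
  V.powerset.filter (fun g => ∀ A ∈ X, ∃ y ∈ Y, y ⊆ A ∪ g)

/-- the hypotheses on the two families -/
structure Hyp (V : Finset α) (X Y : Finset (Finset α)) : Prop where
  subX : ∀ A ∈ X, A ⊆ V
  subY : ∀ A ∈ Y, A ⊆ V
  XX : ∀ A ∈ X, ∀ B ∈ X, A ∪ B ∈ X
  YY : ∀ A ∈ Y, ∀ B ∈ Y, A ∪ B ∈ Y
  XY : ∀ A ∈ X, ∀ B ∈ Y, A ∪ B ∈ Y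

theorem mem_T {V : Finset α} {X Y : Finset (Finset α)} {g : Finset α} :
    g ∈ T V X Y ↔ g ⊆ V ∧ ∀ A ∈ X, ∃ y ∈ Y, y ⊆ A ∪ g := by
  unfold T
  rw [mem_filter, mem_powerset]

theorem mem_E {rk : α → ℕ} {V : Finset α} {X Y : Finset (Finset α)} (hY : ∀ A ∈ Y, A ⊆ V)
    {p : Finset α × α} : p ∈ E rk V X Y ↔ IsE rk X Y p := by
  unfold E
  simp only [mem_filter, mem_product, mem_powerset]
  exact ⟨fun h => h.2, fun h => ⟨⟨hY _ h.1, hY _ h.1 h.2.1⟩, h⟩⟩

section step

variable {rk : α → ℕ} {V : Finset α} {v : α} {X Y : Finset (Finset α)}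

/-- `X₀` -/
abbrev lo (v : α) (X : Finset (Finset α)) : Finset (Finset α) := X.nonMemberSubfamily v
/-- `X₁` -/
abbrev up (v : α) (X : Finset (Finset α)) : Finset (Finset α) := X.memberSubfamily v

theorem mem_lo {v : α} {X : Finset (Finset α)} {A : Finset α} : A ∈ lo v X ↔ A ∈ X ∧ v ∉ A :=
  mem_nonMemberSubfamily
theorem mem_up {v : α} {X : Finset (Finset α)} {A : Finset α} :
    A ∈ up v X ↔ insert v A ∈ X ∧ v ∉ A := mem_memberSubfamily

/-- the first pair of families -/
abbrev X1' (v : α) (X : Finset (Finset α)) : Finset (Finset α) := lo v X ∪ up v X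
/-- the second pair of families -/
abbrev X2' (v : α) (X Y : Finset (Finset α)) : Finset (Finset α) := lo v X ∩ (up v X ∪ up v Y)
/-- the second pair of families -/
abbrev Y2' (v : α) (Y : Finset (Finset α)) : Finset (Finset α) := lo v Y ∩ up v Y

variable (h : Hyp (insert v V) X Y)

include h

theorem hyp1 : Hyp V (X1' v X) (X1' v Y) := by
  have sub : ∀ {Z : Finset (Finset α)}, (∀ A ∈ Z, A ⊆ insert v V) → ∀ A ∈ X1' v Z, A ⊆ V := by
    intro Z hZ A hA
    rw [mem_union, mem_lo, mem_up] at hA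
    have hvA : v ∉ A := by rcases hA with hA | hA <;> exact hA.2
    have hA' : A ⊆ insert v V := by
      rcases hA with hA | hA
      · exact hZ A hA.1
      · exact (subset_insert _ _).trans (hZ _ hA.1)
    exact (subset_insert_iff_of_notMem hvA).1 hA'
  have cl : ∀ {P Q R : Finset (Finset α)}, (∀ A ∈ P, ∀ B ∈ Q, A ∪ B ∈ R) →
      ∀ A ∈ X1' v P, ∀ B ∈ X1' v Q, A ∪ B ∈ X1' v R := by
    intro P Q R hR A hA B hB
    rw [mem_union, mem_lo, mem_up] at hA hB ⊢
    have hvA : v ∉ A := by rcases hA with hA | hA <;> exact hA.2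
    have hvB : v ∉ B := by rcases hB with hB | hB <;> exact hB.2
    have hvAB : v ∉ A ∪ B := by rw [mem_union]; tauto
    rcases hA with ⟨hA, _⟩ | ⟨hA, _⟩ <;> rcases hB with ⟨hB, _⟩ | ⟨hB, _⟩
    · exact Or.inl ⟨hR A hA B hB, hvAB⟩
    · right
      refine ⟨?_, hvAB⟩
      have := hR A hA _ hB
      rwa [union_insert] at this
    · right
      refine ⟨?_, hvAB⟩
      have := hR _ hA _ hB
      rwa [insert_union] at this
    · right
      refine ⟨?_, hvAB⟩
      have := hR _ hA _ hB
      rwa [insert_union, union_insert, insert_idem] at this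
  exact ⟨sub h.subX, sub h.subY, cl h.XX, cl h.YY, cl h.XY⟩

/-- `y ∈ Y₀`, `A ∈ X₀ ∩ (X₁ ∪ Y₁)` give `A ∪ y ∈ Y₀ ∩ Y₁` -/
theorem mix {A y : Finset α} (hA : A ∈ X2' v X Y) (hy : y ∈ lo v Y) : A ∪ y ∈ Y2' v Y := by
  rw [mem_inter, mem_union, mem_lo, mem_up, mem_up] at hA
  rw [mem_lo] at hy
  rw [mem_inter, mem_lo, mem_up]
  have hvAB : v ∉ A ∪ y := by rw [mem_union]; tauto
  refine ⟨⟨h.XY A hA.1.1 y hy.1, hvAB⟩, ?_, hvAB⟩
  rw [← insert_union]
  rcases hA.2 with h1 | h1
  · exact h.XY _ h1.1 _ hy.1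
  · exact h.YY _ h1.1 _ hy.1

theorem hyp2 : Hyp V (X2' v X Y) (Y2' v Y) := by
  have h1 := hyp1 h
  refine ⟨?_, ?_, ?_, ?_, ?_⟩
  · intro A hA
    exact h1.subX A (mem_union_left _ (mem_inter.1 hA).1)
  · intro A hA
    exact h1.subY A (mem_union_left _ (mem_inter.1 hA).1)
  · intro A hA B hB
    rw [mem_inter, mem_union, mem_lo, mem_up, mem_up] at hA hB ⊢
    have hvAB : v ∉ A ∪ B := by rw [mem_union]; tauto
    refine ⟨⟨h.XX A hA.1.1 B hB.1.1, hvAB⟩, ?_⟩
    rcases hB.2 with h2 | h2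
    · left
      refine ⟨?_, hvAB⟩
      rw [← union_insert]
      exact h.XX _ hA.1.1 _ h2.1
    · right
      refine ⟨?_, hvAB⟩
      rw [← union_insert]
      exact h.XY _ hA.1.1 _ h2.1
  · intro A hA B hB
    rw [mem_inter, mem_lo, mem_up] at hA hB ⊢
    have hvAB : v ∉ A ∪ B := by rw [mem_union]; tauto
    refine ⟨⟨h.YY A hA.1.1 B hB.1.1, hvAB⟩, ?_, hvAB⟩
    rw [← union_insert]
    exact h.YY _ hA.1.1 _ hB.2.1
  · intro A hA B hB
    exact mix h hA (mem_inter.1 hB).1

open Classical in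
/-- the count of the pairs -/
theorem E_ge (hv : v ∉ V) (hmin : ∀ x ∈ V, rk v ≤ rk x) :
    (E rk V (X1' v X) (X1' v Y)).card + ((lo v X \ lo v Y) ∩ up v Y).card +
      (E rk V (X2' v X Y) (Y2' v Y)).card ≤ (E rk (insert v V) X Y).card := by
  have h1 := hyp1 h
  have h2 := hyp2 h
  -- the three maps
  set P1 := (E rk V (X1' v X) (X1' v Y)).filter (fun p => p.1 ∈ up v Y) with hP1
  set P2 := (E rk V (X1' v X) (X1' v Y)).filter (fun p => p.1 ∉ up v Y) with hP2
  set P3 := (lo v X \ lo v Y) ∩ up v Y with hP3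
  set P4 := E rk V (X2' v X Y) (Y2' v Y) with hP4
  have hnV : ∀ p ∈ E rk V (X1' v X) (X1' v Y), v ∉ p.1 ∧ v ≠ p.2 := by
    intro p hp
    rw [mem_E h1.subY] at hp
    have hs := h1.subY _ hp.1
    exact ⟨fun hh => hv (hs hh), fun hh => hv (hs (hh ▸ hp.2.1))⟩
  have hnV4 : ∀ p ∈ P4, v ∉ p.1 := by
    intro p hp
    rw [hP4, mem_E h2.subY] at hp
    exact fun hh => hv (h2.subY _ hp.1 hh)
  -- images
  set Q1 := P1.image (fun p => (insert v p.1, p.2)) with hQ1
  set Q3 := P3.image (fun A => (insert v A, v)) with hQ3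
  have c1 : Q1.card = P1.card := by
    apply card_image_of_injOn
    intro p hp q hq hpq
    have hp' := (hnV p (mem_filter.1 (mem_coe.1 hp)).1).1
    have hq' := (hnV q (mem_filter.1 (mem_coe.1 hq)).1).1
    simp only [Prod.mk.injEq] at hpq
    ext1
    · rw [← erase_insert hp', ← erase_insert hq', hpq.1]
    · exact hpq.2
  have c3 : Q3.card = P3.card := by
    apply card_image_of_injOn
    intro A hA B hB hAB
    have hA' : v ∉ A := (mem_up.1 (mem_inter.1 (mem_coe.1 hA)).2).2
    have hB' : v ∉ B := (mem_up.1 (mem_inter.1 (mem_coe.1 hB)).2).2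
    simp only [Prod.mk.injEq] at hAB
    rw [← erase_insert hA', ← erase_insert hB', hAB.1]
  have c12 : P1.card + P2.card = (E rk V (X1' v X) (X1' v Y)).card :=
    card_filter_add_card_filter_not _
  -- the images are in `E`
  have m1 : Q1 ⊆ E rk (insert v V) X Y := by
    intro p hp
    rw [hQ1, mem_image] at hp
    obtain ⟨q, hq, rfl⟩ := hp
    rw [hP1, mem_filter] at hq
    have hn := hnV q hq.1
    rw [mem_E h1.subY] at hq
    rw [mem_E h.subY]
    obtain ⟨⟨hY, hj, hno, ⟨A, hA, hAs⟩, hcov⟩, hU⟩ := hq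
    have her : (insert v q.1).erase q.2 = insert v (q.1.erase q.2) := by
      rw [erase_insert_of_ne hn.2]
    have key : ∀ A ∈ X1' v X, A ⊆ q.1.erase q.2 →
        ∃ A' ∈ X, A' ⊆ insert v (q.1.erase q.2) ∧ A ⊆ A' := by
      intro A hA hAs
      rw [mem_union, mem_lo, mem_up] at hA
      rcases hA with hA | hA
      · exact ⟨A, hA.1, hAs.trans (subset_insert _ _), Subset.rfl⟩
      · exact ⟨insert v A, hA.1, insert_subset_insert _ hAs, subset_insert _ _⟩
    refine ⟨(mem_up.1 hU).1, mem_insert_of_mem hj, ?_, ?_, ?_⟩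
    · intro y hy hys
      simp only at hys
      rw [her] at hys
      by_cases hvy : v ∈ y
      · apply hno (y.erase v)
        · rw [mem_union, mem_lo, mem_up, insert_erase hvy]
          exact Or.inr ⟨hy, notMem_erase _ _⟩
        · exact (subset_insert_iff).1 hys
      · apply hno y
        · rw [mem_union, mem_lo]
          exact Or.inl ⟨hy, hvy⟩
        · exact (subset_insert_iff_of_notMem hvy).1 hys
    · obtain ⟨A', hA', hs', _⟩ := key A hA hAs
      exact ⟨A', hA', by simp only; rw [her]; exact hs'⟩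
    · intro x hx hr
      simp only at hx hr
      rw [mem_insert] at hx
      rcases hx with rfl | hx
      · exact absurd (hmin q.2 (h1.subY _ hY hj)) (not_le.2 hr)
      · obtain ⟨A, hA, hAs, hxA⟩ := hcov x hx hr
        obtain ⟨A', hA', hs', hss⟩ := key A hA hAs
        exact ⟨A', hA', by simp only; rw [her]; exact hs', hss hxA⟩
  have m2 : P2 ⊆ E rk (insert v V) X Y := by
    intro q hq
    rw [hP2, mem_filter] at hq
    have hn := hnV q hq.1
    rw [mem_E h1.subY] at hq
    rw [mem_E h.subY]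
    obtain ⟨⟨hY, hj, hno, ⟨A, hA, hAs⟩, hcov⟩, hU⟩ := hq
    have hY0 : q.1 ∈ Y := by
      rw [mem_union] at hY
      rcases hY with hY | hY
      · exact (mem_lo.1 hY).1
      · exact absurd hY hU
    have key : ∀ A ∈ X1' v X, A ⊆ q.1.erase q.2 → A ∈ X := by
      intro A hA hAs
      rw [mem_union, mem_lo, mem_up] at hA
      rcases hA with hA | hA
      · exact hA.1
      · exfalso
        apply hU
        rw [mem_up]
        refine ⟨?_, hn.1⟩
        have := h.XY _ hA.1 _ hY0
        rwa [insert_union, union_eq_right.2 (hAs.trans (erase_subset _ _))] at this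
    refine ⟨hY0, hj, ?_, ⟨A, key A hA hAs, hAs⟩, ?_⟩
    · intro y hy hys
      have hvy : v ∉ y := fun hh => hn.1 (mem_of_mem_erase (hys hh))
      exact hno y (mem_union_left _ (mem_lo.2 ⟨hy, hvy⟩)) hys
    · intro x hx hr
      obtain ⟨A, hA, hAs, hxA⟩ := hcov x hx hr
      exact ⟨A, key A hA hAs, hAs, hxA⟩
  have m3 : Q3 ⊆ E rk (insert v V) X Y := by
    intro p hp
    rw [hQ3, mem_image] at hp
    obtain ⟨A, hA, rfl⟩ := hp
    rw [hP3, mem_inter, mem_sdiff, mem_lo, mem_up] at hA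
    obtain ⟨⟨⟨hAX, hvA⟩, hnA⟩, hAU, _⟩ := hA
    rw [mem_E h.subY]
    refine ⟨hAU, mem_insert_self _ _, ?_, ⟨A, hAX, ?_⟩, ?_⟩
    · intro y hy hys
      simp only at hys
      rw [erase_insert hvA] at hys
      apply hnA
      rw [mem_lo]
      refine ⟨?_, hvA⟩
      have := h.XY _ hAX _ hy
      rwa [union_eq_left.2 hys] at this
    · simp only
      rw [erase_insert hvA]
    · intro x hx hr
      simp only at hx hr
      rw [mem_insert] at hx
      rcases hx with rfl | hx
      · exact absurd hr (lt_irrefl _)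
      · exact ⟨A, hAX, by simp only; rw [erase_insert hvA], hx⟩
  have m4 : P4 ⊆ E rk (insert v V) X Y := by
    intro q hq
    have hn := hnV4 q hq
    rw [hP4, mem_E h2.subY] at hq
    rw [mem_E h.subY]
    obtain ⟨hY, hj, hno, ⟨A, hA, hAs⟩, hcov⟩ := hq
    have key : ∀ A ∈ X2' v X Y, A ∈ X := fun A hA => (mem_lo.1 (mem_inter.1 hA).1).1
    refine ⟨(mem_lo.1 (mem_inter.1 hY).1).1, hj, ?_, ⟨A, key A hA, hAs⟩, ?_⟩
    · intro y hy hys
      have hvy : v ∉ y := fun hh => hn (mem_of_mem_erase (hys hh))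
      exact hno _ (mix h hA (mem_lo.2 ⟨hy, hvy⟩)) (union_subset hAs hys)
    · intro x hx hr
      obtain ⟨A, hA, hAs, hxA⟩ := hcov x hx hr
      exact ⟨A, key A hA, hAs, hxA⟩
  -- disjointness
  have d24 : Disjoint P2 P4 := by
    rw [disjoint_left]
    intro p hp2 hp4
    rw [hP2, mem_filter] at hp2
    rw [hP4, mem_E h2.subY] at hp4
    exact hp2.2 (mem_inter.1 hp4.1).2
  have hv1 : ∀ p ∈ Q1, v ∈ p.1 ∧ v ≠ p.2 := by
    intro p hp
    rw [hQ1, mem_image] at hp
    obtain ⟨q, hq, rfl⟩ := hp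
    exact ⟨mem_insert_self _ _, (hnV q (mem_filter.1 hq).1).2⟩
  have hv3 : ∀ p ∈ Q3, v ∈ p.1 ∧ v = p.2 := by
    intro p hp
    rw [hQ3, mem_image] at hp
    obtain ⟨q, hq, rfl⟩ := hp
    exact ⟨mem_insert_self _ _, rfl⟩
  have hv24 : ∀ p ∈ P2 ∪ P4, v ∉ p.1 := by
    intro p hp
    rw [mem_union] at hp
    rcases hp with hp | hp
    · exact (hnV p (mem_filter.1 hp).1).1
    · exact hnV4 p hp
  have d13 : Disjoint Q1 Q3 := by
    rw [disjoint_left]
    intro p hp1 hp3
    exact (hv1 p hp1).2 (hv3 p hp3).2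
  have dd : Disjoint (Q1 ∪ Q3) (P2 ∪ P4) := by
    rw [disjoint_left]
    intro p hp1 hp3
    apply hv24 p hp3
    rw [mem_union] at hp1
    rcases hp1 with hp1 | hp1
    · exact (hv1 p hp1).1
    · exact (hv3 p hp1).1
  have hsub : (Q1 ∪ Q3) ∪ (P2 ∪ P4) ⊆ E rk (insert v V) X Y :=
    union_subset (union_subset m1 m3) (union_subset m2 m4)
  have hc := card_le_card hsub
  rw [card_union_of_disjoint dd, card_union_of_disjoint d13, card_union_of_disjoint d24, c1, c3]
    at hc
  omega

/-- the count of the sets `g` -/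
theorem T_le (hv : v ∉ V) : ∃ t0 : ℕ, (T (insert v V) X Y).card ≤ t0 + (T V (X1' v X) (X1' v Y)).card ∧
    t0 ≤ (T V (X1' v X) (X1' v Y)).card ∧ t0 ≤ (T V (X2' v X Y) (Y2' v Y)).card := by
  refine ⟨(lo v (T (insert v V) X Y)).card, ?_, ?_, ?_⟩
  · have hc := card_memberSubfamily_add_card_nonMemberSubfamily v (T (insert v V) X Y)
    have hs : up v (T (insert v V) X Y) ⊆ T V (X1' v X) (X1' v Y) := by
      intro g hg
      rw [mem_up, mem_T] at hg
      obtain ⟨⟨hgV, hg⟩, hvg⟩ := hg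
      rw [mem_T]
      refine ⟨?_, ?_⟩
      · intro x hx
        have := hgV (mem_insert_of_mem hx)
        rw [mem_insert] at this
        rcases this with rfl | hh
        · exact absurd hx hvg
        · exact hh
      · intro A hA
        rw [mem_union, mem_lo, mem_up] at hA
        have : ∃ y ∈ Y, y ⊆ insert v (A ∪ g) := by
          rcases hA with hA | hA
          · obtain ⟨y, hy, hys⟩ := hg A hA.1
            exact ⟨y, hy, by rwa [union_insert] at hys⟩
          · obtain ⟨y, hy, hys⟩ := hg _ hA.1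
            exact ⟨y, hy, by rwa [union_insert, insert_union, insert_idem] at hys⟩
        obtain ⟨y, hy, hys⟩ := this
        by_cases hvy : v ∈ y
        · refine ⟨y.erase v, ?_, (subset_insert_iff).1 hys⟩
          rw [mem_union, mem_up, insert_erase hvy]
          exact Or.inr ⟨hy, notMem_erase _ _⟩
        · refine ⟨y, ?_, (subset_insert_iff_of_notMem hvy).1 hys⟩
          rw [mem_union, mem_lo]
          exact Or.inl ⟨hy, hvy⟩
    have := card_le_card hs
    unfold lo up at *
    omega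
  · apply card_le_card
    intro g hg
    rw [mem_lo, mem_T] at hg
    obtain ⟨⟨hgV, hg⟩, hvg⟩ := hg
    rw [mem_T]
    refine ⟨(subset_insert_iff_of_notMem hvg).1 hgV, ?_⟩
    intro A hA
    rw [mem_union, mem_lo, mem_up] at hA
    have : ∃ y ∈ Y, y ⊆ insert v (A ∪ g) := by
      rcases hA with hA | hA
      · obtain ⟨y, hy, hys⟩ := hg A hA.1
        exact ⟨y, hy, hys.trans (subset_insert _ _)⟩
      · obtain ⟨y, hy, hys⟩ := hg _ hA.1
        exact ⟨y, hy, by rwa [insert_union] at hys⟩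
    obtain ⟨y, hy, hys⟩ := this
    by_cases hvy : v ∈ y
    · refine ⟨y.erase v, ?_, (subset_insert_iff).1 hys⟩
      rw [mem_union, mem_up, insert_erase hvy]
      exact Or.inr ⟨hy, notMem_erase _ _⟩
    · refine ⟨y, ?_, (subset_insert_iff_of_notMem hvy).1 hys⟩
      rw [mem_union, mem_lo]
      exact Or.inl ⟨hy, hvy⟩
  · apply card_le_card
    intro g hg
    rw [mem_lo, mem_T] at hg
    obtain ⟨⟨hgV, hg⟩, hvg⟩ := hg
    rw [mem_T]
    refine ⟨(subset_insert_iff_of_notMem hvg).1 hgV, ?_⟩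
    intro A hA
    have hA' := mem_lo.1 (mem_inter.1 hA).1
    obtain ⟨y, hy, hys⟩ := hg A hA'.1
    have hvy : v ∉ y := by
      intro hh
      have := hys hh
      rw [mem_union] at this
      rcases this with h1 | h1
      · exact hA'.2 h1
      · exact hvg h1
    exact ⟨A ∪ y, mix h hA (mem_lo.2 ⟨hy, hvy⟩), union_subset subset_union_left hys⟩

/-- the count of the differences -/
theorem L_eq : (X \ Y).card = (X1' v X \ X1' v Y).card + (X2' v X Y \ Y2' v Y).card ∧
    (X2' v X Y \ Y2' v Y).card ≤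
      (X1' v X \ X1' v Y).card + ((lo v X \ lo v Y) ∩ up v Y).card := by
  have hXY : ∀ A, A ∈ up v X → A ∈ lo v Y → A ∈ up v Y := by
    intro A h1 h2
    rw [mem_up] at h1 ⊢
    rw [mem_lo] at h2
    refine ⟨?_, h1.2⟩
    have := h.XY _ h1.1 _ h2.1
    rwa [insert_union, union_idempotent] at this
  have e0 : (X \ Y).card = (lo v X \ lo v Y).card + (up v X \ up v Y).card := by
    have hc := card_memberSubfamily_add_card_nonMemberSubfamily v (X \ Y)
    have a1 : (X \ Y).memberSubfamily v = up v X \ up v Y := by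
      ext A
      rw [mem_memberSubfamily, mem_sdiff, mem_sdiff, mem_up, mem_up]
      tauto
    have a2 : (X \ Y).nonMemberSubfamily v = lo v X \ lo v Y := by
      ext A
      rw [mem_nonMemberSubfamily, mem_sdiff, mem_sdiff, mem_lo, mem_lo]
      tauto
    rw [a1, a2] at hc
    omega
  have e1 : X1' v X \ X1' v Y =
      ((lo v X \ lo v Y) \ (up v X ∪ up v Y)) ∪ (up v X \ up v Y) := by
    ext A
    have := hXY A
    simp only [mem_sdiff, mem_union]
    tauto
  have e2 : X2' v X Y \ Y2' v Y = (lo v X \ lo v Y) ∩ (up v X ∪ up v Y) := by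
    ext A
    have := hXY A
    simp only [mem_sdiff, mem_union, mem_inter]
    tauto
  have d1 : Disjoint ((lo v X \ lo v Y) \ (up v X ∪ up v Y)) (up v X \ up v Y) := by
    rw [disjoint_left]
    intro A hA hA'
    rw [mem_sdiff, mem_union] at hA
    rw [mem_sdiff] at hA'
    tauto
  have c1 : (X1' v X \ X1' v Y).card =
      ((lo v X \ lo v Y) \ (up v X ∪ up v Y)).card + (up v X \ up v Y).card := by
    rw [e1, card_union_of_disjoint d1]
  have c2 := card_sdiff_add_card_inter (lo v X \ lo v Y) (up v X ∪ up v Y)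
  have c3 : ((lo v X \ lo v Y) ∩ (up v X ∪ up v Y)).card ≤
      ((lo v X \ lo v Y) ∩ up v Y).card + (up v X \ up v Y).card := by
    refine (card_le_card ?_).trans (card_union_le _ _)
    intro A hA
    simp only [mem_sdiff, mem_union, mem_inter] at hA ⊢
    tauto
  rw [e2]
  omega

end step

/-- The two family inequality. -/
theorem main (rk : α → ℕ) (V : Finset α) : ∀ X Y : Finset (Finset α), Hyp V X Y →
    2 * (X \ Y).card * (T V X Y).card ≤ 2 ^ V.card * (E rk V X Y).card := by
  induction V using induction_on_min_value rk with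
  | empty =>
    intro X Y h
    rcases (X \ Y).eq_empty_or_nonempty with h0 | ⟨A, hA⟩
    · rw [h0]
      simp
    · rw [mem_sdiff] at hA
      have hY : Y = ∅ := by
        rw [eq_empty_iff_forall_notMem]
        intro y hy
        have h1 := h.subX A hA.1
        have h2 := h.subY y hy
        rw [subset_empty] at h1 h2
        rw [h1] at hA
        rw [h2] at hy
        exact hA.2 hy
      have hT : T (∅ : Finset α) X Y = ∅ := by
        rw [eq_empty_iff_forall_notMem]
        intro g hg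
        rw [mem_T] at hg
        obtain ⟨y, hy, _⟩ := hg.2 A hA.1
        rw [hY] at hy
        exact absurd hy (notMem_empty _)
      rw [hT]
      simp
  | insert v V hv hmin ih =>
    intro X Y h
    have h1 := ih _ _ (hyp1 h)
    have h2 := ih _ _ (hyp2 h)
    have hE := E_ge h hv hmin
    obtain ⟨t0, t1, t2, t3⟩ := T_le h hv
    obtain ⟨l1, l2⟩ := L_eq h
    have hTV : (T V (X1' v X) (X1' v Y)).card ≤ 2 ^ V.card := by
      rw [← card_powerset]
      exact card_le_card (filter_subset _ _)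
    rw [card_insert_of_notMem hv, pow_succ]
    generalize (T (insert v V) X Y).card = t at *
    generalize (T V (X1' v X) (X1' v Y)).card = t' at *
    generalize (T V (X2' v X Y) (Y2' v Y)).card = t'' at *
    generalize (X \ Y).card = l at *
    generalize (X1' v X \ X1' v Y).card = l' at *
    generalize (X2' v X Y \ Y2' v Y).card = l'' at *
    generalize ((lo v X \ lo v Y) ∩ up v Y).card = q at *
    generalize (E rk (insert v V) X Y).card = e at *
    generalize (E rk V (X1' v X) (X1' v Y)).card = e' at *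
    generalize (E rk V (X2' v X Y) (Y2' v Y)).card = e'' at *
    generalize 2 ^ V.card = m at *
    subst l1
    have a1 : 2 * (l' + l'') * t ≤ 2 * (l' + l'') * (t0 + t') := Nat.mul_le_mul_left _ t1
    have a2 : m * 2 * (e' + q + e'') ≤ m * 2 * e := Nat.mul_le_mul_left _ hE
    refine a1.trans (le_trans ?_ a2)
    obtain ⟨d, rfl⟩ := Nat.exists_eq_add_of_le t2
    have a3 : 2 * l'' * t0 ≤ m * e'' := (Nat.mul_le_mul_left _ t3).trans h2
    have a4 : d * l'' ≤ d * (l' + q) := Nat.mul_le_mul_left _ l2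
    have a5 : d * q ≤ m * q := Nat.mul_le_mul_right _ (by omega)
    nlinarith

end Pool.Agent.N435.Half
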