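import Mathlib

/-!
# A relative form of Han's inequality for finite families of sets

For a finite family `F` with the uniform distribution, an equivalence relation `K` on its members and
pairwise disjoint sets `p ∈ P`, the sum of the conditional entropies of the traces `S ∩ p`, given the
class of `S` and `S \ p`, is at most the conditional entropy of `S` given its class.
-/

set_option autoImplicit false

namespace Pool.Agent.N435

open Finset Real
open scoped Classical

variable {α : Type*} [DecidableEq α]

/-- number of members `S'` of `F` in the class of `S` and with the same trace off `p` -/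
noncomputable def fib (F : Finset (Finset α)) (K : Finset α → Finset α → Prop) (p S : Finset α) : ℕ :=
  (F.filter (fun S' => K S S' ∧ S' \ p = S \ p)).card

/-- number of members in the class of `S` -/
noncomputable def cls (F : Finset (Finset α)) (K : Finset α → Finset α → Prop) (S : Finset α) : ℕ :=
  (F.filter (fun S' => K S S')).card

theorem cls_pos {F : Finset (Finset α)} {K : Finset α → Finset α → Prop} (hr : ∀ S, K S S)
    {S : Finset α} (hS : S ∈ F) : 0 < cls F K S := by
  unfold cls
  exact card_pos.2 ⟨S, by simp [hS, hr S]⟩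

theorem fib_pos {F : Finset (Finset α)} {K : Finset α → Finset α → Prop} (hr : ∀ S, K S S)
    {S : Finset α} (p : Finset α) (hS : S ∈ F) : 0 < fib F K p S := by
  unfold fib
  exact card_pos.2 ⟨S, by simp [hS, hr S]⟩

theorem log_le_sub {x : ℝ} (hx : 0 < x) : Real.log x ≤ x - 1 := Real.log_le_sub_one_of_pos hx

theorem step_count (F : Finset (Finset α)) (K : Finset α → Finset α → Prop) (hr : ∀ S, K S S)
    (hs : ∀ S T, K S T → K T S) (ht : ∀ S T U, K S T → K T U → K S U) (p : Finset α) :
    ∑ S ∈ F, ((fib F K p S : ℝ) * (cls F (fun S T => K S T ∧ S ∩ p = T ∩ p) S) / (cls F K S)) ≤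
      F.card := by
  -- count triples
  have h1 : ∀ S ∈ F, ((fib F K p S : ℝ) * (cls F (fun S T => K S T ∧ S ∩ p = T ∩ p) S) / (cls F K S))
      = ∑ T ∈ F, ∑ U ∈ F, if (K S T ∧ T \ p = S \ p) ∧ (K S U ∧ S ∩ p = U ∩ p)
          then (1 : ℝ) / (cls F K T) else 0 := by
    intro S hS
    have e : ∀ T ∈ F, (∑ U ∈ F, if (K S T ∧ T \ p = S \ p) ∧ (K S U ∧ S ∩ p = U ∩ p)
          then (1 : ℝ) / (cls F K T) else 0) =
        if (K S T ∧ T \ p = S \ p) then (cls F (fun S T => K S T ∧ S ∩ p = T ∩ p) S : ℝ) *
          (1 / (cls F K S)) else 0 := by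
      intro T hT
      by_cases h : K S T ∧ T \ p = S \ p
      · have hc : cls F K T = cls F K S := by
          unfold cls
          congr 1
          apply filter_congr
          intro X _
          exact ⟨fun hX => ht _ _ _ h.1 hX, fun hX => ht _ _ _ (hs _ _ h.1) hX⟩
        rw [if_pos h, hc]
        have hcc : (cls F (fun S T => K S T ∧ S ∩ p = T ∩ p) S : ℝ) =
            ∑ U ∈ F, if (K S U ∧ S ∩ p = U ∩ p) then (1 : ℝ) else 0 := by
          unfold cls
          rw [card_filter, Nat.cast_sum]
          apply sum_congr rfl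
          intro U _
          by_cases h2 : K S U ∧ S ∩ p = U ∩ p
          · simp [h2]
          · simp [h2]
        rw [hcc, sum_mul]
        apply sum_congr rfl
        intro U _
        by_cases h2 : K S U ∧ S ∩ p = U ∩ p
        · simp [h, h2]
        · simp only [h2, and_false, if_false]
          simp
      · rw [if_neg h]
        apply sum_eq_zero
        intro U _
        rw [if_neg]
        tauto
    rw [sum_congr rfl e]
    rw [← sum_filter, sum_const, nsmul_eq_mul]
    unfold fib
    ring
  rw [sum_congr rfl h1, sum_comm]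
  have h2 : ∀ T ∈ F, (∑ S ∈ F, ∑ U ∈ F, if (K S T ∧ T \ p = S \ p) ∧ (K S U ∧ S ∩ p = U ∩ p)
          then (1 : ℝ) / (cls F K T) else 0) ≤ 1 := by
    intro T hT
    rw [sum_comm]
    have hpos : (0 : ℝ) < cls F K T := by exact_mod_cast cls_pos hr hT
    have h3 : ∀ U ∈ F, (∑ S ∈ F, if (K S T ∧ T \ p = S \ p) ∧ (K S U ∧ S ∩ p = U ∩ p)
          then (1 : ℝ) / (cls F K T) else 0) ≤ if K T U then (1 : ℝ) / (cls F K T) else 0 := by
      intro U hU
      by_cases hTU : K T U
      · rw [if_pos hTU, ← sum_filter, sum_const, nsmul_eq_mul]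
        have : (F.filter (fun S => (K S T ∧ T \ p = S \ p) ∧ (K S U ∧ S ∩ p = U ∩ p))).card ≤ 1 := by
          rw [card_le_one]
          intro a ha b hb
          simp only [mem_filter] at ha hb
          rw [← sdiff_union_inter a p, ← sdiff_union_inter b p, ← ha.2.1.2, ← hb.2.1.2,
            ha.2.2.2, hb.2.2.2]
        have h4 : ((F.filter (fun S => (K S T ∧ T \ p = S \ p) ∧ (K S U ∧ S ∩ p = U ∩ p))).card : ℝ)
            ≤ 1 := by exact_mod_cast this
        calc _ ≤ (1 : ℝ) * (1 / (cls F K T)) := by
              apply mul_le_mul_of_nonneg_right h4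
              positivity
          _ = _ := by ring
      · rw [if_neg hTU]
        apply le_of_eq
        apply sum_eq_zero
        intro S _
        rw [if_neg]
        rintro ⟨⟨h1, _⟩, h2, _⟩
        exact hTU (ht _ _ _ (hs _ _ h1) h2)
    calc _ ≤ ∑ U ∈ F, if K T U then (1 : ℝ) / (cls F K T) else 0 := sum_le_sum h3
      _ = 1 := by
        rw [← sum_filter, sum_const, nsmul_eq_mul]
        unfold cls at hpos ⊢
        field_simp
  calc _ ≤ ∑ T ∈ F, (1 : ℝ) := sum_le_sum h2
    _ = F.card := by simp

/-- Relative form of Han's inequality. -/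
theorem han (F : Finset (Finset α)) (P : Finset (Finset α))
    (hP : ∀ p ∈ P, ∀ q ∈ P, p ≠ q → Disjoint p q) :
    ∀ (K : Finset α → Finset α → Prop), (∀ S, K S S) → (∀ S T, K S T → K T S) →
      (∀ S T U, K S T → K T U → K S U) →
    ∑ S ∈ F, ∑ p ∈ P, Real.log (fib F K p S) ≤ ∑ S ∈ F, Real.log (cls F K S) := by
  induction P using Finset.induction_on with
  | empty =>
    intro K hr _ _
    simp only [sum_empty]
    rw [sum_const_zero]
    apply sum_nonneg
    intro S hS
    apply Real.log_nonneg
    exact_mod_cast cls_pos hr hS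
  | insert p P hp ih =>
    intro K hr hs ht
    have hP' : ∀ a ∈ P, ∀ b ∈ P, a ≠ b → Disjoint a b := fun a ha b hb hab =>
      hP a (mem_insert_of_mem ha) b (mem_insert_of_mem hb) hab
    set K' : Finset α → Finset α → Prop := fun S T => K S T ∧ S ∩ p = T ∩ p with hK'
    have IH := ih hP' K' (fun S => ⟨hr S, rfl⟩) (fun S T h => ⟨hs _ _ h.1, h.2.symm⟩)
      (fun S T U h1 h2 => ⟨ht _ _ _ h1.1 h2.1, h1.2.trans h2.2⟩)
    have e1 : ∀ S ∈ F, ∀ q ∈ P, fib F K q S = fib F K' q S := by
      intro S _ q hq
      unfold fib
      congr 1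
      ext T
      simp only [mem_filter]
      apply and_congr_right
      intro _
      have hd : Disjoint p q := hP p (mem_insert_self _ _) q (mem_insert_of_mem hq) (by
        rintro rfl; exact hp hq)
      constructor
      · rintro ⟨h1, h2⟩
        refine ⟨⟨h1, ?_⟩, h2⟩
        ext x
        simp only [mem_inter]
        constructor
        · rintro ⟨hx, hxp⟩
          have hxq : x ∉ q := fun h => (Finset.disjoint_left.1 hd hxp h)
          have : x ∈ S \ q := mem_sdiff.2 ⟨hx, hxq⟩
          rw [← h2] at this
          exact ⟨(mem_sdiff.1 this).1, hxp⟩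
        · rintro ⟨hx, hxp⟩
          have hxq : x ∉ q := fun h => (Finset.disjoint_left.1 hd hxp h)
          have : x ∈ T \ q := mem_sdiff.2 ⟨hx, hxq⟩
          rw [h2] at this
          exact ⟨(mem_sdiff.1 this).1, hxp⟩
      · rintro ⟨⟨h1, _⟩, h2⟩
        exact ⟨h1, h2⟩
    have e2 : ∑ S ∈ F, ∑ q ∈ insert p P, Real.log (fib F K q S) =
        ∑ S ∈ F, Real.log (fib F K p S) + ∑ S ∈ F, ∑ q ∈ P, Real.log (fib F K' q S) := by
      rw [← sum_add_distrib]
      apply sum_congr rfl
      intro S hS
      rw [sum_insert hp]
      congr 1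
      apply sum_congr rfl
      intro q hq
      rw [e1 S hS q hq]
    rw [e2]
    have h3 : ∑ S ∈ F, Real.log (fib F K p S) + ∑ S ∈ F, Real.log (cls F K' S) -
        ∑ S ∈ F, Real.log (cls F K S) ≤ 0 := by
      rw [← sum_add_distrib, ← sum_sub_distrib]
      calc _ ≤ ∑ S ∈ F, (((fib F K p S : ℝ) * (cls F K' S) / (cls F K S)) - 1) := by
            apply sum_le_sum
            intro S hS
            have a1 : (0 : ℝ) < fib F K p S := by exact_mod_cast fib_pos hr p hS
            have a2 : (0 : ℝ) < cls F K' S := by
              exact_mod_cast cls_pos (K := K') (fun S => ⟨hr S, rfl⟩) hS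
            have a3 : (0 : ℝ) < cls F K S := by exact_mod_cast cls_pos hr hS
            rw [← Real.log_mul a1.ne' a2.ne', ← Real.log_div (by positivity) a3.ne']
            exact Real.log_le_sub_one_of_pos (by positivity)
        _ ≤ 0 := by
            rw [sum_sub_distrib]
            have := step_count F K hr hs ht p
            simp only [sum_const, nsmul_eq_mul, mul_one]
            linarith
    linarith

/-- Gibbs' inequality, relative to the classes. -/
theorem gibbs (F : Finset (Finset α)) (K : Finset α → Finset α → Prop) (hr : ∀ S, K S S)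
    (hs : ∀ S T, K S T → K T S) (μ : Finset α → ℝ)
    (h0 : ∀ S ∈ F, 0 < μ S)
    (h1 : ∀ S ∈ F, ∑ T ∈ F.filter (fun T => K S T), μ T ≤ 1) :
    ∑ S ∈ F, Real.log (cls F K S) ≤ ∑ S ∈ F, -Real.log (μ S) := by
  have h3 : ∑ S ∈ F, Real.log (cls F K S) - ∑ S ∈ F, -Real.log (μ S) ≤ 0 := by
    rw [← sum_sub_distrib]
    calc _ ≤ ∑ S ∈ F, ((cls F K S : ℝ) * μ S - 1) := by
          apply sum_le_sum
          intro S hS
          have a3 : (0 : ℝ) < cls F K S := by exact_mod_cast cls_pos hr hS
          have := Real.log_le_sub_one_of_pos (mul_pos a3 (h0 S hS))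
          rw [Real.log_mul a3.ne' (h0 S hS).ne'] at this
          linarith
      _ ≤ 0 := by
          rw [sum_sub_distrib]
          have e : ∑ S ∈ F, (cls F K S : ℝ) * μ S = ∑ T ∈ F, ∑ S ∈ F.filter (fun S => K T S), μ S := by
            have : ∀ S ∈ F, (cls F K S : ℝ) * μ S = ∑ T ∈ F, if K S T then μ S else 0 := by
              intro S _
              rw [← sum_filter, sum_const, nsmul_eq_mul]
              rfl
            rw [sum_congr rfl this, sum_comm]
            apply sum_congr rfl
            intro T _
            rw [sum_filter]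
            apply sum_congr rfl
            intro S _
            by_cases h : K S T
            · rw [if_pos h, if_pos (hs _ _ h)]
            · rw [if_neg h, if_neg (fun h' => h (hs _ _ h'))]
          rw [e]
          have := sum_le_sum h1
          simp only [sum_const, nsmul_eq_mul, mul_one] at this ⊢
          linarith
  linarith

end Pool.Agent.N435
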