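import Mathlib

/-!
# A real-number lemma: a good level set for a finite sequence of probabilities
-/

set_option autoImplicit false

namespace Pool.Agent.N435

open Finset Real
open scoped Classical

/-- the function `q (2 - log q)` -/
noncomputable def phi (q : ℝ) : ℝ := q * (2 - Real.log q)

theorem phi_nonneg {q : ℝ} (h0 : 0 ≤ q) (h1 : q ≤ 1) : 0 ≤ phi q := by
  unfold phi
  have := Real.log_nonpos h0 h1
  exact mul_nonneg h0 (by linarith)

theorem phi_mono {x y : ℝ} (h0 : 0 ≤ x) (hxy : x ≤ y) (h1 : y ≤ 1) : phi x ≤ phi y := by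
  rcases h0.eq_or_lt with h | h
  · subst h
    have := phi_nonneg hxy h1
    simpa [phi] using this
  have hy : 0 < y := h.trans_le hxy
  have a1 : Real.log (y / x) ≤ y / x - 1 := Real.log_le_sub_one_of_pos (by positivity)
  rw [Real.log_div hy.ne' h.ne'] at a1
  have a2 : x * (Real.log y - Real.log x) ≤ y - x := by
    have := mul_le_mul_of_nonneg_left a1 h0
    have e : x * (y / x - 1) = y - x := by field_simp
    linarith
  have a3 := Real.log_nonpos hy.le h1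
  unfold phi
  nlinarith [mul_nonneg (sub_nonneg.2 hxy) (neg_nonneg.2 a3)]

theorem bin_le {q : ℝ} (h0 : 0 ≤ q) (h1 : q ≤ 1) :
    Real.binEntropy q ≤ q * (1 - Real.log q) := by
  unfold Real.binEntropy
  rcases h1.eq_or_lt with h | h
  · subst h
    simp
  have a : Real.log (1 - q)⁻¹ ≤ (1 - q)⁻¹ - 1 := Real.log_le_sub_one_of_pos (by
    have : 0 < 1 - q := by linarith
    positivity)
  have b : (1 - q) * Real.log (1 - q)⁻¹ ≤ q := by
    have := mul_le_mul_of_nonneg_left a (by linarith : (0 : ℝ) ≤ 1 - q)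
    have e : (1 - q) * ((1 - q)⁻¹ - 1) = q := by
      have : (1 - q) ≠ 0 := by linarith
      field_simp
      ring
    linarith
  rw [Real.log_inv q]
  linarith [b]

theorem phi_dyadic (q : ℝ) (h0 : 0 ≤ q) (h1 : q ≤ 1) (A : ℕ) :
    phi q ≤ phi ((1 / 2) ^ A) +
      ∑ a ∈ range A, (if ((1 : ℝ) / 2) ^ (a + 1) ≤ q then phi ((1 / 2) ^ a) else 0) := by
  induction A with
  | zero => simpa using phi_mono h0 h1 le_rfl
  | succ A ih =>
    by_cases h : ((1 : ℝ) / 2) ^ (A + 1) ≤ q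
    · rw [sum_range_succ, if_pos h]
      have := phi_nonneg (q := ((1 : ℝ) / 2) ^ (A + 1)) (by positivity)
        (pow_le_one₀ (by norm_num) (by norm_num))
      linarith
    · push Not at h
      have a1 := phi_mono h0 h.le (pow_le_one₀ (by norm_num) (by norm_num))
      have a2 : 0 ≤ ∑ a ∈ range (A + 1),
          (if ((1 : ℝ) / 2) ^ (a + 1) ≤ q then phi ((1 / 2) ^ a) else 0) := by
        apply sum_nonneg
        intro a _
        split_ifs
        · exact phi_nonneg (by positivity) (pow_le_one₀ (by norm_num) (by norm_num))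
        · exact le_rfl
      linarith

theorem phi_pow (a : ℕ) : phi ((1 / 2) ^ a) ≤ (1 / 2) ^ a * (2 + a) := by
  unfold phi
  rw [Real.log_pow]
  have h2 : Real.log (1 / 2) = - Real.log 2 := by
    rw [one_div, Real.log_inv]
  rw [h2]
  have h3 : Real.log 2 ≤ 1 := by
    have := Real.log_two_lt_d9
    linarith
  have h4 : (0 : ℝ) ≤ Real.log 2 := Real.log_nonneg (by norm_num)
  apply mul_le_mul_of_nonneg_left _ (by positivity)
  have : (a : ℝ) * Real.log 2 ≤ a * 1 := mul_le_mul_of_nonneg_left h3 (by positivity)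
  linarith

theorem sum_range_two (A : ℕ) : ∑ a ∈ range A, (2 + (a : ℝ)) = 2 * A + A * (A - 1) / 2 := by
  induction A with
  | zero => simp
  | succ A ih =>
    rw [sum_range_succ, ih]
    push_cast
    ring

theorem sq_le_pow (A : ℕ) (hA : 4 ≤ A) : 4 * (2 + A) ^ 2 ≤ 9 * 2 ^ A := by
  induction A, hA using Nat.le_induction with
  | base => norm_num
  | succ A hA ih =>
    have e : 2 ^ (A + 1) = 2 * 2 ^ A := by ring
    rw [e]
    nlinarith

theorem exists_level {ι : Type*} (Z : Finset ι) (Q : ι → ℝ) (h0 : ∀ k ∈ Z, 0 ≤ Q k)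
    (h1 : ∀ k ∈ Z, Q k ≤ 1) (hs : 1 ≤ ∑ k ∈ Z, Q k) (A : ℕ) (hA4 : 4 ≤ A)
    (hA : 16 * (Z.card) ^ 2 ≤ 2 ^ A) :
    ∃ κ : ℝ, 0 < κ ∧ (Z.filter (fun k => κ ≤ Q k)).Nonempty ∧
      3 / 2 * (1 + ∑ k ∈ Z, Real.binEntropy (Q k)) ≤
        5 * (A : ℝ) ^ 2 * κ * (Z.filter (fun k => κ ≤ Q k)).card := by
  by_contra hcon
  push Not at hcon
  set B : ℝ := 1 + ∑ k ∈ Z, Real.binEntropy (Q k) with hB
  have hB1 : 1 ≤ B := by
    have : 0 ≤ ∑ k ∈ Z, Real.binEntropy (Q k) :=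
      sum_nonneg fun k hk => Real.binEntropy_nonneg (h0 k hk) (h1 k hk)
    linarith
  have hAr : (4 : ℝ) ≤ A := by exact_mod_cast hA4
  set β : ℝ := 3 / 10 * B / (A : ℝ) ^ 2 with hβ
  have hβ0 : 0 ≤ β := by positivity
  have hK : ∀ κ : ℝ, 0 < κ → ((Z.filter (fun k => κ ≤ Q k)).card : ℝ) * κ ≤ β := by
    intro κ hκ
    rcases (Z.filter (fun k => κ ≤ Q k)).eq_empty_or_nonempty with h | h
    · rw [h]
      simpa using hβ0
    · have := hcon κ hκ h
      rw [hβ, le_div_iff₀ (by positivity)]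
      nlinarith
  -- upper bound for B
  have hBle : B ≤ ∑ k ∈ Z, phi (Q k) := by
    have : ∑ k ∈ Z, Real.binEntropy (Q k) ≤ ∑ k ∈ Z, Q k * (1 - Real.log (Q k)) :=
      sum_le_sum fun k hk => bin_le (h0 k hk) (h1 k hk)
    have e : ∑ k ∈ Z, phi (Q k) = ∑ k ∈ Z, Q k + ∑ k ∈ Z, Q k * (1 - Real.log (Q k)) := by
      rw [← sum_add_distrib]
      apply sum_congr rfl
      intro k _
      unfold phi
      ring
    linarith
  have hsum : ∑ k ∈ Z, phi (Q k) ≤ (Z.card : ℝ) * phi ((1 / 2) ^ A) +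
      ∑ a ∈ range A, ((Z.filter (fun k => ((1 : ℝ) / 2) ^ (a + 1) ≤ Q k)).card : ℝ) *
        phi ((1 / 2) ^ a) := by
    calc ∑ k ∈ Z, phi (Q k) ≤ ∑ k ∈ Z, (phi ((1 / 2) ^ A) +
          ∑ a ∈ range A, (if ((1 : ℝ) / 2) ^ (a + 1) ≤ Q k then phi ((1 / 2) ^ a) else 0)) :=
          sum_le_sum fun k hk => phi_dyadic _ (h0 k hk) (h1 k hk) A
      _ = _ := by
          rw [sum_add_distrib, sum_const, nsmul_eq_mul, sum_comm]
          congr 1
          apply sum_congr rfl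
          intro a _
          rw [← sum_filter, sum_const, nsmul_eq_mul]
  have hterm : ∀ a ∈ range A, ((Z.filter (fun k => ((1 : ℝ) / 2) ^ (a + 1) ≤ Q k)).card : ℝ) *
        phi ((1 / 2) ^ a) ≤ 2 * β * (2 + a) := by
    intro a _
    have b1 := hK (((1 : ℝ) / 2) ^ (a + 1)) (by positivity)
    have b2 := phi_pow a
    calc _ ≤ ((Z.filter (fun k => ((1 : ℝ) / 2) ^ (a + 1) ≤ Q k)).card : ℝ) *
          ((1 / 2) ^ a * (2 + a)) := mul_le_mul_of_nonneg_left b2 (by positivity)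
      _ = 2 * (((Z.filter (fun k => ((1 : ℝ) / 2) ^ (a + 1) ≤ Q k)).card : ℝ) *
          (1 / 2) ^ (a + 1)) * (2 + a) := by
          rw [pow_succ]
          ring
      _ ≤ 2 * β * (2 + a) := by
          apply mul_le_mul_of_nonneg_right _ (by positivity)
          linarith
  have hsum2 : ∑ a ∈ range A, ((Z.filter (fun k => ((1 : ℝ) / 2) ^ (a + 1) ≤ Q k)).card : ℝ) *
        phi ((1 / 2) ^ a) ≤ β * ((A : ℝ) ^ 2 + 3 * A) := by
    calc _ ≤ ∑ a ∈ range A, 2 * β * (2 + (a : ℝ)) := sum_le_sum hterm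
      _ = 2 * β * (2 * A + A * (A - 1) / 2) := by rw [← mul_sum, sum_range_two]
      _ = β * ((A : ℝ) ^ 2 + 3 * A) := by ring
  have hrest : (Z.card : ℝ) * phi ((1 / 2) ^ A) ≤ 3 / 8 := by
    have b2 := phi_pow A
    have b3 : (Z.card : ℝ) * phi ((1 / 2) ^ A) ≤ (Z.card : ℝ) * ((1 / 2) ^ A * (2 + A)) :=
      mul_le_mul_of_nonneg_left b2 (by positivity)
    refine b3.trans ?_
    have c1 : 16 * (Z.card : ℝ) ^ 2 ≤ 2 ^ A := by exact_mod_cast hA
    have c2 : 4 * (2 + (A : ℝ)) ^ 2 ≤ 9 * 2 ^ A := by exact_mod_cast sq_le_pow A hA4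
    rw [← pow_le_pow_iff_left₀ (by positivity) (by norm_num) two_ne_zero]
    have e : ((Z.card : ℝ) * ((1 / 2) ^ A * (2 + A))) ^ 2 =
        (16 * (Z.card : ℝ) ^ 2) * (4 * (2 + (A : ℝ)) ^ 2) / (64 * (2 ^ A) ^ 2) := by
      rw [one_div, inv_pow]
      field_simp
      ring
    rw [e, div_le_iff₀ (by positivity)]
    calc _ ≤ 2 ^ A * (9 * 2 ^ A) := mul_le_mul c1 c2 (by positivity) (by positivity)
      _ = (3 / 8) ^ 2 * (64 * (2 ^ A) ^ 2) := by ring
  have hA2 : (A : ℝ) ^ 2 + 3 * A ≤ 7 / 4 * (A : ℝ) ^ 2 := by nlinarith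
  have hfin : β * ((A : ℝ) ^ 2 + 3 * A) ≤ 21 / 40 * B := by
    calc _ ≤ β * (7 / 4 * (A : ℝ) ^ 2) := mul_le_mul_of_nonneg_left hA2 hβ0
      _ = 21 / 40 * B := by
        rw [hβ]
        field_simp
        ring
  linarith

end Pool.Agent.N435
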