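import Pool.Agent.N435.Han
import Pool.Agent.N435.Num

/-!
# Union-closed families generated by few arbitrary sets and many pairwise disjoint sets

`F` is a finite union-closed family generated by `G ⊆ F`, and `P ⊆ G` consists of pairwise disjoint
nonempty sets. The generators meeting some `p ∈ P` partially (without containing it) are the hubs. If
every element of the sets `p ∈ P` lies in at most half of the members, then the number of the `p ∈ P`
which are met partially by some generator is `O(r (log r)²)`, `r` the number of the hubs.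
-/

set_option autoImplicit false
set_option linter.unusedSectionVars false

namespace Pool.Agent.N435

open Finset Real
open scoped Classical

variable {α : Type*} [DecidableEq α]

/-- `S` meets some `p ∈ P` partially -/
def Mt (P : Finset (Finset α)) (S : Finset α) : Prop := ∃ p ∈ P, ¬ Disjoint p S ∧ ¬ p ⊆ S

/-- the members meeting some `p ∈ P` partially -/
noncomputable def F' (F P : Finset (Finset α)) : Finset (Finset α) := F.filter (Mt P)

noncomputable def D0 (F P : Finset (Finset α)) (p : Finset α) : Finset (Finset α) :=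
  (F' F P).filter (fun S => ¬ p ⊆ S ∧ S ∪ p ∉ F' F P)

noncomputable def D1 (F P : Finset (Finset α)) (p : Finset α) : Finset (Finset α) :=
  (F' F P).filter (fun S => ¬ p ⊆ S ∧ S ∪ p ∈ F' F P)

noncomputable def E (F P : Finset (Finset α)) (p : Finset α) : Finset (Finset α) :=
  (F' F P).filter (fun S => p ⊆ S)

noncomputable def im (F P : Finset (Finset α)) (p : Finset α) : Finset (Finset α) :=
  (D1 F P p).image (fun S => S ∪ p)

/-- the charge of `p` -/
noncomputable def xi (F P : Finset (Finset α)) (p : Finset α) : ℕ :=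
  (D0 F P p).card + ((D1 F P p).card - (im F P p).card)

/-- `F` is union-closed and generated by `G`; the sets `p ∈ P ⊆ G` are nonempty and disjoint -/
structure Sys (F G P : Finset (Finset α)) : Prop where
  uc : ∀ S ∈ F, ∀ T ∈ F, S ∪ T ∈ F
  gf : G ⊆ F
  gen : ∀ S ∈ F, ∀ x ∈ S, ∃ q ∈ G, x ∈ q ∧ q ⊆ S
  pg : P ⊆ G
  disj : ∀ p ∈ P, ∀ q ∈ P, p ≠ q → Disjoint p q
  ne : ∀ p ∈ P, p.Nonempty

variable {F G P : Finset (Finset α)}

theorem im_card_le (p : Finset α) : (im F P p).card ≤ (D1 F P p).card := card_image_le

theorem im_subset (p : Finset α) : im F P p ⊆ E F P p := by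
  intro S hS
  obtain ⟨T, hT, rfl⟩ := mem_image.1 hS
  simp only [D1, mem_filter] at hT
  simp only [E, mem_filter]
  exact ⟨hT.2.2, subset_union_right⟩

theorem inj_of_disjoint {S T p : Finset α} (hS : Disjoint p S) (hT : Disjoint p T)
    (h : S ∪ p = T ∪ p) : S = T := by
  have h1 : (S ∪ p) \ p = (T ∪ p) \ p := by rw [h]
  rwa [union_sdiff_right, union_sdiff_right, sdiff_eq_self_of_disjoint hS.symm,
    sdiff_eq_self_of_disjoint hT.symm] at h1

theorem meets_union {P : Finset (Finset α)} (hd : ∀ p ∈ P, ∀ q ∈ P, p ≠ q → Disjoint p q)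
    {p q S : Finset α} (hp : p ∈ P) (hq : q ∈ P) (hpq : q ≠ p) :
    (¬ Disjoint q (S ∪ p) ∧ ¬ q ⊆ S ∪ p) ↔ (¬ Disjoint q S ∧ ¬ q ⊆ S) := by
  have hqp := hd q hq p hp hpq
  have h1 : Disjoint q (S ∪ p) ↔ Disjoint q S := by
    rw [disjoint_union_right]
    exact ⟨fun h => h.1, fun h => ⟨h, hqp⟩⟩
  have h2 : q ⊆ S ∪ p ↔ q ⊆ S := by
    constructor
    · intro h x hx
      rcases mem_union.1 (h hx) with h' | h'
      · exact h'
      · exact absurd h' (fun h'' => Finset.disjoint_left.1 hqp hx h'')
    · intro h
      exact h.trans subset_union_left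
  rw [h1, h2]

/-- comparison of the members containing and not containing `p` -/
theorem claim1 (h : Sys F G P) {p : Finset α} (hp : p ∈ P) :
    (F.filter (fun S => ¬ p ⊆ S)).card + (E F P p \ im F P p).card ≤
      (F.filter (fun S => p ⊆ S)).card + xi F P p := by
  set N0 := F.filter (fun S => ¬ Mt P S ∧ ¬ p ⊆ S) with hN0
  set N1 := F.filter (fun S => ¬ Mt P S ∧ p ⊆ S) with hN1
  have e1 : (F.filter (fun S => ¬ p ⊆ S)).card = ((D0 F P p).card + (D1 F P p).card) + N0.card := by
    rw [← card_filter_add_card_filter_not (s := F.filter (fun S => ¬ p ⊆ S)) (p := Mt P)]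
    congr 1
    · have : filter (Mt P) (filter (fun S => ¬ p ⊆ S) F) =
          (F' F P).filter (fun S => ¬ p ⊆ S) := by
        ext S
        simp only [F', mem_filter]
        tauto
      rw [this, ← card_filter_add_card_filter_not
        (s := (F' F P).filter (fun S => ¬ p ⊆ S)) (p := fun S => S ∪ p ∉ F' F P)]
      congr 1
      · congr 1
        ext S
        simp only [D0, mem_filter]
        tauto
      · congr 1
        ext S
        simp only [D1, mem_filter]
        tauto
    · congr 1
      ext S
      simp only [hN0, mem_filter]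
      tauto
  have e2 : (F.filter (fun S => p ⊆ S)).card = (E F P p).card + N1.card := by
    rw [← card_filter_add_card_filter_not (s := F.filter (fun S => p ⊆ S)) (p := Mt P)]
    congr 1
    · congr 1
      ext S
      simp only [E, F', mem_filter]
      tauto
    · congr 1
      ext S
      simp only [hN1, mem_filter]
      tauto
  have e3 : N0.card ≤ N1.card := by
    have hdis : ∀ S ∈ N0, Disjoint p S := by
      intro S hS
      simp only [hN0, mem_filter] at hS
      by_contra hcon
      exact hS.2.1 ⟨p, hp, hcon, hS.2.2⟩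
    apply card_le_card_of_injOn (fun S => S ∪ p)
    · intro S hS
      have hS' := mem_coe.1 hS
      have hd := hdis S hS'
      simp only [hN0, mem_filter] at hS'
      simp only [hN1, coe_filter, Set.mem_ofPred_eq]
      refine ⟨h.uc S hS'.1 p (h.gf (h.pg hp)), ?_, subset_union_right⟩
      rintro ⟨q, hq, hq1, hq2⟩
      by_cases hqp : q = p
      · subst hqp
        exact hq2 subset_union_right
      · exact hS'.2.1 ⟨q, hq, (meets_union h.disj hp hq hqp).1 ⟨hq1, hq2⟩⟩
    · intro S hS T hT hST
      exact inj_of_disjoint (hdis S (mem_coe.1 hS)) (hdis T (mem_coe.1 hT)) hST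
  have e4 : (E F P p \ im F P p).card + (im F P p).card = (E F P p).card :=
    card_sdiff_add_card_eq_card (im_subset p)
  have e5 := im_card_le (F := F) (P := P) p
  unfold xi
  omega

/-- number of members containing `y` but not `p` -/
noncomputable def nn (F : Finset (Finset α)) (p : Finset α) (y : α) : ℕ :=
  (F.filter (fun S => y ∈ S ∧ ¬ p ⊆ S)).card

theorem two_nn (h : Sys F G P) {p : Finset α} (hp : p ∈ P) {y : α} (hy : y ∈ p)
    (H : 2 * (F.filter (fun S => y ∈ S)).card ≤ F.card) :
    2 * nn F p y + (E F P p \ im F P p).card ≤ xi F P p := by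
  have h1 := claim1 h hp
  have e1 : (F.filter (fun S => y ∈ S)).card = (F.filter (fun S => p ⊆ S)).card + nn F p y := by
    rw [← card_filter_add_card_filter_not (s := F.filter (fun S => y ∈ S)) (p := fun S => p ⊆ S)]
    congr 1
    · congr 1
      ext S
      simp only [mem_filter]
      constructor
      · rintro ⟨⟨a, b⟩, c⟩; exact ⟨a, c⟩
      · rintro ⟨a, c⟩; exact ⟨⟨a, c hy⟩, c⟩
    · unfold nn
      congr 1
      ext S
      simp only [mem_filter]
      tauto
  have e2 := card_filter_add_card_filter_not (s := F) (fun S => p ⊆ S)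
  omega

/-- a hub meeting `p` partially lies in few members of `F'` -/
theorem hub_le (h : Sys F G P) {p : Finset α} (hp : p ∈ P)
    (H : ∀ y ∈ p, 2 * (F.filter (fun S => y ∈ S)).card ≤ F.card) {k : Finset α} (hk : k ∈ G)
    (hk1 : ¬ Disjoint p k) (hk2 : ¬ p ⊆ k) :
    2 * ((F' F P).filter (fun S => k ⊆ S)).card ≤ 3 * xi F P p := by
  obtain ⟨y, hyp, hyk⟩ := not_disjoint_iff.1 hk1
  obtain ⟨y', hyp', hyk'⟩ := not_subset.1 hk2
  have a1 := two_nn h hp hyp (H y hyp)
  have a2 := two_nn h hp hyp' (H y' hyp')
  have hsub : (F' F P).filter (fun S => k ⊆ S) ⊆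
      (F.filter (fun S => y ∈ S ∧ ¬ p ⊆ S)) ∪ ((E F P p \ im F P p) ∪
        (((F.filter (fun S => y ∈ S ∧ ¬ p ⊆ S)).image (fun S => S ∪ p)) ∪
          ((F.filter (fun S => y' ∈ S ∧ ¬ p ⊆ S)).image (fun S => S ∪ p)))) := by
    intro S hS
    rw [mem_filter] at hS
    have hSF : S ∈ F := (mem_filter.1 hS.1).1
    by_cases hpS : p ⊆ S
    · apply mem_union_right
      by_cases him : S ∈ im F P p
      · apply mem_union_right
        obtain ⟨S1, hS1, hS1e⟩ := mem_image.1 him
        simp only [D1, mem_filter] at hS1
        have hS1F : S1 ∈ F := (mem_filter.1 hS1.1).1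
        by_cases hc : p ⊆ S1 ∪ k
        · apply mem_union_right
          rw [mem_image]
          refine ⟨S1, ?_, hS1e⟩
          rw [mem_filter]
          refine ⟨hS1F, ?_, hS1.2.1⟩
          rcases mem_union.1 (hc hyp') with h' | h'
          · exact h'
          · exact absurd h' hyk'
        · apply mem_union_left
          rw [mem_image]
          refine ⟨S1 ∪ k, ?_, ?_⟩
          · rw [mem_filter]
            exact ⟨h.uc _ hS1F _ (h.gf hk), mem_union_right _ hyk, hc⟩
          · have hkS : k ⊆ S1 ∪ p := by
              rw [hS1e]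
              exact hS.2
            rw [← hS1e]
            ext x
            simp only [mem_union]
            constructor
            · rintro ((h' | h') | h')
              · exact Or.inl h'
              · exact mem_union.1 (hkS h')
              · exact Or.inr h'
            · rintro (h' | h')
              · exact Or.inl (Or.inl h')
              · exact Or.inr h'
      · apply mem_union_left
        rw [mem_sdiff]
        refine ⟨?_, him⟩
        simp only [E, mem_filter]
        exact ⟨hS.1, hpS⟩
    · apply mem_union_left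
      rw [mem_filter]
      exact ⟨hSF, hS.2 hyk, hpS⟩
  have hc := card_le_card hsub
  have b1 : ((F.filter (fun S => y ∈ S ∧ ¬ p ⊆ S)).image (fun S => S ∪ p)).card ≤ nn F p y :=
    card_image_le
  have b2 : ((F.filter (fun S => y' ∈ S ∧ ¬ p ⊆ S)).image (fun S => S ∪ p)).card ≤ nn F p y' :=
    card_image_le
  have c1 := card_union_le (F.filter (fun S => y ∈ S ∧ ¬ p ⊆ S)) ((E F P p \ im F P p) ∪
        (((F.filter (fun S => y ∈ S ∧ ¬ p ⊆ S)).image (fun S => S ∪ p)) ∪
          ((F.filter (fun S => y' ∈ S ∧ ¬ p ⊆ S)).image (fun S => S ∪ p))))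
  have c2 := card_union_le (E F P p \ im F P p)
        (((F.filter (fun S => y ∈ S ∧ ¬ p ⊆ S)).image (fun S => S ∪ p)) ∪
          ((F.filter (fun S => y' ∈ S ∧ ¬ p ⊆ S)).image (fun S => S ∪ p)))
  have c3 := card_union_le ((F.filter (fun S => y ∈ S ∧ ¬ p ⊆ S)).image (fun S => S ∪ p))
          ((F.filter (fun S => y' ∈ S ∧ ¬ p ⊆ S)).image (fun S => S ∪ p))
  have c4 : (F.filter (fun S => y ∈ S ∧ ¬ p ⊆ S)).card = nn F p y := rfl
  omega

end Pool.Agent.N435
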