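import Pool.Agent.N435.Hubs

/-!
# The sum of the charges
-/

set_option autoImplicit false
set_option linter.unusedSectionVars false

namespace Pool.Agent.N435

open Finset Real
open scoped Classical

variable {α : Type*} [DecidableEq α] {F G P : Finset (Finset α)}

/-- the hubs -/
noncomputable def hubs (G P : Finset (Finset α)) : Finset (Finset α) := G.filter (Mt P)

theorem D0_disjoint (h : Sys F G P) : ∀ p ∈ P, ∀ q ∈ P, p ≠ q →
    Disjoint (D0 F P p) (D0 F P q) := by
  have key : ∀ p ∈ P, ∀ S ∈ D0 F P p, ∀ q ∈ P, (¬ Disjoint q S ∧ ¬ q ⊆ S) → q = p := by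
    intro p hp S hS q hq hqS
    simp only [D0, F', mem_filter] at hS
    by_contra hne
    apply hS.2.2
    refine ⟨h.uc _ hS.1.1 _ (h.gf (h.pg hp)), q, hq, ?_⟩
    exact (meets_union h.disj hp hq hne).2 hqS
  intro p hp q hq hpq
  rw [Finset.disjoint_left]
  intro S hSp hSq
  have hS := hSp
  simp only [D0, F', mem_filter] at hS
  obtain ⟨r, hr, hr'⟩ := hS.1.2
  have e1 := key p hp S hSp r hr hr'
  have e2 := key q hq S hSq r hr hr'
  exact hpq (e1.symm.trans e2)

theorem sum_D0 (h : Sys F G P) : ∑ p ∈ P, (D0 F P p).card ≤ (F' F P).card := by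
  rw [← card_biUnion (D0_disjoint h)]
  apply card_le_card
  intro S hS
  obtain ⟨p, _, hp⟩ := mem_biUnion.1 hS
  exact (mem_filter.1 hp).1

/-- the core of `S`: the partial traces are removed -/
noncomputable def core (P : Finset (Finset α)) (S : Finset α) : Finset α :=
  S \ ((P.filter (fun q => ¬ q ⊆ S)).biUnion id)

theorem core_eq (h : Sys F G P) {p S T : Finset α} (hp : p ∈ P) (hS : ¬ p ⊆ S) (hT : ¬ p ⊆ T)
    (hST : T \ p = S \ p) : core P S = core P T := by
  have hq : ∀ q ∈ P, (¬ q ⊆ S ↔ ¬ q ⊆ T) := by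
    intro q hq
    by_cases hqp : q = p
    · subst hqp
      exact ⟨fun _ => hT, fun _ => hS⟩
    · have hd := h.disj q hq p hp hqp
      have key : ∀ U : Finset α, q ⊆ U ↔ q ⊆ U \ p := by
        intro U
        constructor
        · intro hU x hx
          exact mem_sdiff.2 ⟨hU hx, fun hxp => Finset.disjoint_left.1 hd hx hxp⟩
        · intro hU
          exact hU.trans sdiff_subset
      rw [key S, key T, hST]
  have e : P.filter (fun q => ¬ q ⊆ S) = P.filter (fun q => ¬ q ⊆ T) := by
    ext q
    simp only [mem_filter]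
    constructor
    · rintro ⟨a, b⟩; exact ⟨a, (hq q a).1 b⟩
    · rintro ⟨a, b⟩; exact ⟨a, (hq q a).2 b⟩
  unfold core
  rw [e]
  set U := (P.filter (fun q => ¬ q ⊆ T)).biUnion id with hU
  have hpU : p ⊆ U := by
    intro x hx
    rw [hU, mem_biUnion]
    exact ⟨p, mem_filter.2 ⟨hp, hT⟩, hx⟩
  ext x
  simp only [mem_sdiff]
  constructor
  · rintro ⟨a, b⟩
    have : x ∈ S \ p := mem_sdiff.2 ⟨a, fun hxp => b (hpU hxp)⟩
    rw [← hST] at this
    exact ⟨(mem_sdiff.1 this).1, b⟩
  · rintro ⟨a, b⟩
    have : x ∈ T \ p := mem_sdiff.2 ⟨a, fun hxp => b (hpU hxp)⟩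
    rw [hST] at this
    exact ⟨(mem_sdiff.1 this).1, b⟩

/-- members with the same core -/
def KK (P : Finset (Finset α)) (S T : Finset α) : Prop := core P S = core P T

theorem fib_sum_le (h : Sys F G P) {p : Finset α} (hp : p ∈ P) :
    (((D1 F P p).card - (im F P p).card : ℕ) : ℝ) ≤
      ∑ S ∈ F' F P, Real.log (fib (F' F P) (KK P) p S) := by
  set f : Finset α → ℕ := fun c => ((D1 F P p).filter (fun S => S ∪ p = c)).card with hf
  have h1 : (D1 F P p).card = ∑ c ∈ im F P p, f c := by
    rw [hf]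
    exact card_eq_sum_card_image (fun S => S ∪ p) (D1 F P p)
  have h2 : ∀ c ∈ im F P p, 1 ≤ f c := by
    intro c hc
    obtain ⟨S, hS, hSc⟩ := mem_image.1 hc
    exact card_pos.2 ⟨S, mem_filter.2 ⟨hS, hSc⟩⟩
  have h3 : (((D1 F P p).card - (im F P p).card : ℕ) : ℝ) = ∑ c ∈ im F P p, ((f c : ℝ) - 1) := by
    rw [Nat.cast_sub (im_card_le p), h1]
    push_cast
    rw [sum_sub_distrib]
    simp
  have h4 : ∑ c ∈ im F P p, ((f c : ℝ) - 1) ≤ ∑ c ∈ im F P p, (f c : ℝ) * Real.log (f c) := by
    apply sum_le_sum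
    intro c hc
    have hpos : (0 : ℝ) < f c := by exact_mod_cast h2 c hc
    have := Real.log_le_sub_one_of_pos (inv_pos.2 hpos)
    rw [Real.log_inv] at this
    have h5 : 1 - (f c : ℝ)⁻¹ ≤ Real.log (f c) := by linarith
    calc (f c : ℝ) - 1 = f c * (1 - (f c : ℝ)⁻¹) := by field_simp
      _ ≤ f c * Real.log (f c) := mul_le_mul_of_nonneg_left h5 hpos.le
  have h5 : ∑ c ∈ im F P p, (f c : ℝ) * Real.log (f c) =
      ∑ S ∈ D1 F P p, Real.log (f (S ∪ p)) := by
    have := Finset.sum_comp (s := D1 F P p) (fun c => Real.log (f c)) (fun S => S ∪ p)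
    rw [this]
    apply sum_congr rfl
    intro c _
    rw [nsmul_eq_mul]
  have h6 : ∑ S ∈ D1 F P p, Real.log (f (S ∪ p)) ≤ ∑ S ∈ D1 F P p,
      Real.log (fib (F' F P) (KK P) p S) := by
    apply sum_le_sum
    intro S hS
    have hSD := hS
    simp only [D1, mem_filter] at hSD
    apply Real.log_le_log
    · have := h2 (S ∪ p) (mem_image_of_mem (fun S => S ∪ p) hS)
      exact_mod_cast this
    · have : f (S ∪ p) ≤ fib (F' F P) (KK P) p S := by
        apply card_le_card
        intro T hT
        rw [mem_filter] at hT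
        have hTD := hT.1
        simp only [D1, mem_filter] at hTD
        rw [mem_filter]
        have hsd : T \ p = S \ p := by
          have : (T ∪ p) \ p = (S ∪ p) \ p := by rw [hT.2]
          rwa [union_sdiff_right, union_sdiff_right] at this
        exact ⟨hTD.1, core_eq h hp hSD.2.1 hTD.2.1 hsd, hsd⟩
      exact_mod_cast this
  have h7 : ∑ S ∈ D1 F P p, Real.log (fib (F' F P) (KK P) p S) ≤
      ∑ S ∈ F' F P, Real.log (fib (F' F P) (KK P) p S) := by
    apply sum_le_sum_of_subset_of_nonneg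
    · exact filter_subset _ _
    · intro S hS _
      apply Real.log_nonneg
      exact_mod_cast fib_pos (K := KK P) (fun _ => rfl) p hS
  rw [h3]
  linarith

/-- the share of the members of `F'` containing `k` -/
noncomputable def Qk (F P : Finset (Finset α)) (k : Finset α) : ℝ :=
  (((F' F P).filter (fun S => k ⊆ S)).card : ℝ) / ((F' F P).card : ℝ)

noncomputable def mu (F G P : Finset (Finset α)) (S : Finset α) : ℝ :=
  ∏ k ∈ hubs G P, (if k ⊆ S then Qk F P k else 1 - Qk F P k)

theorem Qk_nonneg (k : Finset α) : 0 ≤ Qk F P k := by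
  unfold Qk
  positivity

theorem Qk_le_one (k : Finset α) : Qk F P k ≤ 1 := by
  unfold Qk
  apply div_le_one_of_le₀ _ (by positivity)
  exact_mod_cast card_le_card (filter_subset _ _)

theorem mu_pos {S : Finset α} (hS : S ∈ F' F P) : 0 < mu F G P S := by
  unfold mu
  apply prod_pos
  intro k _
  have hpos : (0 : ℝ) < (F' F P).card := by exact_mod_cast card_pos.2 ⟨S, hS⟩
  split_ifs with h
  · unfold Qk
    apply div_pos _ hpos
    exact_mod_cast card_pos.2 ⟨S, mem_filter.2 ⟨hS, h⟩⟩
  · unfold Qk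
    rw [sub_pos, div_lt_one hpos]
    have : ((F' F P).filter (fun S => k ⊆ S)).card < (F' F P).card := by
      apply card_lt_card
      rw [filter_ssubset]
      exact ⟨S, hS, h⟩
    exact_mod_cast this

theorem mu_class (h : Sys F G P) (S : Finset α) :
    ∑ T ∈ (F' F P).filter (fun T => KK P S T), mu F G P T ≤ 1 := by
  set W : Finset α → Finset (Finset α) := fun T => (hubs G P).filter (fun k => k ⊆ T) with hW
  set w : Finset (Finset α) → ℝ := fun V =>
    (∏ k ∈ V, Qk F P k) * ∏ k ∈ hubs G P \ V, (1 - Qk F P k) with hw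
  have e1 : ∀ T, mu F G P T = w (W T) := by
    intro T
    unfold mu
    rw [prod_ite, hw]
    simp only [hW]
    congr 1
    apply prod_congr _ (fun _ _ => rfl)
    ext k
    simp only [mem_filter, mem_sdiff]
    tauto
  have inj : Set.InjOn W ((F' F P).filter (fun T => KK P S T) : Set (Finset α)) := by
    have key : ∀ T1 ∈ (F' F P).filter (fun T => KK P S T),
        ∀ T2 ∈ (F' F P).filter (fun T => KK P S T), W T1 = W T2 → T1 ⊆ T2 := by
      intro T1 h1 T2 h2 hWW x hx
      rw [mem_filter] at h1 h2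
      unfold KK at h1 h2
      have hT1F : T1 ∈ F := (mem_filter.1 h1.1).1
      by_cases hc : x ∈ core P T1
      · rw [← h1.2, h2.2] at hc
        exact (mem_sdiff.1 hc).1
      · have hx2 : x ∈ (P.filter (fun q => ¬ q ⊆ T1)).biUnion id := by
          by_contra hcon
          exact hc (mem_sdiff.2 ⟨hx, hcon⟩)
        obtain ⟨p, hp, hxp⟩ := mem_biUnion.1 hx2
        rw [mem_filter] at hp
        simp only [id] at hxp
        obtain ⟨q, hq, hxq, hqT⟩ := h.gen T1 hT1F x hx
        have hqh : q ∈ hubs G P := by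
          simp only [hubs, mem_filter]
          refine ⟨hq, p, hp.1, not_disjoint_iff.2 ⟨x, hxp, hxq⟩, ?_⟩
          intro hpq
          exact hp.2 (hpq.trans hqT)
        have : q ∈ W T1 := by
          simp only [hW, mem_filter]
          exact ⟨hqh, hqT⟩
        rw [hWW] at this
        simp only [hW, mem_filter] at this
        exact this.2 hxq
    intro T1 h1 T2 h2 hWW
    exact subset_antisymm (key T1 (mem_coe.1 h1) T2 (mem_coe.1 h2) hWW)
      (key T2 (mem_coe.1 h2) T1 (mem_coe.1 h1) hWW.symm)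
  calc ∑ T ∈ (F' F P).filter (fun T => KK P S T), mu F G P T
      = ∑ T ∈ (F' F P).filter (fun T => KK P S T), w (W T) :=
        sum_congr rfl fun T _ => e1 T
    _ = ∑ V ∈ ((F' F P).filter (fun T => KK P S T)).image W, w V := by
        rw [sum_image]
        intro a ha b hb hab
        exact inj ha hb hab
    _ ≤ ∑ V ∈ (hubs G P).powerset, w V := by
        apply sum_le_sum_of_subset_of_nonneg
        · intro V hV
          obtain ⟨T, _, rfl⟩ := mem_image.1 hV
          exact mem_powerset.2 (filter_subset _ _)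
        · intro V _ _
          apply mul_nonneg
          · exact prod_nonneg fun k _ => Qk_nonneg k
          · exact prod_nonneg fun k _ => sub_nonneg.2 (Qk_le_one k)
    _ = ∏ k ∈ hubs G P, (Qk F P k + (1 - Qk F P k)) := by
        rw [prod_add]
    _ = 1 := by simp

theorem sum_log_mu (hne : (F' F P).Nonempty) :
    ∑ S ∈ F' F P, -Real.log (mu F G P S) =
      (F' F P).card * ∑ k ∈ hubs G P, Real.binEntropy (Qk F P k) := by
  have hpos : (0 : ℝ) < (F' F P).card := by exact_mod_cast card_pos.2 hne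
  have h1 : ∀ S ∈ F' F P, -Real.log (mu F G P S) =
      ∑ k ∈ hubs G P, (if k ⊆ S then -Real.log (Qk F P k) else -Real.log (1 - Qk F P k)) := by
    intro S hS
    unfold mu
    rw [Real.log_prod, ← sum_neg_distrib]
    · apply sum_congr rfl
      intro k _
      split_ifs <;> rfl
    · intro k _
      have hmu := mu_pos (G := {k}) hS
      split_ifs with h
      · have : (0 : ℝ) < Qk F P k := by
          unfold Qk
          apply div_pos _ hpos
          exact_mod_cast card_pos.2 ⟨S, mem_filter.2 ⟨hS, h⟩⟩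
        exact this.ne'
      · have : (0 : ℝ) < 1 - Qk F P k := by
          unfold Qk
          rw [sub_pos, div_lt_one hpos]
          have : ((F' F P).filter (fun S => k ⊆ S)).card < (F' F P).card := by
            apply card_lt_card
            rw [filter_ssubset]
            exact ⟨S, hS, h⟩
          exact_mod_cast this
        exact this.ne'
  rw [sum_congr rfl h1, sum_comm, mul_sum]
  apply sum_congr rfl
  intro k _
  rw [sum_ite, sum_const, sum_const, nsmul_eq_mul, nsmul_eq_mul]
  have e1 : (((F' F P).filter (fun S => k ⊆ S)).card : ℝ) = (F' F P).card * Qk F P k := by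
    unfold Qk
    field_simp
  have e2 : (((F' F P).filter (fun S => ¬ k ⊆ S)).card : ℝ) = (F' F P).card * (1 - Qk F P k) := by
    have := card_filter_add_card_filter_not (s := F' F P) (fun S => k ⊆ S)
    have h' : (((F' F P).filter (fun S => k ⊆ S)).card : ℝ) +
        ((F' F P).filter (fun S => ¬ k ⊆ S)).card = (F' F P).card := by exact_mod_cast this
    rw [e1] at h'
    linarith
  rw [e1, e2]
  unfold Real.binEntropy
  rw [Real.log_inv, Real.log_inv]
  ring

theorem sum_xi (h : Sys F G P) (hne : (F' F P).Nonempty) :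
    ∑ p ∈ P, (xi F P p : ℝ) ≤
      (F' F P).card * (1 + ∑ k ∈ hubs G P, Real.binEntropy (Qk F P k)) := by
  have h1 : ∑ p ∈ P, (xi F P p : ℝ) = ∑ p ∈ P, ((D0 F P p).card : ℝ) +
      ∑ p ∈ P, (((D1 F P p).card - (im F P p).card : ℕ) : ℝ) := by
    rw [← sum_add_distrib]
    apply sum_congr rfl
    intro p _
    unfold xi
    push_cast
    rfl
  have h2 : ∑ p ∈ P, ((D0 F P p).card : ℝ) ≤ (F' F P).card := by exact_mod_cast sum_D0 h
  have h3 : ∑ p ∈ P, (((D1 F P p).card - (im F P p).card : ℕ) : ℝ) ≤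
      ∑ S ∈ F' F P, ∑ p ∈ P, Real.log (fib (F' F P) (KK P) p S) := by
    rw [sum_comm]
    exact sum_le_sum fun p hp => fib_sum_le h hp
  have h4 := han (F' F P) P h.disj (KK P) (fun _ => rfl)
    (fun _ _ e => Eq.symm e) (fun _ _ _ e1 e2 => Eq.trans e1 e2)
  have h5 := gibbs (F' F P) (KK P) (fun _ => rfl)
    (fun _ _ e => Eq.symm e) (mu F G P) (fun S hS => mu_pos hS) (fun S _ => mu_class h S)
  have h6 := sum_log_mu (F := F) (G := G) (P := P) hne
  rw [h1]
  linarith

end Pool.Agent.N435
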