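import Pool.Agent.N435.Hubs2

/-!
# The number of the sets `p ∈ P` met partially by some generator
-/

set_option autoImplicit false
set_option linter.unusedSectionVars false

namespace Pool.Agent.N435

open Finset Real
open scoped Classical

variable {α : Type*} [DecidableEq α] {F G P : Finset (Finset α)}

/-- the sets `p ∈ P` met partially by some set of `K` -/
noncomputable def touched (K P : Finset (Finset α)) : Finset (Finset α) :=
  P.filter (fun p => ∃ k ∈ K, ¬ Disjoint p k ∧ ¬ p ⊆ k)

theorem exists_hub (h : Sys F G P) {S : Finset α} (hS : S ∈ F' F P) :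
    ∃ k ∈ hubs G P, k ⊆ S := by
  simp only [F', mem_filter] at hS
  obtain ⟨hSF, p, hp, hd, hs⟩ := hS
  obtain ⟨x, hxp, hxS⟩ := not_disjoint_iff.1 hd
  obtain ⟨q, hq, hxq, hqS⟩ := h.gen S hSF x hxS
  refine ⟨q, ?_, hqS⟩
  simp only [hubs, mem_filter]
  exact ⟨hq, p, hp, not_disjoint_iff.2 ⟨x, hxp, hxq⟩, fun h' => hs (h'.trans hqS)⟩

theorem sum_Qk (h : Sys F G P) (hne : (F' F P).Nonempty) : 1 ≤ ∑ k ∈ hubs G P, Qk F P k := by
  have hpos : (0 : ℝ) < (F' F P).card := by exact_mod_cast card_pos.2 hne
  have h1 : ((F' F P).card : ℝ) ≤ ∑ k ∈ hubs G P, (((F' F P).filter (fun S => k ⊆ S)).card : ℝ) := by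
    have : (F' F P).card ≤ ∑ k ∈ hubs G P, ((F' F P).filter (fun S => k ⊆ S)).card := by
      calc (F' F P).card ≤ ((hubs G P).biUnion (fun k => (F' F P).filter (fun S => k ⊆ S))).card := by
            apply card_le_card
            intro S hS
            obtain ⟨k, hk, hkS⟩ := exists_hub h hS
            exact mem_biUnion.2 ⟨k, hk, mem_filter.2 ⟨hS, hkS⟩⟩
        _ ≤ _ := card_biUnion_le
    exact_mod_cast this
  unfold Qk
  rw [← sum_div, le_div_iff₀ hpos]
  linarith

theorem Sys.mono (h : Sys F G P) {P' : Finset (Finset α)} (hP : P' ⊆ P) : Sys F G P' where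
  uc := h.uc
  gf := h.gf
  gen := h.gen
  pg := hP.trans h.pg
  disj := fun p hp q hq => h.disj p (hP hp) q (hP hq)
  ne := fun p hp => h.ne p (hP hp)

/-- one step: a nonempty set of hubs touching few sets of `P` -/
theorem one_step (h : Sys F G P)
    (H : ∀ p ∈ P, ∀ y ∈ p, 2 * (F.filter (fun S => y ∈ S)).card ≤ F.card)
    (hne : (hubs G P).Nonempty) (A : ℕ) (hA4 : 4 ≤ A) (hA : 16 * (hubs G P).card ^ 2 ≤ 2 ^ A) :
    ∃ K ⊆ hubs G P, K.Nonempty ∧ (touched K P).card ≤ 5 * A ^ 2 * K.card := by
  have hne' : (F' F P).Nonempty := by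
    obtain ⟨k, hk⟩ := hne
    simp only [hubs, mem_filter] at hk
    exact ⟨k, by simp only [F', mem_filter]; exact ⟨h.gf hk.1, hk.2⟩⟩
  have hpos : (0 : ℝ) < (F' F P).card := by exact_mod_cast card_pos.2 hne'
  obtain ⟨κ, hκ, hK, hB⟩ := exists_level (hubs G P) (Qk F P) (fun k _ => Qk_nonneg k)
    (fun k _ => Qk_le_one k) (sum_Qk h hne') A hA4 hA
  set K := (hubs G P).filter (fun k => κ ≤ Qk F P k) with hKdef
  refine ⟨K, filter_subset _ _, hK, ?_⟩
  have h1 : ∀ p ∈ touched K P, κ * (F' F P).card ≤ 3 / 2 * (xi F P p : ℝ) := by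
    intro p hp
    simp only [touched, mem_filter] at hp
    obtain ⟨hpP, k, hk, hk1, hk2⟩ := hp
    rw [hKdef, mem_filter] at hk
    have hkG : k ∈ G := (mem_filter.1 hk.1).1
    have h2 := hub_le h hpP (H p hpP) hkG hk1 hk2
    have h3 : 2 * (((F' F P).filter (fun S => k ⊆ S)).card : ℝ) ≤ 3 * (xi F P p : ℝ) := by
      exact_mod_cast h2
    have h4 : Qk F P k * (F' F P).card = (((F' F P).filter (fun S => k ⊆ S)).card : ℝ) := by
      unfold Qk
      field_simp
    have h5 : κ * (F' F P).card ≤ Qk F P k * (F' F P).card :=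
      mul_le_mul_of_nonneg_right hk.2 hpos.le
    linarith
  have h2 : ((touched K P).card : ℝ) * (κ * (F' F P).card) ≤
      3 / 2 * ∑ p ∈ P, (xi F P p : ℝ) := by
    calc ((touched K P).card : ℝ) * (κ * (F' F P).card)
        = ∑ p ∈ touched K P, κ * (F' F P).card := by rw [sum_const, nsmul_eq_mul]
      _ ≤ ∑ p ∈ touched K P, 3 / 2 * (xi F P p : ℝ) := sum_le_sum h1
      _ = 3 / 2 * ∑ p ∈ touched K P, (xi F P p : ℝ) := by rw [mul_sum]
      _ ≤ 3 / 2 * ∑ p ∈ P, (xi F P p : ℝ) := by
          apply mul_le_mul_of_nonneg_left _ (by norm_num)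
          apply sum_le_sum_of_subset_of_nonneg (filter_subset _ _)
          intro p _ _
          positivity
  have h3 := sum_xi h hne'
  have h4 : ((touched K P).card : ℝ) * κ ≤
      3 / 2 * (1 + ∑ k ∈ hubs G P, Real.binEntropy (Qk F P k)) := by
    have : (((touched K P).card : ℝ) * κ) * (F' F P).card ≤
        (3 / 2 * (1 + ∑ k ∈ hubs G P, Real.binEntropy (Qk F P k))) * (F' F P).card := by
      nlinarith
    exact le_of_mul_le_mul_right this hpos
  have h5 : ((touched K P).card : ℝ) * κ ≤ (5 * (A : ℝ) ^ 2 * K.card) * κ := by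
    linarith
  have h6 := le_of_mul_le_mul_right h5 hκ
  exact_mod_cast h6

theorem touched_le_aux (A : ℕ) (hA4 : 4 ≤ A) (n : ℕ) :
    ∀ (F G P : Finset (Finset α)), Sys F G P →
    (∀ p ∈ P, ∀ y ∈ p, 2 * (F.filter (fun S => y ∈ S)).card ≤ F.card) →
    (hubs G P).card = n → 16 * n ^ 2 ≤ 2 ^ A → (touched G P).card ≤ 5 * A ^ 2 * n := by
  induction n using Nat.strong_induction_on with
  | _ n ih =>
    intro F G P h H hn hA
    rcases (hubs G P).eq_empty_or_nonempty with h0 | hne
    · have : touched G P = ∅ := by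
        rw [eq_empty_iff_forall_notMem]
        intro p hp
        simp only [touched, mem_filter] at hp
        obtain ⟨hpP, k, hk, hk'⟩ := hp
        have : k ∈ hubs G P := by
          simp only [hubs, mem_filter]
          exact ⟨hk, p, hpP, hk'⟩
        rw [h0] at this
        exact absurd this (notMem_empty _)
      rw [this]
      simp
    · rw [← hn] at hA
      obtain ⟨K, hKs, hKne, hK⟩ := one_step h H hne A hA4 hA
      set P' := P \ touched K P with hP'
      have hsub : P' ⊆ P := sdiff_subset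
      have hh : hubs G P' ⊆ hubs G P \ K := by
        intro k hk
        simp only [hubs, mem_filter] at hk
        obtain ⟨hkG, p, hp, hk'⟩ := hk
        rw [mem_sdiff]
        constructor
        · simp only [hubs, mem_filter]
          exact ⟨hkG, p, hsub hp, hk'⟩
        · intro hkK
          rw [hP', mem_sdiff] at hp
          apply hp.2
          simp only [touched, mem_filter]
          exact ⟨hp.1, k, hkK, hk'⟩
      have hc1 : (hubs G P').card ≤ (hubs G P \ K).card := card_le_card hh
      have hc2 : (hubs G P \ K).card = (hubs G P).card - K.card := card_sdiff_of_subset hKs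
      have hc3 : K.card ≤ (hubs G P).card := card_le_card hKs
      have hc4 : 0 < K.card := card_pos.2 hKne
      have hlt : (hubs G P').card < n := by omega
      have IH := ih (hubs G P').card hlt F G P' (h.mono hsub)
        (fun p hp => H p (hsub hp)) rfl (by
          refine le_trans ?_ hA
          have : (hubs G P').card ≤ (hubs G P).card := by omega
          gcongr)
      have ht : touched G P ⊆ touched K P ∪ touched G P' := by
        intro p hp
        rw [mem_union]
        by_cases hpK : p ∈ touched K P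
        · exact Or.inl hpK
        · right
          simp only [touched, mem_filter] at hp
          have : p ∈ P' := by
            rw [hP', mem_sdiff]
            exact ⟨hp.1, hpK⟩
          simp only [touched, mem_filter]
          exact ⟨this, hp.2⟩
      have hc5 := card_le_card ht
      have hc6 := card_union_le (touched K P) (touched G P')
      have hc7 : 5 * A ^ 2 * (hubs G P').card ≤ 5 * A ^ 2 * (n - K.card) :=
        Nat.mul_le_mul_left _ (by omega)
      calc (touched G P).card ≤ 5 * A ^ 2 * K.card + 5 * A ^ 2 * (n - K.card) := by omega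
        _ = 5 * A ^ 2 * n := by
          rw [← mul_add]
          congr 1
          omega

/-- The number of the sets of `P` met partially by some generator. -/
theorem touched_le (h : Sys F G P)
    (H : ∀ p ∈ P, ∀ y ∈ p, 2 * (F.filter (fun S => y ∈ S)).card ≤ F.card) (A : ℕ) (hA4 : 4 ≤ A)
    (hA : 16 * (hubs G P).card ^ 2 ≤ 2 ^ A) :
    (touched G P).card ≤ 5 * A ^ 2 * (hubs G P).card :=
  touched_le_aux A hA4 _ F G P h H rfl hA

/-- a set `p ∈ P` which is not met partially -/
theorem untouched (h : Sys F G P) {p : Finset α} (hp : p ∈ P)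
    (hu : ∀ q ∈ G, Disjoint p q ∨ p ⊆ q) {y : α} (hy : y ∈ p) :
    F.card ≤ 2 * (F.filter (fun S => y ∈ S)).card ∧
    (2 * (F.filter (fun S => y ∈ S)).card ≤ F.card → ∀ S ∈ F, p ⊆ S → S \ p ∈ F) := by
  have h1 : ∀ S ∈ F, y ∉ S → Disjoint p S := by
    intro S hS hyS
    by_contra hd
    obtain ⟨x, hxp, hxS⟩ := not_disjoint_iff.1 hd
    obtain ⟨q, hq, hxq, hqS⟩ := h.gen S hS x hxS
    rcases hu q hq with h' | h'
    · exact Finset.disjoint_left.1 h' hxp hxq
    · exact hyS (hqS (h' hy))
  have h2 : ∀ S ∈ F, y ∈ S → p ⊆ S := by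
    intro S hS hyS
    obtain ⟨q, hq, hxq, hqS⟩ := h.gen S hS y hyS
    rcases hu q hq with h' | h'
    · exact absurd hxq (fun h'' => Finset.disjoint_left.1 h' hy h'')
    · exact h'.trans hqS
  set N := F.filter (fun S => ¬ y ∈ S) with hN
  set Y := F.filter (fun S => y ∈ S) with hY
  have hcard : Y.card + N.card = F.card := card_filter_add_card_filter_not (fun S => y ∈ S)
  have himg : N.image (fun S => S ∪ p) ⊆ Y := by
    intro S hS
    obtain ⟨T, hT, rfl⟩ := mem_image.1 hS
    rw [hN, mem_filter] at hT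
    rw [hY, mem_filter]
    exact ⟨h.uc _ hT.1 _ (h.gf (h.pg hp)), mem_union_right _ hy⟩
  have hinj : (N.image (fun S => S ∪ p)).card = N.card := by
    apply card_image_of_injOn
    intro S hS T hT hST
    rw [mem_coe, hN, mem_filter] at hS hT
    exact inj_of_disjoint (h1 S hS.1 hS.2) (h1 T hT.1 hT.2) hST
  have hle := card_le_card himg
  refine ⟨by omega, ?_⟩
  intro hH S hS hpS
  have heq : N.image (fun S => S ∪ p) = Y := by
    apply eq_of_subset_of_card_le himg
    omega
  have : S ∈ Y := by
    rw [hY, mem_filter]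
    exact ⟨hS, hpS hy⟩
  rw [← heq] at this
  obtain ⟨T, hT, hTS⟩ := mem_image.1 this
  rw [hN, mem_filter] at hT
  have hd := h1 T hT.1 hT.2
  rw [← hTS]
  rw [union_sdiff_right, sdiff_eq_self_of_disjoint hd.symm]
  exact hT.1

/-- The main theorem on systems: if `P` is large compared to the number of hubs and all elements of
the sets of `P` lie in at most half of the members, some `p ∈ P` is met partially by no generator. -/
theorem exists_untouched (h : Sys F G P)
    (H : ∀ p ∈ P, ∀ y ∈ p, 2 * (F.filter (fun S => y ∈ S)).card ≤ F.card) (A : ℕ) (hA4 : 4 ≤ A)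
    (hA : 16 * (hubs G P).card ^ 2 ≤ 2 ^ A) (hP : 5 * A ^ 2 * (hubs G P).card < P.card) :
    ∃ p ∈ P, ∀ q ∈ G, Disjoint p q ∨ p ⊆ q := by
  have h1 := touched_le h H A hA4 hA
  have h2 : (touched G P).card < P.card := by omega
  have h3 : ∃ p ∈ P, p ∉ touched G P := by
    by_contra hcon
    push Not at hcon
    have := card_le_card (show P ⊆ touched G P from hcon)
    omega
  obtain ⟨p, hp, hpt⟩ := h3
  refine ⟨p, hp, ?_⟩
  intro q hq
  by_contra hcon
  rw [not_or] at hcon
  apply hpt
  simp only [touched, mem_filter]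
  exact ⟨hp, q, hq, hcon.1, hcon.2⟩

end Pool.Agent.N435
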