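import Pool.Agent.N435.Main

/-!
# Union-irreducible members
-/

set_option autoImplicit false
set_option linter.unusedSectionVars false

namespace Pool.Agent.N435

open Finset
open scoped Classical

variable {α : Type*} [DecidableEq α]

/-- Every element of a member lies in an irreducible member contained in it. -/
theorem irr_gen (A : Finset (Finset α)) (S : Finset α) (hS : S ∈ A) (x : α) (hx : x ∈ S) :
    ∃ q ∈ A, (q.Nonempty ∧ ∀ X ∈ A, ∀ Y ∈ A, X ∪ Y = q → X = q ∨ Y = q) ∧ x ∈ q ∧ q ⊆ S := by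
  obtain ⟨q, hq, hmin⟩ := exists_min_image (A.filter (fun q => x ∈ q ∧ q ⊆ S)) (fun q => q.card)
    ⟨S, mem_filter.2 ⟨hS, hx, Subset.rfl⟩⟩
  rw [mem_filter] at hq
  refine ⟨q, hq.1, ⟨⟨x, hq.2.1⟩, ?_⟩, hq.2⟩
  intro X hX Y hY hXY
  have hxq : x ∈ X ∪ Y := by rw [hXY]; exact hq.2.1
  rcases mem_union.1 hxq with h | h
  · left
    have hsub : X ⊆ q := by rw [← hXY]; exact subset_union_left
    exact eq_of_subset_of_card_le hsub (hmin X (mem_filter.2 ⟨hX, h, hsub.trans hq.2.2⟩))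
  · right
    have hsub : Y ⊆ q := by rw [← hXY]; exact subset_union_right
    exact eq_of_subset_of_card_le hsub (hmin Y (mem_filter.2 ⟨hY, h, hsub.trans hq.2.2⟩))

theorem filter_insert_empty (A : Finset (Finset α)) (x : α) :
    (insert ∅ A).filter (fun S => x ∈ S) = A.filter (fun S => x ∈ S) := by
  rw [filter_insert, if_neg (notMem_empty x)]

theorem union_insert {A : Finset (Finset α)} (h : ∀ X ∈ A, ∀ Y ∈ A, X ∪ Y ∈ A) :
    ∀ X ∈ insert ∅ A, ∀ Y ∈ insert ∅ A, X ∪ Y ∈ insert ∅ A := by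
  intro X hX Y hY
  rcases mem_insert.1 hX with rfl | hX
  · rw [empty_union]; exact hY
  rcases mem_insert.1 hY with rfl | hY
  · rw [union_empty]; exact mem_insert_of_mem hX
  exact mem_insert_of_mem (h X hX Y hY)

/-- Dense families, in terms of a generating set `G1 ⊇ nonisol G`. -/
theorem dense_irr (A G G1 : Finset (Finset α)) (hA : ∀ X ∈ A, ∀ Y ∈ A, X ∪ Y ∈ A)
    (hG : G = A.filter (fun q => q.Nonempty ∧ ∀ X ∈ A, ∀ Y ∈ A, X ∪ Y = q → X = q ∨ Y = q))
    (hG1 : nonisol G ⊆ G1) (hG1' : G1 ⊆ G) (hne : G1.Nonempty)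
    (hm : (2 : ℝ) ^ ((G.card : ℝ) - (G1.card : ℝ) / (16 * Real.logb 2 G1.card) ^ 2) ≤
      (insert ∅ A).card)
    (H : ∀ x, 2 * (A.filter (fun S => x ∈ S)).card ≤ (insert ∅ A).card) :
    ∃ p ∈ G1, (∀ q ∈ G, q ≠ p → Disjoint p q) ∧
      ∀ y ∈ p, (insert ∅ A).card ≤ 2 * (A.filter (fun S => y ∈ S)).card := by
  have hGA : G ⊆ A := by rw [hG]; exact filter_subset _ _
  have gf : G ⊆ insert ∅ A := hGA.trans (subset_insert _ _)
  have ne : ∀ p ∈ G, p.Nonempty := by
    intro p hp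
    rw [hG, mem_filter] at hp
    exact hp.2.1
  have gen : ∀ S ∈ insert ∅ A, ∀ x ∈ S, ∃ q ∈ G, x ∈ q ∧ q ⊆ S := by
    intro S hS x hx
    rcases mem_insert.1 hS with rfl | hS
    · exact absurd hx (notMem_empty x)
    · obtain ⟨q, hq, hq', hq''⟩ := irr_gen A S hS x hx
      exact ⟨q, by rw [hG, mem_filter]; exact ⟨hq, hq'⟩, hq''⟩
  have H' : ∀ x, 2 * ((insert ∅ A).filter (fun S => x ∈ S)).card ≤ (insert ∅ A).card := by
    intro x
    rw [filter_insert_empty]
    exact H x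
  obtain ⟨p, hp, hu⟩ := dense (union_insert hA) gf gen ne G1 hG1 hG1' hne hm H'
  have hpG := hG1' hp
  have hsys : Sys (insert ∅ A) G {p} := by
    refine ⟨union_insert hA, gf, gen, by simpa using hpG, ?_, ?_⟩
    · intro a ha b hb hab
      rw [mem_singleton] at ha hb
      exact absurd (ha.trans hb.symm) hab
    · intro a ha
      rw [mem_singleton] at ha
      rw [ha]
      exact ne p hpG
  have key : ∀ y ∈ p, (insert ∅ A).card ≤ 2 * (A.filter (fun S => y ∈ S)).card ∧
      ∀ S ∈ insert ∅ A, p ⊆ S → S \ p ∈ insert ∅ A := by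
    intro y hy
    have := untouched hsys (mem_singleton_self p) hu hy
    rw [filter_insert_empty] at this
    exact ⟨this.1, this.2 (H y)⟩
  refine ⟨p, hp, ?_, fun y hy => (key y hy).1⟩
  intro q hq hqp
  rcases hu q hq with h' | h'
  · exact h'
  · exfalso
    obtain ⟨y, hy⟩ := ne p hpG
    have h1 := (key y hy).2 q (gf hq) h'
    have hq2 := hq
    rw [hG, mem_filter] at hq2
    have hnee : (q \ p) ≠ ∅ := by
      intro h0
      rw [sdiff_eq_empty_iff_subset] at h0
      exact hqp (subset_antisymm h0 h')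
    have h2 : q \ p ∈ A := by
      rcases mem_insert.1 h1 with h0 | h0
      · exact absurd h0 hnee
      · exact h0
    rcases hq2.2.2 (q \ p) h2 p (hGA hpG) (sdiff_union_of_subset h') with h3 | h3
    · have : y ∈ q \ p := by rw [h3]; exact h' hy
      exact (mem_sdiff.1 this).2 hy
    · exact hqp h3.symm

end Pool.Agent.N435
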