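import Pool.Agent.N435.Hubs2

/-!
# A linear bound for the number of the touched sets

`F` is a finite union-closed family generated by `G ⊆ F`, and `P ⊆ G` consists of pairwise disjoint
nonempty sets. If every element of the sets `p ∈ P` lies in at most half of the members, and each
`p ∈ P` is met partially by some generator, then `|P| < 2 r`, where `r` is the number of the
generators meeting some `p ∈ P` partially.
-/

set_option autoImplicit false
set_option linter.unusedSectionVars false

namespace Pool.Agent.N435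

open Finset
open scoped Classical

variable {α : Type*} [DecidableEq α] {F G P : Finset (Finset α)}

/-- the sets containing `p` which are not of the form `S ∪ p` -/
noncomputable def UU (F P : Finset (Finset α)) (p : Finset α) : Finset (Finset α) :=
  E F P p \ im F P p

/-- the sets `q ∈ P` met partially by `k` -/
noncomputable def tch (P : Finset (Finset α)) (k : Finset α) : Finset (Finset α) :=
  P.filter (fun q => ¬ Disjoint q k ∧ ¬ q ⊆ k)

/-- `q` is the first set of `tch P k` not contained in `S` -/
def FM (P : Finset (Finset α)) (rk : Finset α → ℕ) (k S q : Finset α) : Prop :=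
  q ∈ tch P k ∧ ¬ q ⊆ S ∧ ∀ q' ∈ tch P k, ¬ q' ⊆ S → rk q ≤ rk q'

/-- the members counted for `q` -/
noncomputable def AA (F P : Finset (Finset α)) (Q : Finset (Finset α)) (rk : Finset α → ℕ)
    (q : Finset α) (x : α) : Finset (Finset α) :=
  (F' F P).filter (fun S => x ∈ S ∧ ¬ q ⊆ S ∧ ∀ q' ∈ Q, rk q' < rk q → q' ⊆ S)

theorem E_card (p : Finset α) : (UU F P p).card + (im F P p).card = (E F P p).card :=
  card_sdiff_add_card_eq_card (im_subset p)

/-- comparison of the members containing and not containing `y` -/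
theorem claimy (h : Sys F G P) {p : Finset α} (hp : p ∈ P) {y : α} (hy : y ∈ p)
    (H : 2 * (F.filter (fun S => y ∈ S)).card ≤ F.card) :
    nn F p y + (E F P p).card ≤
      ((D0 F P p).filter (fun S => y ∉ S)).card + ((D1 F P p).filter (fun S => y ∉ S)).card := by
  set N0 := F.filter (fun S => ¬ Mt P S ∧ ¬ p ⊆ S) with hN0
  set N1 := F.filter (fun S => ¬ Mt P S ∧ p ⊆ S) with hN1
  have hdis : ∀ S ∈ N0, Disjoint p S := by
    intro S hS
    simp only [hN0, mem_filter] at hS
    by_contra hcon
    exact hS.2.1 ⟨p, hp, hcon, hS.2.2⟩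
  have e3 : N0.card ≤ N1.card := by
    apply card_le_card_of_injOn (fun S => S ∪ p)
    · intro S hS
      have hS' := mem_coe.1 hS
      have hd := hdis S hS'
      simp only [hN0, mem_filter] at hS'
      simp only [hN1, coe_filter, Set.mem_ofPred_eq]
      refine ⟨h.uc S hS'.1 p (h.gf (h.pg hp)), ?_, subset_union_right⟩
      rintro ⟨q, hq, hq1, hq2⟩
      by_cases hqp : q = p
      · subst hqp
        exact hq2 subset_union_right
      · exact hS'.2.1 ⟨q, hq, (meets_union h.disj hp hq hqp).1 ⟨hq1, hq2⟩⟩
    · intro S hS T hT hST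
      exact inj_of_disjoint (hdis S (mem_coe.1 hS)) (hdis T (mem_coe.1 hT)) hST
  have e2 : (F.filter (fun S => p ⊆ S)).card = (E F P p).card + N1.card := by
    rw [← card_filter_add_card_filter_not (s := F.filter (fun S => p ⊆ S)) (p := Mt P)]
    congr 1
    · congr 1
      ext S
      simp only [E, F', mem_filter]
      tauto
    · congr 1
      ext S
      simp only [hN1, mem_filter]
      tauto
  have e1 : (F.filter (fun S => y ∈ S)).card = (F.filter (fun S => p ⊆ S)).card + nn F p y := by
    rw [← card_filter_add_card_filter_not (s := F.filter (fun S => y ∈ S)) (p := fun S => p ⊆ S)]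
    congr 1
    · congr 1
      ext S
      simp only [mem_filter]
      constructor
      · rintro ⟨⟨a, b⟩, c⟩; exact ⟨a, c⟩
      · rintro ⟨a, c⟩; exact ⟨⟨a, c hy⟩, c⟩
    · unfold nn
      congr 1
      ext S
      simp only [mem_filter]
      tauto
  have e4 : (F.filter (fun S => y ∉ S)).card ≤ ((D0 F P p).filter (fun S => y ∉ S)).card +
      ((D1 F P p).filter (fun S => y ∉ S)).card + N0.card := by
    have hsub : F.filter (fun S => y ∉ S) ⊆ ((D0 F P p).filter (fun S => y ∉ S) ∪
        (D1 F P p).filter (fun S => y ∉ S)) ∪ N0 := by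
      intro S hS
      rw [mem_filter] at hS
      have hpS : ¬ p ⊆ S := fun hc => hS.2 (hc hy)
      by_cases hM : Mt P S
      · apply mem_union_left
        by_cases hU : S ∪ p ∈ F' F P
        · apply mem_union_right
          simp only [D1, F', mem_filter] at hU ⊢
          exact ⟨⟨⟨hS.1, hM⟩, hpS, hU⟩, hS.2⟩
        · apply mem_union_left
          simp only [D0, F', mem_filter] at hU ⊢
          exact ⟨⟨⟨hS.1, hM⟩, hpS, hU⟩, hS.2⟩
      · apply mem_union_right
        simp only [hN0, mem_filter]
        exact ⟨hS.1, hM, hpS⟩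
    calc _ ≤ _ := card_le_card hsub
      _ ≤ _ := card_union_le _ _
      _ ≤ _ := Nat.add_le_add_right (card_union_le _ _) _
  have e5 := card_filter_add_card_filter_not (s := F) (fun S => y ∈ S)
  omega

/-- the members charged at `p` -/
noncomputable def Chg (F G P : Finset (Finset α)) (rk : Finset α → ℕ) (p : Finset α) (y : α) :
    Finset (Finset α) :=
  (D1 F P p).filter (fun S => y ∉ S ∧ ((∃ k ∈ hubs G P, k ⊆ S ∧ FM P rk k S p) ∨
    (∃ k ∈ hubs G P, k ⊆ S ∪ p ∧ ¬ k ⊆ S ∧ y ∉ k ∧ ¬ FM P rk k S p)))

theorem sub_iff_of_union {q p S S' : Finset α} (hqp : Disjoint q p) (hS : S ∪ p = S' ∪ p) :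
    q ⊆ S ↔ q ⊆ S' := by
  have key : ∀ A B : Finset α, A ∪ p = B ∪ p → q ⊆ A → q ⊆ B := by
    intro A B hAB hq x hx
    have : x ∈ B ∪ p := by
      rw [← hAB]
      exact mem_union_left _ (hq hx)
    rcases mem_union.1 this with h' | h'
    · exact h'
    · exact absurd h' (Finset.disjoint_left.1 hqp hx)
  exact ⟨key S S' hS, key S' S hS.symm⟩

theorem FM_congr (h : Sys F G P) {rk : Finset α → ℕ} {k p S S' : Finset α} (hp : p ∈ P)
    (_hS : ¬ p ⊆ S) (hS' : ¬ p ⊆ S') (hSS : S ∪ p = S' ∪ p) : FM P rk k S p → FM P rk k S' p := by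
  rintro ⟨h1, _, h3⟩
  refine ⟨h1, hS', ?_⟩
  intro q' hq' hqS
  by_cases hqp : q' = p
  · rw [hqp]
  · have hd : Disjoint q' p := h.disj q' (mem_filter.1 hq').1 p hp hqp
    exact h3 q' hq' (fun hc => hqS ((sub_iff_of_union hd hSS).1 hc))

/-- the uncharged members are determined by `S ∪ p` -/
theorem D1_le (h : Sys F G P) (rk : Finset α → ℕ) {p : Finset α} (hp : p ∈ P) {y : α} :
    ((D1 F P p).filter (fun S => y ∉ S)).card ≤ (Chg F G P rk p y).card + (im F P p).card := by
  set W := ((D1 F P p).filter (fun S => y ∉ S)) \ Chg F G P rk p y with hW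
  have key : ∀ S ∈ W, ∀ S' ∈ W, S ∪ p = S' ∪ p → S ⊆ S' := by
    intro S hS S' hS' hSS z hz
    rw [hW, mem_sdiff, mem_filter] at hS hS'
    have hSD := hS.1.1
    have hSD' := hS'.1.1
    simp only [D1, F', mem_filter] at hSD hSD'
    by_cases hzp : z ∈ p
    · obtain ⟨k, hk, hzk, hkS⟩ := h.gen S hSD.1.1 z hz
      have hpk : ¬ p ⊆ k := fun hc => hSD.2.1 (hc.trans hkS)
      have hdk : ¬ Disjoint p k := not_disjoint_iff.2 ⟨z, hzp, hzk⟩
      have hkh : k ∈ hubs G P := by
        simp only [hubs, mem_filter]
        exact ⟨hk, p, hp, hdk, hpk⟩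
      by_contra hzS'
      have hkS' : ¬ k ⊆ S' := fun hc => hzS' (hc hzk)
      have hkc : k ⊆ S' ∪ p := by
        rw [← hSS]
        exact hkS.trans subset_union_left
      have hyk : y ∉ k := fun hc => hS.1.2 (hkS hc)
      -- from S' uncharged
      have h1 : FM P rk k S' p := by
        by_contra hcon
        apply hS'.2
        unfold Chg
        rw [mem_filter]
        exact ⟨hS'.1.1, hS'.1.2, Or.inr ⟨k, hkh, hkc, hkS', hyk, hcon⟩⟩
      have h2 : FM P rk k S p := FM_congr h hp hSD'.2.1 hSD.2.1 hSS.symm h1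
      apply hS.2
      unfold Chg
      rw [mem_filter]
      exact ⟨hS.1.1, hS.1.2, Or.inl ⟨k, hkh, hkS, h2⟩⟩
    · have : z ∈ S' ∪ p := by
        rw [← hSS]
        exact mem_union_left _ hz
      rcases mem_union.1 this with h' | h'
      · exact h'
      · exact absurd h' hzp
  have h1 : W.card ≤ (im F P p).card := by
    apply card_le_card_of_injOn (fun S => S ∪ p)
    · intro S hS
      have hS' := mem_coe.1 hS
      rw [hW, mem_sdiff, mem_filter] at hS'
      exact mem_coe.2 (mem_image_of_mem _ hS'.1.1)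
    · intro S hS T hT hST
      exact subset_antisymm (key S (mem_coe.1 hS) T (mem_coe.1 hT) hST)
        (key T (mem_coe.1 hT) S (mem_coe.1 hS) hST.symm)
  have h2 : ((D1 F P p).filter (fun S => y ∉ S)).card ≤ (Chg F G P rk p y).card + W.card := by
    calc _ ≤ (Chg F G P rk p y ∪ W).card := by
          apply card_le_card
          intro S hS
          by_cases hc : S ∈ Chg F G P rk p y
          · exact mem_union_left _ hc
          · exact mem_union_right _ (by rw [hW, mem_sdiff]; exact ⟨hS, hc⟩)
      _ ≤ _ := card_union_le _ _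
  omega

/-- the basic inequality at `p` -/
theorem eta_le (h : Sys F G P) (rk : Finset α → ℕ) {p : Finset α} (hp : p ∈ P) {y : α} (hy : y ∈ p)
    (H : 2 * (F.filter (fun S => y ∈ S)).card ≤ F.card) :
    nn F p y + (UU F P p).card ≤ (D0 F P p).card + (Chg F G P rk p y).card := by
  have h1 := claimy h hp hy H
  have h2 := D1_le h rk hp (y := y)
  have h3 := E_card (F := F) (P := P) p
  have h4 : ((D0 F P p).filter (fun S => y ∉ S)).card ≤ (D0 F P p).card :=
    card_le_card (filter_subset _ _)
  omega

end Pool.Agent.N435
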