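import Pool.Agent.N435.Lin

/-!
# The supply of one hub
-/

set_option autoImplicit false
set_option linter.unusedSectionVars false

namespace Pool.Agent.N435

open Finset
open scoped Classical

variable {α : Type*} [DecidableEq α] {F G P : Finset (Finset α)}

/-- Exchange: the members counted for `q` which contain `a` and lie in the image of `S ↦ S ∪ a`. -/
theorem exchange (h : Sys F G P) {rk : Finset α → ℕ} {Q : Finset (Finset α)} {a q : Finset α}
    {x : α} (ha : a ∈ P) (hQ : Q ⊆ P) (hq : q ∈ Q) (haQ : a ∉ Q) (hlt : ∀ b ∈ Q, rk a < rk b)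
    (hx : x ∈ q) :
    2 * (AA F P (insert a Q) rk q x).card ≤ (AA F P Q rk q x).card +
      ((AA F P (insert a Q) rk q x) ∩ UU F P a).card := by
  set A1 := AA F P (insert a Q) rk q x with hA1
  set A0 := AA F P Q rk q x with hA0
  have hqa : q ≠ a := by
    rintro rfl
    exact haQ hq
  have hsub : A1 ⊆ A0 := by
    intro S hS
    simp only [hA1, hA0, AA, mem_filter] at hS ⊢
    exact ⟨hS.1, hS.2.1, hS.2.2.1, fun q' hq' hr => hS.2.2.2 q' (mem_insert_of_mem hq') hr⟩
  have haS : ∀ S ∈ A1, a ⊆ S := by
    intro S hS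
    simp only [hA1, AA, mem_filter] at hS
    exact hS.2.2.2 a (mem_insert_self _ _) (hlt q hq)
  -- injection from `A1 \ UU` into `A0 \ A1`
  have hpre : ∀ S ∈ A1 \ UU F P a, ∃ S1 ∈ A0 \ A1, S1 ∪ a = S := by
    intro S hS
    rw [mem_sdiff] at hS
    have hSa := haS S hS.1
    have hSF : S ∈ F' F P := by
      have := hS.1
      simp only [hA1, AA, mem_filter] at this
      exact this.1
    have him : S ∈ im F P a := by
      by_contra hcon
      apply hS.2
      unfold UU
      rw [mem_sdiff]
      refine ⟨?_, hcon⟩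
      simp only [E, mem_filter]
      exact ⟨hSF, hSa⟩
    obtain ⟨S1, hS1, hS1e⟩ := mem_image.1 him
    simp only [D1, mem_filter] at hS1
    refine ⟨S1, ?_, hS1e⟩
    have hS' := hS.1
    simp only [hA1, AA, mem_filter] at hS'
    have hS1S : S1 ⊆ S := by
      rw [← hS1e]
      exact subset_union_left
    rw [mem_sdiff]
    constructor
    · simp only [hA0, AA, mem_filter]
      refine ⟨hS1.1, ?_, fun hc => hS'.2.2.1 (hc.trans hS1S), ?_⟩
      · have : x ∈ S1 ∪ a := by
          rw [hS1e]
          exact hS'.2.1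
        rcases mem_union.1 this with h' | h'
        · exact h'
        · exact absurd h' (Finset.disjoint_left.1 (h.disj q (hQ hq) a ha hqa) hx)
      · intro q' hq' hr
        have hq'S := hS'.2.2.2 q' (mem_insert_of_mem hq') hr
        have hqa' : q' ≠ a := by
          rintro rfl
          exact haQ hq'
        intro z hz
        have : z ∈ S1 ∪ a := by
          rw [hS1e]
          exact hq'S hz
        rcases mem_union.1 this with h' | h'
        · exact h'
        · exact absurd h' (Finset.disjoint_left.1 (h.disj q' (hQ hq') a ha hqa') hz)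
    · intro hc
      exact hS1.2.1 (haS S1 hc)
  have hcard : (A1 \ UU F P a).card ≤ (A0 \ A1).card := by
    choose! f hf using hpre
    apply card_le_card_of_injOn f
    · intro S hS
      exact mem_coe.2 (hf S (mem_coe.1 hS)).1
    · intro S hS T hT hST
      rw [← (hf S (mem_coe.1 hS)).2, ← (hf T (mem_coe.1 hT)).2, hST]
  have e1 := card_sdiff_add_card_eq_card hsub
  have e2 : (A1 \ UU F P a).card + (A1 ∩ UU F P a).card = A1.card :=
    card_sdiff_add_card_inter A1 (UU F P a)
  omega

/-- the members counted for different `q` are different -/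
theorem AA_disjoint {rk : Finset α → ℕ} {Q : Finset (Finset α)} {q q' : Finset α} {x x' : α}
    (hq : q ∈ Q) (hq' : q' ∈ Q) (hne : rk q ≠ rk q') :
    Disjoint (AA F P Q rk q x) (AA F P Q rk q' x') := by
  rw [Finset.disjoint_left]
  intro S h1 h2
  simp only [AA, mem_filter] at h1 h2
  rcases lt_or_gt_of_ne hne with h | h
  · exact h1.2.2.1 (h2.2.2.2 q hq h)
  · exact h2.2.2.1 (h1.2.2.2 q' hq' h)

/-- the supply of a hub is less than two -/
theorem supply (h : Sys F G P) {rk : Finset α → ℕ} {η : Finset α → ℝ} {x : Finset α → α}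
    (hinj : Set.InjOn rk (P : Set (Finset α)))
    (hη : ∀ p ∈ P, 0 < η p) (hmono : ∀ p ∈ P, ∀ q ∈ P, rk p < rk q → η p ≤ η q)
    (hnn : ∀ p ∈ P, ∀ y ∈ p, (nn F p y : ℝ) + ((UU F P p).card : ℝ) ≤ η p)
    (Q : Finset (Finset α)) (hQ : Q ⊆ P) (hx : ∀ q ∈ Q, x q ∈ q) :
    ∑ q ∈ Q, ((AA F P Q rk q (x q)).card : ℝ) / η q < 2 := by
  revert hQ hx
  refine Finset.induction_on_min_value
    (motive := fun Q => Q ⊆ P → (∀ q ∈ Q, x q ∈ q) →
      ∑ q ∈ Q, ((AA F P Q rk q (x q)).card : ℝ) / η q < 2) rk Q ?_ ?_
  · intro _ _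
    simp
  · intro a s has hmin ih hQ hx
    have hsP : s ⊆ P := fun q hq => hQ (mem_insert_of_mem hq)
    have haP : a ∈ P := hQ (mem_insert_self _ _)
    have IH := ih hsP (fun q hq => hx q (mem_insert_of_mem hq))
    have hlt : ∀ b ∈ s, rk a < rk b := by
      intro b hb
      refine lt_of_le_of_ne (hmin b hb) ?_
      intro hab
      have := hinj (mem_coe.2 haP) (mem_coe.2 (hsP hb)) hab
      exact has (this ▸ hb)
    have hηa := hη a haP
    rw [sum_insert has]
    -- the term of `a`
    have t1 : ((AA F P (insert a s) rk a (x a)).card : ℝ) ≤ nn F a (x a) := by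
      have : AA F P (insert a s) rk a (x a) ⊆ F.filter (fun S => x a ∈ S ∧ ¬ a ⊆ S) := by
        intro S hS
        simp only [AA, F', mem_filter] at hS ⊢
        exact ⟨hS.1.1, hS.2.1, hS.2.2.1⟩
      exact_mod_cast card_le_card this
    have t2 := hnn a haP (x a) (hx a (mem_insert_self _ _))
    -- the other terms
    have t3 : ∑ q ∈ s, ((AA F P (insert a s) rk q (x q)).card : ℝ) / η q ≤
        1 / 2 * ∑ q ∈ s, ((AA F P s rk q (x q)).card : ℝ) / η q +
        1 / 2 * ((UU F P a).card : ℝ) / η a := by
      have u1 : ∀ q ∈ s, ((AA F P (insert a s) rk q (x q)).card : ℝ) / η q ≤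
          1 / 2 * (((AA F P s rk q (x q)).card : ℝ) / η q) +
          1 / 2 * ((((AA F P (insert a s) rk q (x q)) ∩ UU F P a).card : ℝ) / η a) := by
        intro q hq
        have hηq := hη q (hsP hq)
        have e := exchange h haP hsP hq has hlt (hx q (mem_insert_of_mem hq))
        have e' : (2 : ℝ) * ((AA F P (insert a s) rk q (x q)).card : ℝ) ≤
            ((AA F P s rk q (x q)).card : ℝ) +
              (((AA F P (insert a s) rk q (x q)) ∩ UU F P a).card : ℝ) := by exact_mod_cast e
        have v1 : ((AA F P (insert a s) rk q (x q)).card : ℝ) / η q ≤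
            (1 / 2 * ((AA F P s rk q (x q)).card : ℝ) +
              1 / 2 * (((AA F P (insert a s) rk q (x q)) ∩ UU F P a).card : ℝ)) / η q := by
          apply div_le_div_of_nonneg_right _ hηq.le
          linarith
        have v2 : (((AA F P (insert a s) rk q (x q)) ∩ UU F P a).card : ℝ) / η q ≤
            (((AA F P (insert a s) rk q (x q)) ∩ UU F P a).card : ℝ) / η a :=
          div_le_div_of_nonneg_left (by positivity) hηa (hmono a haP q (hsP hq) (hlt q hq))
        calc _ ≤ _ := v1
          _ = 1 / 2 * (((AA F P s rk q (x q)).card : ℝ) / η q) +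
              1 / 2 * ((((AA F P (insert a s) rk q (x q)) ∩ UU F P a).card : ℝ) / η q) := by ring
          _ ≤ _ := by linarith
      refine (sum_le_sum u1).trans ?_
      rw [sum_add_distrib, ← mul_sum, ← mul_sum, ← sum_div]
      have u2 : ∑ q ∈ s, (((AA F P (insert a s) rk q (x q)) ∩ UU F P a).card : ℝ) ≤
          ((UU F P a).card : ℝ) := by
        have : ∑ q ∈ s, ((AA F P (insert a s) rk q (x q)) ∩ UU F P a).card ≤ (UU F P a).card := by
          rw [← card_biUnion]
          · apply card_le_card
            intro S hS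
            obtain ⟨q, _, hq⟩ := mem_biUnion.1 hS
            exact (mem_inter.1 hq).2
          · intro q hq q' hq' hqq
            have hr : rk q ≠ rk q' := by
              intro hr
              exact hqq (hinj (mem_coe.2 (hsP hq)) (mem_coe.2 (hsP hq')) hr)
            exact (AA_disjoint (mem_insert_of_mem hq) (mem_insert_of_mem hq') hr).mono
              inter_subset_left inter_subset_left
        exact_mod_cast this
      have u3 : (∑ q ∈ s, (((AA F P (insert a s) rk q (x q)) ∩ UU F P a).card : ℝ)) / η a ≤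
          ((UU F P a).card : ℝ) / η a := div_le_div_of_nonneg_right u2 hηa.le
      have u4 : 1 / 2 * ((UU F P a).card : ℝ) / η a = 1 / 2 * (((UU F P a).card : ℝ) / η a) := by
        ring
      rw [u4]
      linarith
    have t4 : ((AA F P (insert a s) rk a (x a)).card : ℝ) / η a +
        1 / 2 * ((UU F P a).card : ℝ) / η a ≤ 1 := by
      rw [← add_div, div_le_one hηa]
      have : (0 : ℝ) ≤ ((UU F P a).card : ℝ) := by positivity
      linarith
    linarith

end Pool.Agent.N435
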