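import Pool.Agent.N435.Lin2

/-!
# The linear bound
-/

set_option autoImplicit false
set_option linter.unusedSectionVars false

namespace Pool.Agent.N435

open Finset
open scoped Classical

variable {α : Type*} [DecidableEq α] {F G P : Finset (Finset α)}

/-- the relation between a charged member and the hub paying for it -/
def Rel (P : Finset (Finset α)) (rk : Finset α → ℕ) (k S p : Finset α) : Prop :=
  (k ⊆ S ∧ FM P rk k S p) ∨ (¬ k ⊆ S ∧ k ⊆ S ∪ p)

theorem Rel_unique (h : Sys F G P) {rk : Finset α → ℕ} (hinj : Set.InjOn rk (P : Set (Finset α)))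
    {k S p p' : Finset α} (hp : p ∈ P) (hp' : p' ∈ P) (h1 : Rel P rk k S p)
    (h2 : Rel P rk k S p') : p = p' := by
  rcases h1 with ⟨a1, a2⟩ | ⟨a1, a2⟩ <;> rcases h2 with ⟨b1, b2⟩ | ⟨b1, b2⟩
  · exact hinj (mem_coe.2 hp) (mem_coe.2 hp')
      (le_antisymm (a2.2.2 p' b2.1 b2.2.1) (b2.2.2 p a2.1 a2.2.1))
  · exact absurd a1 b1
  · exact absurd b1 a1
  · obtain ⟨z, hzk, hzS⟩ := not_subset.1 a1
    have z1 : z ∈ p := by
      rcases mem_union.1 (a2 hzk) with h' | h'
      · exact absurd h' hzS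
      · exact h'
    have z2 : z ∈ p' := by
      rcases mem_union.1 (b2 hzk) with h' | h'
      · exact absurd h' hzS
      · exact h'
    by_contra hne
    exact Finset.disjoint_left.1 (h.disj p hp p' hp' hne) z1 z2

theorem mem_AA_of_FM {rk : Finset α → ℕ} {k S q : Finset α} {x : α} (hS : S ∈ F' F P)
    (hq : FM P rk k S q) (hx : x ∈ S) : S ∈ AA F P (tch P k) rk q x := by
  simp only [AA, mem_filter]
  refine ⟨hS, hx, hq.2.1, ?_⟩
  intro q' hq' hr
  by_contra hcon
  exact absurd (hq.2.2 q' hq' hcon) (not_le.2 hr)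

/-- every charged member is paid by a hub -/
theorem payer (h : Sys F G P) {rk : Finset α → ℕ} {η : Finset α → ℝ}
    (hinj : Set.InjOn rk (P : Set (Finset α)))
    (hmono : ∀ p ∈ P, ∀ q ∈ P, rk p < rk q → η p ≤ η q)
    {x : Finset α → Finset α → α} (hx : ∀ k ∈ hubs G P, ∀ q ∈ tch P k, x k q ∈ q ∧ x k q ∈ k)
    {p : Finset α} (hp : p ∈ P) {y : α} (hy : y ∈ p) {S : Finset α}
    (hS : S ∈ D0 F P p ∪ Chg F G P rk p y) :
    ∃ k ∈ hubs G P, ∃ q ∈ tch P k, S ∈ AA F P (tch P k) rk q (x k q) ∧ η q ≤ η p ∧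
      Rel P rk k S p := by
  rcases mem_union.1 hS with hS | hS
  · -- `D0`
    simp only [D0, mem_filter] at hS
    have hSF' := hS.1
    have hSF : S ∈ F := (mem_filter.1 hS.1).1
    have key : ∀ q ∈ P, (¬ Disjoint q S ∧ ¬ q ⊆ S) → q = p := by
      intro q hq hqS
      by_contra hne
      apply hS.2.2
      simp only [F', mem_filter]
      refine ⟨h.uc _ hSF _ (h.gf (h.pg hp)), q, hq, ?_⟩
      exact (meets_union h.disj hp hq hne).2 hqS
    obtain ⟨r, hr, hr'⟩ := (mem_filter.1 hSF').2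
    have hrp := key r hr hr'
    subst hrp
    obtain ⟨z, hzp, hzS⟩ := not_disjoint_iff.1 hr'.1
    obtain ⟨k, hk, hzk, hkS⟩ := h.gen S hSF z hzS
    have hdk : ¬ Disjoint r k := not_disjoint_iff.2 ⟨z, hzp, hzk⟩
    have hrk : ¬ r ⊆ k := fun hc => hr'.2 (hc.trans hkS)
    have hkh : k ∈ hubs G P := by
      simp only [hubs, mem_filter]
      exact ⟨hk, r, hr, hdk, hrk⟩
    have hrt : r ∈ tch P k := mem_filter.2 ⟨hr, hdk, hrk⟩
    have hFM : FM P rk k S r := by
      refine ⟨hrt, hr'.2, ?_⟩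
      intro q' hq' hqS
      have hq2 := mem_filter.1 hq'
      have : q' = r := by
        apply key q' hq2.1
        refine ⟨?_, hqS⟩
        intro hd
        exact hq2.2.1 (hd.mono_right hkS)
      rw [this]
    exact ⟨k, hkh, r, hrt, mem_AA_of_FM hSF' hFM (hkS (hx k hkh r hrt).2), le_rfl,
      Or.inl ⟨hkS, hFM⟩⟩
  · unfold Chg at hS
    rw [mem_filter] at hS
    obtain ⟨hSD, hyS, hor⟩ := hS
    simp only [D1, mem_filter] at hSD
    have hSF' := hSD.1
    rcases hor with ⟨k, hkh, hkS, hFM⟩ | ⟨k, hkh, hkc, hkS, hyk, hFM⟩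
    · exact ⟨k, hkh, p, hFM.1, mem_AA_of_FM hSF' hFM (hkS (hx k hkh p hFM.1).2), le_rfl,
        Or.inl ⟨hkS, hFM⟩⟩
    · -- a low hub
      obtain ⟨z, hzk, hzS⟩ := not_subset.1 hkS
      have hzp : z ∈ p := by
        rcases mem_union.1 (hkc hzk) with h' | h'
        · exact absurd h' hzS
        · exact h'
      have hpt : p ∈ tch P k :=
        mem_filter.2 ⟨hp, not_disjoint_iff.2 ⟨z, hzp, hzk⟩, fun hc => hyk (hc hy)⟩
      obtain ⟨q, hq, hmin⟩ := exists_min_image ((tch P k).filter (fun q => ¬ q ⊆ S)) rk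
        ⟨p, mem_filter.2 ⟨hpt, hSD.2.1⟩⟩
      rw [mem_filter] at hq
      have hqFM : FM P rk k S q :=
        ⟨hq.1, hq.2, fun q' hq' hqS => hmin q' (mem_filter.2 ⟨hq', hqS⟩)⟩
      have hqP : q ∈ P := (mem_filter.1 hq.1).1
      have hqp : q ≠ p := by
        rintro rfl
        exact hFM hqFM
      have hle : rk q ≤ rk p := hmin p (mem_filter.2 ⟨hpt, hSD.2.1⟩)
      have hlt : rk q < rk p := by
        refine lt_of_le_of_ne hle ?_
        intro he
        exact hqp (hinj (mem_coe.2 hqP) (mem_coe.2 hp) he)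
      have hxq := hx k hkh q hq.1
      have hxS : x k q ∈ S := by
        rcases mem_union.1 (hkc hxq.2) with h' | h'
        · exact h'
        · exact absurd h' (Finset.disjoint_left.1 (h.disj q hqP p hp hqp) hxq.1)
      exact ⟨k, hkh, q, hq.1, mem_AA_of_FM hSF' hqFM hxS, hmono q hqP p hp hlt,
        Or.inr ⟨hkS, hkc⟩⟩

/-- the total charge is at most the total supply -/
theorem total (h : Sys F G P) {rk : Finset α → ℕ} {η : Finset α → ℝ}
    (hinj : Set.InjOn rk (P : Set (Finset α))) (hη : ∀ p ∈ P, 0 < η p)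
    (hmono : ∀ p ∈ P, ∀ q ∈ P, rk p < rk q → η p ≤ η q)
    {x : Finset α → Finset α → α} (hx : ∀ k ∈ hubs G P, ∀ q ∈ tch P k, x k q ∈ q ∧ x k q ∈ k)
    {y : Finset α → α} (hy : ∀ p ∈ P, y p ∈ p) :
    ∑ p ∈ P, ((D0 F P p ∪ Chg F G P rk p (y p)).card : ℝ) / η p ≤
      ∑ k ∈ hubs G P, ∑ q ∈ tch P k, ((AA F P (tch P k) rk q (x k q)).card : ℝ) / η q := by
  set T : Finset (Σ _ : Finset α, Finset α) :=
    P.sigma (fun p => D0 F P p ∪ Chg F G P rk p (y p)) with hT
  set U : Finset (Σ _ : Finset α, Σ _ : Finset α, Finset α) :=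
    (hubs G P).sigma (fun k => (tch P k).sigma (fun q => AA F P (tch P k) rk q (x k q))) with hU
  have eT : ∑ p ∈ P, ((D0 F P p ∪ Chg F G P rk p (y p)).card : ℝ) / η p =
      ∑ u ∈ T, 1 / η u.1 := by
    rw [hT, sum_sigma]
    apply sum_congr rfl
    intro p _
    dsimp only
    rw [sum_const, nsmul_eq_mul]
    ring
  have eU : ∑ k ∈ hubs G P, ∑ q ∈ tch P k, ((AA F P (tch P k) rk q (x k q)).card : ℝ) / η q =
      ∑ u ∈ U, 1 / η u.2.1 := by
    rw [hU, sum_sigma]
    apply sum_congr rfl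
    intro k _
    rw [sum_sigma]
    apply sum_congr rfl
    intro q _
    dsimp only
    rw [sum_const, nsmul_eq_mul]
    ring
  rw [eT, eU]
  have hpay : ∀ u ∈ T, ∃ v ∈ U, v.2.2 = u.2 ∧ η v.2.1 ≤ η u.1 ∧ Rel P rk v.1 u.2 u.1 := by
    intro u hu
    rw [hT, mem_sigma] at hu
    obtain ⟨k, hk, q, hq, hA, he, hR⟩ := payer h hinj hmono hx hu.1 (hy u.1 hu.1) hu.2
    refine ⟨⟨k, q, u.2⟩, ?_, rfl, he, hR⟩
    rw [hU, mem_sigma]
    refine ⟨hk, ?_⟩
    rw [mem_sigma]
    exact ⟨hq, hA⟩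
  rcases T.eq_empty_or_nonempty with h0 | h0
  · rw [h0, sum_empty]
    apply sum_nonneg
    intro v hv
    rw [hU, mem_sigma, mem_sigma] at hv
    have := hη v.2.1 (mem_filter.1 hv.2.1).1
    positivity
  have : Nonempty (Σ _ : Finset α, Σ _ : Finset α, Finset α) := ⟨⟨∅, ∅, ∅⟩⟩
  choose! f hf using hpay
  calc ∑ u ∈ T, 1 / η u.1 ≤ ∑ u ∈ T, 1 / η (f u).2.1 := by
        apply sum_le_sum
        intro u hu
        obtain ⟨hfU, _, he, _⟩ := hf u hu
        rw [hU, mem_sigma, mem_sigma] at hfU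
        exact one_div_le_one_div_of_le (hη _ (mem_filter.1 hfU.2.1).1) he
    _ = ∑ v ∈ T.image f, 1 / η v.2.1 := by
        rw [sum_image]
        intro u hu v hv huv
        obtain ⟨_, a1, _, a2⟩ := hf u (mem_coe.1 hu)
        obtain ⟨_, b1, _, b2⟩ := hf v (mem_coe.1 hv)
        have e1 : u.2 = v.2 := by rw [← a1, ← b1, huv]
        have hu' := (mem_sigma.1 (hT ▸ mem_coe.1 hu)).1
        have hv' := (mem_sigma.1 (hT ▸ mem_coe.1 hv)).1
        have e2 : u.1 = v.1 := by
          apply Rel_unique h hinj hu' hv' a2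
          rw [huv, e1]
          exact b2
        obtain ⟨u1, u2⟩ := u
        obtain ⟨v1, v2⟩ := v
        simp only at e1 e2
        subst e1
        subst e2
        rfl
    _ ≤ ∑ v ∈ U, 1 / η v.2.1 := by
        apply sum_le_sum_of_subset_of_nonneg
        · intro v hv
          obtain ⟨u, hu, rfl⟩ := mem_image.1 hv
          exact (hf u hu).1
        · intro v hv _
          rw [hU, mem_sigma, mem_sigma] at hv
          have := hη v.2.1 (mem_filter.1 hv.2.1).1
          positivity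

/-- If the elements of the `p ∈ P` lie in at most half of the members and each `p ∈ P` is met
partially by some generator, then `|P| < 2 r`, `r` the number of the hubs. -/
theorem card_lt_two_mul (h : Sys F G P)
    (H : ∀ p ∈ P, ∀ y ∈ p, 2 * (F.filter (fun S => y ∈ S)).card ≤ F.card)
    (ht : ∀ p ∈ P, ∃ k ∈ G, ¬ Disjoint p k ∧ ¬ p ⊆ k) (hne : P.Nonempty) :
    P.card < 2 * (hubs G P).card := by
  obtain ⟨p0, hp0⟩ := hne
  obtain ⟨y0, _⟩ := h.ne p0 hp0
  have : Nonempty α := ⟨y0⟩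
  -- the maximising elements
  have hmax : ∀ p ∈ P, ∃ y ∈ p, ∀ z ∈ p, nn F p z ≤ nn F p y := fun p hp =>
    exists_max_image p (nn F p) (h.ne p hp)
  choose! y hyp hyz using hmax
  set ηN : Finset α → ℕ := fun p => nn F p (y p) + (UU F P p).card with hηN
  -- rank
  set idx : Finset α → ℕ := fun p => if hp : p ∈ P then (P.equivFin ⟨p, hp⟩ : ℕ) else 0 with hidx
  set rk : Finset α → ℕ := fun p => ηN p * P.card + idx p with hrk
  have hidx_lt : ∀ p ∈ P, idx p < P.card := by
    intro p hp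
    rw [hidx]
    simp only [hp, dif_pos]
    exact (P.equivFin ⟨p, hp⟩).2
  have hidx_inj : ∀ p ∈ P, ∀ q ∈ P, idx p = idx q → p = q := by
    intro p hp q hq hpq
    rw [hidx] at hpq
    simp only [hp, hq, dif_pos] at hpq
    have := P.equivFin.injective (Fin.ext hpq)
    exact congrArg Subtype.val this
  have hPc : 0 < P.card := card_pos.2 ⟨p0, hp0⟩
  have hinj : Set.InjOn rk (P : Set (Finset α)) := by
    intro p hp q hq hpq
    have hp' := mem_coe.1 hp
    have hq' := mem_coe.1 hq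
    apply hidx_inj p hp' q hq'
    have e1 : rk p % P.card = idx p := by
      rw [hrk]
      simp only
      rw [Nat.mul_comm, Nat.mul_add_mod, Nat.mod_eq_of_lt (hidx_lt p hp')]
    have e2 : rk q % P.card = idx q := by
      rw [hrk]
      simp only
      rw [Nat.mul_comm, Nat.mul_add_mod, Nat.mod_eq_of_lt (hidx_lt q hq')]
    rw [← e1, ← e2, hpq]
  have hmonoN : ∀ p ∈ P, ∀ q ∈ P, rk p < rk q → ηN p ≤ ηN q := by
    intro p hp q hq hlt
    by_contra hcon
    push Not at hcon
    have h1 : (ηN q + 1) * P.card ≤ ηN p * P.card := Nat.mul_le_mul_right _ hcon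
    have h2 := hidx_lt q hq
    simp only [hrk] at hlt
    have e : (ηN q + 1) * P.card = ηN q * P.card + P.card := by ring
    omega
  set η : Finset α → ℝ := fun p => (ηN p : ℝ) with hη
  have hpos : ∀ p ∈ P, 0 < η p := by
    intro p hp
    obtain ⟨k, hk, hk1, hk2⟩ := ht p hp
    obtain ⟨z, hzp, hzk⟩ := not_disjoint_iff.1 hk1
    have h1 : 0 < nn F p z := by
      unfold nn
      exact card_pos.2 ⟨k, mem_filter.2 ⟨h.gf hk, hzk, hk2⟩⟩
    have h2 := hyz p hp z hzp
    have h3 : 0 < ηN p := by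
      rw [hηN]
      simp only
      omega
    rw [hη]
    simp only
    exact_mod_cast h3
  have hmono : ∀ p ∈ P, ∀ q ∈ P, rk p < rk q → η p ≤ η q := by
    intro p hp q hq hlt
    rw [hη]
    simp only
    exact_mod_cast hmonoN p hp q hq hlt
  have hnn : ∀ p ∈ P, ∀ z ∈ p, (nn F p z : ℝ) + ((UU F P p).card : ℝ) ≤ η p := by
    intro p hp z hz
    have h2 := hyz p hp z hz
    have h3 : nn F p z + (UU F P p).card ≤ ηN p := by
      rw [hηN]
      simp only
      omega
    rw [hη]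
    simp only
    exact_mod_cast h3
  -- points of the hubs
  have hxx : ∀ k ∈ hubs G P, ∀ q ∈ tch P k, ∃ z : α, z ∈ q ∧ z ∈ k := by
    intro k _ q hq
    exact not_disjoint_iff.1 (mem_filter.1 hq).2.1
  choose! x hx using hxx
  have htot := total h hinj hpos hmono hx hyp
  -- lower bound
  have hlow : (P.card : ℝ) ≤
      ∑ p ∈ P, ((D0 F P p ∪ Chg F G P rk p (y p)).card : ℝ) / η p := by
    have : (P.card : ℝ) = ∑ p ∈ P, (1 : ℝ) := by simp
    rw [this]
    apply sum_le_sum
    intro p hp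
    rw [le_div_iff₀ (hpos p hp), one_mul]
    have h1 := eta_le h rk hp (hyp p hp) (H p hp (y p) (hyp p hp))
    have h2 : (D0 F P p ∪ Chg F G P rk p (y p)).card =
        (D0 F P p).card + (Chg F G P rk p (y p)).card := by
      apply card_union_of_disjoint
      rw [Finset.disjoint_left]
      intro S hS hS'
      simp only [D0, mem_filter] at hS
      unfold Chg at hS'
      simp only [D1, mem_filter] at hS'
      exact hS.2.2 hS'.1.2.2
    rw [h2]
    rw [hη, hηN]
    simp only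
    exact_mod_cast h1
  -- the hubs
  have hhne : (hubs G P).Nonempty := by
    obtain ⟨k, hk, hk1, hk2⟩ := ht p0 hp0
    exact ⟨k, by simp only [hubs, mem_filter]; exact ⟨hk, p0, hp0, hk1, hk2⟩⟩
  have hup : ∑ k ∈ hubs G P, ∑ q ∈ tch P k,
      ((AA F P (tch P k) rk q (x k q)).card : ℝ) / η q < ∑ k ∈ hubs G P, (2 : ℝ) := by
    apply sum_lt_sum_of_nonempty hhne
    intro k hk
    exact supply h hinj hpos hmono hnn (tch P k) (filter_subset _ _)
      (fun q hq => (hx k hk q hq).1)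
  rw [sum_const, nsmul_eq_mul] at hup
  have hfin : (P.card : ℝ) < (hubs G P).card * 2 := by linarith
  have hfin' : P.card < (hubs G P).card * 2 := by exact_mod_cast hfin
  omega

/-- If the number of the hubs is at most half of `|P|` and the elements of the sets `p ∈ P` lie in at
most half of the members, some `p ∈ P` is met partially by no generator. -/
theorem exists_untouched_lin (h : Sys F G P)
    (H : ∀ p ∈ P, ∀ y ∈ p, 2 * (F.filter (fun S => y ∈ S)).card ≤ F.card) (hne : P.Nonempty)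
    (hP : 2 * (hubs G P).card ≤ P.card) :
    ∃ p ∈ P, ∀ q ∈ G, Disjoint p q ∨ p ⊆ q := by
  by_contra hcon
  push Not at hcon
  have h1 := card_lt_two_mul h H (fun p hp => by
    obtain ⟨q, hq, h1, h2⟩ := hcon p hp
    exact ⟨q, hq, h1, h2⟩) hne
  omega

end Pool.Agent.N435
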