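import Pool.Agent.N435.Match

/-!
# Main theorems on dense union-closed families
-/

set_option autoImplicit false
set_option linter.unusedSectionVars false

namespace Pool.Agent.N435

open Finset Real
open scoped Classical

variable {α : Type*} [DecidableEq α]

theorem t_le {F g t : ℕ} {D : ℝ} (h1 : (F : ℝ) ^ 2 * (4 / 3) ^ t ≤ (2 ^ g) ^ 2)
    (h2 : (2 : ℝ) ^ ((g : ℝ) - D) ≤ F) : (t : ℝ) ≤ 5 * D := by
  have h3 : ((2 : ℝ) ^ ((g : ℝ) - D)) ^ 2 ≤ (F : ℝ) ^ 2 :=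
    pow_le_pow_left₀ (by positivity) h2 2
  have h4 : ((2 : ℝ) ^ ((g : ℝ) - D)) ^ 2 * (4 / 3) ^ t ≤ (2 ^ g) ^ 2 :=
    (mul_le_mul_of_nonneg_right h3 (by positivity)).trans h1
  have h5 : (2 : ℝ) ^ ((g : ℝ) - D) = 2 ^ g / 2 ^ D := by
    rw [Real.rpow_sub (by norm_num), Real.rpow_natCast]
  rw [h5, div_pow, div_mul_eq_mul_div, div_le_iff₀ (by positivity)] at h4
  have h6 : ((4 : ℝ) / 3) ^ t ≤ (2 ^ D) ^ 2 := by
    have hp : (0 : ℝ) < (2 ^ g) ^ 2 := by positivity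
    exact le_of_mul_le_mul_left h4 hp
  -- take logarithms
  have h7 := Real.log_le_log (by positivity) h6
  rw [Real.log_pow, Real.log_pow, Real.log_rpow (by norm_num)] at h7
  have h8 : 2 * Real.log 2 ≤ 5 * Real.log (4 / 3) := by
    have : Real.log ((2 : ℝ) ^ 2) ≤ Real.log ((4 / 3 : ℝ) ^ 5) :=
      Real.log_le_log (by norm_num) (by norm_num)
    rw [Real.log_pow, Real.log_pow] at this
    exact_mod_cast this
  have h9 : 0 < Real.log 2 := Real.log_pos (by norm_num)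
  have h10 : (t : ℝ) * (2 * Real.log 2) ≤ t * (5 * Real.log (4 / 3)) :=
    mul_le_mul_of_nonneg_left h8 (by positivity)
  have h11 : (t : ℝ) * (2 * Real.log 2) ≤ 5 * D * (2 * Real.log 2) := by
    push_cast at h7
    nlinarith
  exact le_of_mul_le_mul_right h11 (by positivity)

/-- the numerical step -/
theorem numeric {t g1 : ℕ} (h2t : 2 * t ≤ g1) (hg : 0 < g1)
    (ht : (t : ℝ) ≤ 5 * ((g1 : ℝ) / (16 * Real.logb 2 g1) ^ 2)) :
    ∃ A : ℕ, 4 ≤ A ∧ 16 * (2 * t) ^ 2 ≤ 2 ^ A ∧ 5 * A ^ 2 * (2 * t) < g1 - 2 * t := by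
  rcases Nat.eq_zero_or_pos t with h0 | hpos
  · subst h0
    exact ⟨4, le_rfl, by norm_num, by simpa using hg⟩
  set L := Nat.clog 2 (2 * t) with hL
  refine ⟨2 * L + 4, by omega, ?_, ?_⟩
  · have h1 : 2 * t ≤ 2 ^ L := Nat.le_pow_clog (by norm_num) _
    calc 16 * (2 * t) ^ 2 ≤ 16 * (2 ^ L) ^ 2 := by gcongr
      _ = 2 ^ (2 * L + 4) := by rw [pow_add, pow_mul']; ring
  · set ℓ := Real.logb 2 g1 with hℓ
    have hg2 : 2 ≤ g1 := by omega
    have hℓ1 : 1 ≤ ℓ := by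
      rw [hℓ, Real.le_logb_iff_rpow_le (by norm_num) (by exact_mod_cast hg)]
      simpa using (by exact_mod_cast hg2 : (2 : ℝ) ≤ g1)
    have h3 : 256 * ℓ ^ 2 * t ≤ 5 * g1 := by
      have hp : 0 < (16 * ℓ) ^ 2 := by positivity
      rw [← mul_div_assoc, le_div_iff₀ hp] at ht
      nlinarith
    have h16 : (16 * t : ℝ) ≤ g1 := by
      have : (256 : ℝ) * t ≤ 256 * ℓ ^ 2 * t := by
        have : (1 : ℝ) ≤ ℓ ^ 2 := by nlinarith
        nlinarith [(Nat.cast_nonneg t : (0 : ℝ) ≤ t)]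
      have hgn : (0 : ℝ) ≤ g1 := by positivity
      linarith
    have h16' : 16 * t ≤ g1 := by exact_mod_cast h16
    have hLlt : 2 ^ (L - 1) < 2 * t := by
      have := Nat.pow_pred_clog_lt_self (b := 2) (by norm_num) (x := 2 * t) (by omega)
      simpa [hL] using this
    have hL1 : 1 ≤ L := by
      rw [hL]
      exact Nat.clog_pos (by norm_num) (by omega)
    have h2L : 2 ^ (L + 2) ≤ g1 := by
      have e : 2 ^ (L + 2) = 8 * 2 ^ (L - 1) := by
        have : L + 2 = (L - 1) + 3 := by omega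
        rw [this, pow_add]; ring
      omega
    have hLℓ : (L : ℝ) + 2 ≤ ℓ := by
      rw [hℓ, Real.le_logb_iff_rpow_le (by norm_num) (by exact_mod_cast hg)]
      have : ((2 : ℝ) ^ ((L : ℝ) + 2)) = ((2 ^ (L + 2) : ℕ) : ℝ) := by
        push_cast
        rw [← Real.rpow_natCast]
        push_cast
        rfl
      rw [this]
      exact_mod_cast h2L
    have hfin : (5 : ℝ) * ((2 * L + 4 : ℕ) : ℝ) ^ 2 * (2 * t) + 2 * t < g1 := by
      push_cast
      have e : (5 : ℝ) * (2 * (L : ℝ) + 4) ^ 2 * (2 * t) = 40 * ((L : ℝ) + 2) ^ 2 * t := by ring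
      rw [e]
      have h4 : ((L : ℝ) + 2) ^ 2 ≤ ℓ ^ 2 := pow_le_pow_left₀ (by positivity) hLℓ 2
      have htp : (1 : ℝ) ≤ t := by exact_mod_cast hpos
      have h5 : (1 : ℝ) ≤ ℓ ^ 2 := by nlinarith
      have h6 : 40 * ((L : ℝ) + 2) ^ 2 * t ≤ 40 * ℓ ^ 2 * t := by gcongr
      have h7 : (2 : ℝ) * t ≤ 2 * ℓ ^ 2 * t := by nlinarith
      have hgp : (0 : ℝ) < g1 := by exact_mod_cast hg
      nlinarith
    have hfin' : 5 * (2 * L + 4) ^ 2 * (2 * t) + 2 * t < g1 := by exact_mod_cast hfin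
    omega

/-- generators disjoint from all the other ones -/
noncomputable def isol (G : Finset (Finset α)) : Finset (Finset α) :=
  G.filter (fun p => ∀ q ∈ G, q ≠ p → Disjoint p q)

/-- the generators meeting another one -/
noncomputable def nonisol (G : Finset (Finset α)) : Finset (Finset α) :=
  G.filter (fun p => ∃ q ∈ G, q ≠ p ∧ ¬ Disjoint p q)

/-- Dense families: if every element lies in at most half of the members, some generator meeting
another one is met partially by no generator. -/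
theorem dense {F G : Finset (Finset α)} (uc : ∀ S ∈ F, ∀ T ∈ F, S ∪ T ∈ F) (gf : G ⊆ F)
    (gen : ∀ S ∈ F, ∀ x ∈ S, ∃ q ∈ G, x ∈ q ∧ q ⊆ S) (ne : ∀ p ∈ G, p.Nonempty)
    (G1 : Finset (Finset α)) (hG1 : nonisol G ⊆ G1) (hG1' : G1 ⊆ G) (hne : G1.Nonempty)
    (hm : (2 : ℝ) ^ ((G.card : ℝ) - (G1.card : ℝ) / (16 * Real.logb 2 G1.card) ^ 2) ≤ F.card)
    (H : ∀ x, 2 * (F.filter (fun S => x ∈ S)).card ≤ F.card) :
    ∃ p ∈ G1, ∀ q ∈ G, Disjoint p q ∨ p ⊆ q := by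
  obtain ⟨M, hM, hdis⟩ := exists_matching G
  have hd := density gen hM H
  have ht := t_le hd hm
  have hcard := matching_card hM
  have hMG : M.biUnion id ⊆ G1 := by
    intro p hp
    obtain ⟨e, he, hpe⟩ := mem_biUnion.1 hp
    simp only [id] at hpe
    apply hG1
    obtain ⟨x, hx⟩ := hM.com e he
    obtain ⟨a, b, hab, heab⟩ := card_eq_two.1 (hM.two e he)
    simp only [nonisol, mem_filter]
    refine ⟨hM.sub e he hpe, ?_⟩
    rw [heab, mem_insert, mem_singleton] at hpe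
    have ha : a ∈ e := by rw [heab]; simp
    have hb : b ∈ e := by rw [heab]; simp
    rcases hpe with rfl | rfl
    · exact ⟨b, hM.sub e he hb, hab.symm, not_disjoint_iff.2 ⟨x, hx _ ha, hx _ hb⟩⟩
    · exact ⟨a, hM.sub e he ha, hab, not_disjoint_iff.2 ⟨x, hx _ hb, hx _ ha⟩⟩
  set P := G1 \ M.biUnion id with hP
  have hPcard : P.card = G1.card - 2 * M.card := by
    rw [hP, card_sdiff_of_subset hMG, hcard]
  have h2t : 2 * M.card ≤ G1.card := by
    rw [← hcard]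
    exact card_le_card hMG
  obtain ⟨A, hA4, hA, hAP⟩ := numeric h2t (card_pos.2 hne) ht
  have hsys : Sys F G P := by
    refine ⟨uc, gf, gen, (sdiff_subset).trans hG1', ?_, fun p hp => ne p (hG1' (sdiff_subset hp))⟩
    intro p hp q hq hpq
    rw [hP, mem_sdiff] at hp hq
    exact hdis p (mem_sdiff.2 ⟨hG1' hp.1, hp.2⟩) q (mem_sdiff.2 ⟨hG1' hq.1, hq.2⟩) hpq
  have hhubs : hubs G P ⊆ M.biUnion id := by
    intro k hk
    simp only [hubs, mem_filter] at hk
    obtain ⟨hkG, p, hp, hk1, hk2⟩ := hk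
    by_contra hcon
    rw [hP, mem_sdiff] at hp
    have hpk : p ≠ k := by
      rintro rfl
      exact hk2 Subset.rfl
    exact hk1 (hdis p (mem_sdiff.2 ⟨hG1' hp.1, hp.2⟩) k (mem_sdiff.2 ⟨hkG, hcon⟩) hpk)
  have hhc : (hubs G P).card ≤ 2 * M.card := by
    rw [← hcard]
    exact card_le_card hhubs
  obtain ⟨p, hp, hpu⟩ := exists_untouched hsys (fun p _ y _ => H y) A hA4 (by
    refine le_trans ?_ hA
    gcongr) (by
    rw [hPcard]
    refine lt_of_le_of_lt ?_ hAP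
    exact Nat.mul_le_mul_left _ hhc)
  exact ⟨p, (sdiff_subset hp), hpu⟩

end Pool.Agent.N435
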