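import Pool.Agent.N435.Hubs3

/-!
# Union-closed families with many members compared with the number of their generators
-/

set_option autoImplicit false
set_option linter.unusedSectionVars false

namespace Pool.Agent.N435

open Finset Real
open scoped Classical

variable {α : Type*} [DecidableEq α]

/-- disjoint pairs of intersecting generators -/
structure PairSys (G : Finset (Finset α)) (M : Finset (Finset (Finset α))) : Prop where
  two : ∀ e ∈ M, e.card = 2
  sub : ∀ e ∈ M, e ⊆ G
  com : ∀ e ∈ M, ∃ x, ∀ p ∈ e, x ∈ p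
  dis : ∀ e ∈ M, ∀ f ∈ M, e ≠ f → Disjoint e f

/-- number of pairs disjoint from `H` -/
noncomputable def dn (M : Finset (Finset (Finset α))) (H : Finset (Finset α)) : ℕ :=
  (M.filter (fun e => Disjoint e H)).card

theorem sum_powerset_pair {β : Type*} [DecidableEq β] (a b : β) (hab : a ≠ b) (G : Finset β)
    (ha : a ∉ G) (hb : b ∉ G) (f : Finset β → ℕ) :
    ∑ H ∈ (insert a (insert b G)).powerset, f H =
      ∑ H ∈ G.powerset, (f H + f (insert b H) + f (insert a H) + f (insert a (insert b H))) := by
  rw [sum_powerset_insert (by simp [hab, ha]), sum_powerset_insert hb, sum_powerset_insert hb,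
    ← sum_add_distrib, ← sum_add_distrib, ← sum_add_distrib]
  apply sum_congr rfl
  intro H _
  ring

theorem weight_sum (M : Finset (Finset (Finset α))) :
    ∀ G : Finset (Finset α), PairSys G M →
      (∑ H ∈ G.powerset, 3 ^ (dn M H)) * 2 ^ M.card = 3 ^ M.card * 2 ^ G.card := by
  induction M using Finset.induction_on with
  | empty =>
    intro G _
    simp [dn]
  | insert e M he ih =>
    intro G h
    have heM : e ∈ insert e M := mem_insert_self _ _
    obtain ⟨a, b, hab, heab⟩ := card_eq_two.1 (h.two e heM)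
    have hsub := h.sub e heM
    have haG : a ∈ G := hsub (by rw [heab]; simp)
    have hbG : b ∈ G := hsub (by rw [heab]; simp)
    set G1 := G \ e with hG1
    have hGe : G = insert a (insert b G1) := by
      ext x
      simp only [mem_insert, hG1, mem_sdiff, heab, mem_singleton]
      constructor
      · intro hx
        by_cases h1 : x = a
        · exact Or.inl h1
        · by_cases h2 : x = b
          · exact Or.inr (Or.inl h2)
          · exact Or.inr (Or.inr ⟨hx, by tauto⟩)
      · rintro (h1 | h1 | h1)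
        · rw [h1]; exact haG
        · rw [h1]; exact hbG
        · exact h1.1
    have ha1 : a ∉ G1 := by
      rw [hG1, mem_sdiff, heab]; simp
    have hb1 : b ∉ G1 := by
      rw [hG1, mem_sdiff, heab]; simp
    have h' : PairSys G1 M := by
      refine ⟨fun f hf => h.two f (mem_insert_of_mem hf), ?_,
        fun f hf => h.com f (mem_insert_of_mem hf),
        fun f hf g hg => h.dis f (mem_insert_of_mem hf) g (mem_insert_of_mem hg)⟩
      intro f hf x hx
      rw [hG1, mem_sdiff]
      refine ⟨h.sub f (mem_insert_of_mem hf) hx, fun hxe => ?_⟩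
      have hne : f ≠ e := by rintro rfl; exact he hf
      exact Finset.disjoint_left.1 (h.dis f (mem_insert_of_mem hf) e heM hne) hx hxe
    have IH := ih G1 h'
    have hdis : ∀ f ∈ M, Disjoint f e := by
      intro f hf
      have hne : f ≠ e := by rintro rfl; exact he hf
      exact h.dis f (mem_insert_of_mem hf) e heM hne
    -- values of dn
    have d0 : ∀ H ∈ G1.powerset, dn (insert e M) H = dn M H + 1 := by
      intro H hH
      rw [mem_powerset] at hH
      unfold dn
      have hd : Disjoint e H := by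
        rw [Finset.disjoint_right]
        intro x hx
        have := hH hx
        rw [hG1, mem_sdiff] at this
        exact this.2
      rw [filter_insert, if_pos hd, card_insert_of_notMem]
      intro hcon
      exact he (mem_filter.1 hcon).1
    have d1 : ∀ H : Finset (Finset α), ∀ J : Finset (Finset α), J ⊆ e → J.Nonempty →
        dn (insert e M) (J ∪ H) = dn M H := by
      intro H J hJ hJne
      unfold dn
      have hd : ¬ Disjoint e (J ∪ H) := by
        obtain ⟨x, hx⟩ := hJne
        rw [not_disjoint_iff]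
        exact ⟨x, hJ hx, mem_union_left _ hx⟩
      rw [filter_insert, if_neg hd]
      congr 1
      ext f
      simp only [mem_filter]
      apply and_congr_right
      intro hf
      rw [disjoint_union_right]
      constructor
      · exact fun h'' => h''.2
      · exact fun h'' => ⟨Disjoint.mono_right hJ (hdis f hf), h''⟩
    have hsum : ∑ H ∈ G.powerset, 3 ^ (dn (insert e M) H) = 6 * ∑ H ∈ G1.powerset, 3 ^ (dn M H) := by
      rw [hGe, sum_powerset_pair a b hab G1 ha1 hb1, mul_sum]
      apply sum_congr rfl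
      intro H hH
      have e0 := d0 H hH
      have e1 := d1 H {b} (by rw [heab]; simp) ⟨b, by simp⟩
      have e2 := d1 H {a} (by rw [heab]; simp) ⟨a, by simp⟩
      have e3 := d1 H {a, b} (by rw [heab]) ⟨a, by simp⟩
      have i1 : insert b H = {b} ∪ H := by rw [insert_eq]
      have i2 : insert a H = {a} ∪ H := by rw [insert_eq]
      have i3 : insert a (insert b H) = {a, b} ∪ H := by
        ext x; simp only [mem_insert, mem_union, mem_singleton]; tauto
      rw [e0, i3, i1, i2, e1, e2, e3]
      ring
    have hcardG : G.card = G1.card + 2 := by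
      rw [hGe, card_insert_of_notMem, card_insert_of_notMem hb1]
      simp [hab, ha1]
    rw [hsum, card_insert_of_notMem he, hcardG]
    calc 6 * (∑ H ∈ G1.powerset, 3 ^ (dn M H)) * 2 ^ (M.card + 1)
        = 12 * ((∑ H ∈ G1.powerset, 3 ^ (dn M H)) * 2 ^ M.card) := by ring
      _ = 12 * (3 ^ M.card * 2 ^ G1.card) := by rw [IH]
      _ = 3 ^ (M.card + 1) * 2 ^ (G1.card + 2) := by ring

/-- the generators contained in `S` -/
noncomputable def gens (G : Finset (Finset α)) (S : Finset α) : Finset (Finset α) :=
  G.filter (fun q => q ⊆ S)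

theorem exists_matching (G : Finset (Finset α)) :
    ∃ M, PairSys G M ∧ ∀ p ∈ G \ M.biUnion id, ∀ q ∈ G \ M.biUnion id, p ≠ q → Disjoint p q := by
  set X := (G.powerset.powerset).filter (fun M => PairSys G M) with hX
  have hne : X.Nonempty := by
    refine ⟨∅, ?_⟩
    rw [hX, mem_filter]
    exact ⟨by simp, ⟨by simp, by simp, by simp, by simp⟩⟩
  obtain ⟨M, hM, hmax⟩ := exists_max_image X (fun M => M.card) hne
  rw [hX, mem_filter] at hM
  refine ⟨M, hM.2, ?_⟩
  intro p hp q hq hpq
  by_contra hd
  obtain ⟨x, hxp, hxq⟩ := not_disjoint_iff.1 hd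
  rw [mem_sdiff] at hp hq
  have hnot : ∀ e ∈ M, p ∉ e ∧ q ∉ e := by
    intro e he
    exact ⟨fun h => hp.2 (mem_biUnion.2 ⟨e, he, h⟩), fun h => hq.2 (mem_biUnion.2 ⟨e, he, h⟩)⟩
  have hnM : ({p, q} : Finset (Finset α)) ∉ M := fun h => (hnot _ h).1 (by simp)
  have hdd : ∀ e ∈ M, Disjoint e ({p, q} : Finset (Finset α)) := by
    intro e he
    rw [Finset.disjoint_right]
    intro z hz
    rw [mem_insert, mem_singleton] at hz
    rcases hz with rfl | rfl
    · exact (hnot e he).1
    · exact (hnot e he).2
  have hP : PairSys G (insert {p, q} M) := by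
    refine ⟨?_, ?_, ?_, ?_⟩
    · intro e he
      rcases mem_insert.1 he with rfl | he
      · exact card_pair hpq
      · exact hM.2.two e he
    · intro e he
      rcases mem_insert.1 he with rfl | he
      · intro z hz
        rw [mem_insert, mem_singleton] at hz
        rcases hz with rfl | rfl
        · exact hp.1
        · exact hq.1
      · exact hM.2.sub e he
    · intro e he
      rcases mem_insert.1 he with rfl | he
      · refine ⟨x, ?_⟩
        intro z hz
        rw [mem_insert, mem_singleton] at hz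
        rcases hz with rfl | rfl
        · exact hxp
        · exact hxq
      · exact hM.2.com e he
    · intro e he f hf hef
      rcases mem_insert.1 he with h1 | h1 <;> rcases mem_insert.1 hf with h2 | h2
      · exact absurd (h1.trans h2.symm) hef
      · rw [h1]; exact (hdd f h2).symm
      · rw [h2]; exact hdd e h1
      · exact hM.2.dis e h1 f h2 hef
  have hmem : insert {p, q} M ∈ X := by
    rw [hX, mem_filter, mem_powerset]
    refine ⟨?_, hP⟩
    intro e he
    rw [mem_powerset]
    exact hP.sub e he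
  have := hmax _ hmem
  rw [card_insert_of_notMem hnM] at this
  omega

theorem matching_card {G : Finset (Finset α)} {M : Finset (Finset (Finset α))} (h : PairSys G M) :
    (M.biUnion id).card = 2 * M.card := by
  have h1 : (M.biUnion id).card = ∑ e ∈ M, (id e).card :=
    card_biUnion (fun e he f hf hef => h.dis e he f hf hef)
  have h2 : ∑ e ∈ M, (id e).card = ∑ e ∈ M, 2 := sum_congr rfl (fun e he => h.two e he)
  rw [h1, h2, sum_const, smul_eq_mul, mul_comm]

/-- a family with `F` generated by `G` -/
theorem gens_injOn {F G : Finset (Finset α)} (hgen : ∀ S ∈ F, ∀ x ∈ S, ∃ q ∈ G, x ∈ q ∧ q ⊆ S) :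
    Set.InjOn (gens G) (F : Set (Finset α)) := by
  have key : ∀ S ∈ F, ∀ T ∈ F, gens G S = gens G T → S ⊆ T := by
    intro S hS T hT hST x hx
    obtain ⟨q, hq, hxq, hqS⟩ := hgen S hS x hx
    have : q ∈ gens G S := mem_filter.2 ⟨hq, hqS⟩
    rw [hST] at this
    exact (mem_filter.1 this).2 hxq
  intro S hS T hT hST
  exact subset_antisymm (key S (mem_coe.1 hS) T (mem_coe.1 hT) hST)
    (key T (mem_coe.1 hT) S (mem_coe.1 hS) hST.symm)

theorem many_disjoint {F G : Finset (Finset α)} {M : Finset (Finset (Finset α))}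
    (h : PairSys G M) (H : ∀ x, 2 * (F.filter (fun S => x ∈ S)).card ≤ F.card) :
    M.card * F.card ≤ 2 * ∑ S ∈ F, dn M (gens G S) := by
  have h1 : ∑ S ∈ F, dn M (gens G S) = ∑ e ∈ M, (F.filter (fun S => Disjoint e (gens G S))).card := by
    unfold dn
    simp_rw [card_filter]
    rw [sum_comm]
  rw [h1, mul_sum]
  calc M.card * F.card = ∑ e ∈ M, F.card := by rw [sum_const, smul_eq_mul]
    _ ≤ ∑ e ∈ M, 2 * (F.filter (fun S => Disjoint e (gens G S))).card := by
      apply sum_le_sum
      intro e he
      obtain ⟨x, hx⟩ := h.com e he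
      have h2 : (F.filter (fun S => ¬ x ∈ S)).card ≤
          (F.filter (fun S => Disjoint e (gens G S))).card := by
        apply card_le_card
        intro S hS
        rw [mem_filter] at hS ⊢
        refine ⟨hS.1, ?_⟩
        rw [Finset.disjoint_left]
        intro p hp hpS
        exact hS.2 ((mem_filter.1 hpS).2 (hx p hp))
      have h3 := card_filter_add_card_filter_not (s := F) (fun S => x ∈ S)
      have h4 := H x
      omega

/-- the number of the pairs is bounded by the density -/
theorem density {F G : Finset (Finset α)} {M : Finset (Finset (Finset α))}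
    (hgen : ∀ S ∈ F, ∀ x ∈ S, ∃ q ∈ G, x ∈ q ∧ q ⊆ S)
    (h : PairSys G M) (H : ∀ x, 2 * (F.filter (fun S => x ∈ S)).card ≤ F.card) :
    (F.card : ℝ) ^ 2 * (4 / 3) ^ M.card ≤ (2 ^ G.card) ^ 2 := by
  set t := M.card with ht
  have h1 : (∑ S ∈ F, (3 : ℝ) ^ (dn M (gens G S))) * 2 ^ t ≤ 3 ^ t * 2 ^ G.card := by
    have e := weight_sum M G h
    have hle : ∑ S ∈ F, 3 ^ (dn M (gens G S)) ≤ ∑ H ∈ G.powerset, 3 ^ (dn M H) := by
      have : ∑ S ∈ F, 3 ^ (dn M (gens G S)) = ∑ H ∈ F.image (gens G), 3 ^ (dn M H) := by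
        rw [sum_image]
        intro a ha b hb hab
        exact gens_injOn hgen ha hb hab
      rw [this]
      apply sum_le_sum_of_subset
      intro H hH
      obtain ⟨S, _, rfl⟩ := mem_image.1 hH
      exact mem_powerset.2 (filter_subset _ _)
    have h3 : (∑ S ∈ F, 3 ^ (dn M (gens G S))) * 2 ^ t ≤ 3 ^ t * 2 ^ G.card := by
      rw [← e]
      exact Nat.mul_le_mul_right _ hle
    exact_mod_cast h3
  have h2 : (t : ℝ) * F.card ≤ 2 * ∑ S ∈ F, (dn M (gens G S) : ℝ) := by
    exact_mod_cast many_disjoint h H
  set L : ℝ := Real.log 3 with hL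
  have hL0 : 0 < L := Real.log_pos (by norm_num)
  -- tangent line
  have h3 : ∀ S ∈ F, Real.exp (t / 2 * L) * (1 + ((dn M (gens G S) : ℝ) - t / 2) * L) ≤
      (3 : ℝ) ^ (dn M (gens G S)) := by
    intro S _
    have a := Real.add_one_le_exp (((dn M (gens G S) : ℝ) - t / 2) * L)
    have b : (3 : ℝ) ^ (dn M (gens G S)) = Real.exp ((dn M (gens G S) : ℝ) * L) := by
      rw [Real.exp_nat_mul, hL, Real.exp_log (by norm_num)]
    rw [b]
    calc Real.exp (t / 2 * L) * (1 + ((dn M (gens G S) : ℝ) - t / 2) * L)
        ≤ Real.exp (t / 2 * L) * Real.exp (((dn M (gens G S) : ℝ) - t / 2) * L) := by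
          apply mul_le_mul_of_nonneg_left _ (Real.exp_pos _).le
          linarith
      _ = Real.exp ((dn M (gens G S) : ℝ) * L) := by
          rw [← Real.exp_add]
          congr 1
          ring
  have h4 : Real.exp (t / 2 * L) * F.card ≤ ∑ S ∈ F, (3 : ℝ) ^ (dn M (gens G S)) := by
    refine le_trans ?_ (sum_le_sum h3)
    rw [← mul_sum]
    apply mul_le_mul_of_nonneg_left _ (Real.exp_pos _).le
    rw [sum_add_distrib, ← sum_mul, sum_sub_distrib]
    simp only [sum_const, nsmul_eq_mul, mul_one]
    have : 0 ≤ (∑ S ∈ F, (dn M (gens G S) : ℝ) - F.card * (t / 2)) * L := by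
      apply mul_nonneg _ hL0.le
      linarith
    linarith
  have h5 : Real.exp (t / 2 * L) ^ 2 = 3 ^ t := by
    rw [← Real.exp_nat_mul]
    have : ((2 : ℕ) : ℝ) * (t / 2 * L) = t * L := by push_cast; ring
    rw [this, Real.exp_nat_mul, hL, Real.exp_log (by norm_num)]
  have h6 : (Real.exp (t / 2 * L) * F.card * 2 ^ t) ^ 2 ≤ (3 ^ t * 2 ^ G.card) ^ 2 := by
    apply pow_le_pow_left₀ (by positivity)
    exact (mul_le_mul_of_nonneg_right h4 (by positivity)).trans h1
  have h7 : (Real.exp (t / 2 * L) * F.card * 2 ^ t) ^ 2 =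
      3 ^ t * ((F.card : ℝ) ^ 2 * 4 ^ t) := by
    rw [mul_pow, mul_pow, h5]
    have : ((2 : ℝ) ^ t) ^ 2 = 4 ^ t := by
      rw [← pow_mul, mul_comm, pow_mul]; norm_num
    rw [this]
    ring
  rw [h7] at h6
  have h8 : (F.card : ℝ) ^ 2 * 4 ^ t ≤ 3 ^ t * (2 ^ G.card) ^ 2 := by
    have h3t : (0 : ℝ) < 3 ^ t := by positivity
    have : 3 ^ t * ((F.card : ℝ) ^ 2 * 4 ^ t) ≤ 3 ^ t * (3 ^ t * (2 ^ G.card) ^ 2) := by
      calc _ ≤ ((3 : ℝ) ^ t * 2 ^ G.card) ^ 2 := h6
        _ = _ := by ring
    exact le_of_mul_le_mul_left this h3t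
  rw [div_pow]
  rw [← mul_div_assoc, div_le_iff₀ (by positivity)]
  linarith

end Pool.Agent.N435
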