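import Pool.Agent.N435.Irr
import Pool.Agent.N435.Lin3

/-!
# Dense families: a density of `2 ^ (g - g / 20)` suffices
-/

set_option autoImplicit false
set_option linter.unusedSectionVars false

namespace Pool.Agent.N435

open Finset Real
open scoped Classical

variable {α : Type*} [DecidableEq α]

theorem PairSys.insert' {G : Finset (Finset α)} {M : Finset (Finset (Finset α))} (h : PairSys G M)
    {p q : Finset α} (hp : p ∈ G) (hq : q ∈ G) (hpq : p ≠ q) (hd : ¬ Disjoint p q)
    (hnp : ∀ e ∈ M, p ∉ e) (hnq : ∀ e ∈ M, q ∉ e) : PairSys G (insert {p, q} M) := by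
  obtain ⟨x, hxp, hxq⟩ := not_disjoint_iff.1 hd
  have hdd : ∀ e ∈ M, Disjoint e ({p, q} : Finset (Finset α)) := by
    intro e he
    rw [Finset.disjoint_right]
    intro z hz
    rw [mem_insert, mem_singleton] at hz
    rcases hz with rfl | rfl
    · exact hnp e he
    · exact hnq e he
  refine ⟨?_, ?_, ?_, ?_⟩
  · intro e he
    rcases mem_insert.1 he with rfl | he
    · exact card_pair hpq
    · exact h.two e he
  · intro e he
    rcases mem_insert.1 he with rfl | he
    · intro z hz
      rw [mem_insert, mem_singleton] at hz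
      rcases hz with rfl | rfl
      · exact hp
      · exact hq
    · exact h.sub e he
  · intro e he
    rcases mem_insert.1 he with rfl | he
    · refine ⟨x, ?_⟩
      intro z hz
      rw [mem_insert, mem_singleton] at hz
      rcases hz with rfl | rfl
      · exact hxp
      · exact hxq
    · exact h.com e he
  · intro e he f hf hef
    rcases mem_insert.1 he with h1 | h1 <;> rcases mem_insert.1 hf with h2 | h2
    · exact absurd (h1.trans h2.symm) hef
    · rw [h1]; exact (hdd f h2).symm
    · rw [h2]; exact hdd e h1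
    · exact h.dis e h1 f h2 hef

theorem PairSys.erase' {G : Finset (Finset α)} {M : Finset (Finset (Finset α))} (h : PairSys G M)
    (e : Finset (Finset α)) : PairSys G (M.erase e) :=
  ⟨fun f hf => h.two f (mem_of_mem_erase hf), fun f hf => h.sub f (mem_of_mem_erase hf),
    fun f hf => h.com f (mem_of_mem_erase hf),
    fun f hf g hg => h.dis f (mem_of_mem_erase hf) g (mem_of_mem_erase hg)⟩

/-- a maximum matching: no augmentation of length one or three -/
theorem exists_matching_aug (G : Finset (Finset α)) :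
    ∃ M, PairSys G M ∧
      (∀ p ∈ G \ M.biUnion id, ∀ q ∈ G \ M.biUnion id, p ≠ q → Disjoint p q) ∧
      (∀ e ∈ M, ∀ a ∈ e, ∀ b ∈ e, a ≠ b → ∀ u ∈ G \ M.biUnion id, ∀ v ∈ G \ M.biUnion id,
        ¬ Disjoint a u → ¬ Disjoint b v → u = v) := by
  set X := (G.powerset.powerset).filter (fun M => PairSys G M) with hX
  have hne : X.Nonempty := by
    refine ⟨∅, ?_⟩
    rw [hX, mem_filter]
    exact ⟨by simp, ⟨by simp, by simp, by simp, by simp⟩⟩
  obtain ⟨M, hM, hmax⟩ := exists_max_image X (fun M => M.card) hne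
  rw [hX, mem_filter] at hM
  have hmax' : ∀ M' : Finset (Finset (Finset α)), PairSys G M' → M'.card ≤ M.card := by
    intro M' hM'
    apply hmax
    rw [hX, mem_filter, mem_powerset]
    refine ⟨?_, hM'⟩
    intro e he
    rw [mem_powerset]
    exact hM'.sub e he
  have hunm : ∀ u ∈ G \ M.biUnion id, ∀ e ∈ M, u ∉ e := by
    intro u hu e he hc
    rw [mem_sdiff] at hu
    exact hu.2 (mem_biUnion.2 ⟨e, he, hc⟩)
  refine ⟨M, hM.2, ?_, ?_⟩
  · intro p hp q hq hpq
    by_contra hd
    have h1 := hM.2.insert' (mem_sdiff.1 hp).1 (mem_sdiff.1 hq).1 hpq hd (hunm p hp) (hunm q hq)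
    have h2 := hmax' _ h1
    rw [card_insert_of_notMem (fun hc => hunm p hp _ hc (by simp))] at h2
    omega
  · intro e he a ha b hb hab u hu v hv hau hbv
    by_contra huv
    have haG := hM.2.sub e he ha
    have hbG := hM.2.sub e he hb
    have hua : a ≠ u := by
      rintro rfl
      exact hunm a hu e he ha
    have hvb : b ≠ v := by
      rintro rfl
      exact hunm b hv e he hb
    have hva : a ≠ v := by
      rintro rfl
      exact hunm a hv e he ha
    have hub : b ≠ u := by
      rintro rfl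
      exact hunm b hu e he hb
    -- the elements of `e` are in no other pair
    have hoth : ∀ z ∈ e, ∀ f ∈ M.erase e, z ∉ f := by
      intro z hz f hf hzf
      exact Finset.disjoint_left.1 (hM.2.dis e he f (mem_of_mem_erase hf)
        (ne_of_mem_erase hf).symm) hz hzf
    have h1 : PairSys G (insert {a, u} (M.erase e)) :=
      (hM.2.erase' e).insert' haG (mem_sdiff.1 hu).1 hua hau (hoth a ha)
        (fun f hf => hunm u hu f (mem_of_mem_erase hf))
    have h2 : PairSys G (insert {b, v} (insert {a, u} (M.erase e))) := by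
      apply h1.insert' hbG (mem_sdiff.1 hv).1 hvb hbv
      · intro f hf
        rcases mem_insert.1 hf with rfl | hf
        · simp only [mem_insert, mem_singleton, not_or]
          exact ⟨hab.symm, hub⟩
        · exact hoth b hb f hf
      · intro f hf
        rcases mem_insert.1 hf with rfl | hf
        · simp only [mem_insert, mem_singleton, not_or]
          exact ⟨hva.symm, fun hc => huv hc.symm⟩
        · exact hunm v hv f (mem_of_mem_erase hf)
    have h3 := hmax' _ h2
    have n1 : ({a, u} : Finset (Finset α)) ∉ M.erase e := by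
      intro hc
      exact hunm u hu _ (mem_of_mem_erase hc) (by simp)
    have n2 : ({b, v} : Finset (Finset α)) ∉ insert {a, u} (M.erase e) := by
      intro hc
      rcases mem_insert.1 hc with hc | hc
      · have : b ∈ ({a, u} : Finset (Finset α)) := by rw [← hc]; simp
        simp only [mem_insert, mem_singleton] at this
        rcases this with h' | h'
        · exact hab h'.symm
        · exact hub h'
      · exact hunm v hv _ (mem_of_mem_erase hc) (by simp)
    rw [card_insert_of_notMem n2, card_insert_of_notMem n1, card_erase_of_mem he] at h3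
    have : 0 < M.card := card_pos.2 ⟨e, he⟩
    omega


/-- Dense families: if every element lies in at most half of the members, some generator meeting
another one is met partially by no generator. -/
theorem dense2 {F G : Finset (Finset α)} (uc : ∀ S ∈ F, ∀ T ∈ F, S ∪ T ∈ F) (gf : G ⊆ F)
    (gen : ∀ S ∈ F, ∀ x ∈ S, ∃ q ∈ G, x ∈ q ∧ q ⊆ S) (ne : ∀ p ∈ G, p.Nonempty)
    (G1 : Finset (Finset α)) (hG1 : nonisol G ⊆ G1) (hG1' : G1 ⊆ G) (hne : G1.Nonempty)
    (hm : (2 : ℝ) ^ ((G.card : ℝ) - (G1.card : ℝ) / 20) ≤ F.card)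
    (H : ∀ x, 2 * (F.filter (fun S => x ∈ S)).card ≤ F.card) :
    ∃ p ∈ G1, ∀ q ∈ G, Disjoint p q ∨ p ⊆ q := by
  obtain ⟨M, hM, hdis, haug⟩ := exists_matching_aug G
  have hd := density gen hM H
  have ht := t_le hd hm
  have ht4 : 4 * M.card ≤ G1.card := by
    have : (4 : ℝ) * (M.card : ℝ) ≤ (G1.card : ℝ) := by linarith
    exact_mod_cast this
  have hcard := matching_card hM
  have hMG : M.biUnion id ⊆ G1 := by
    intro p hp
    obtain ⟨e, he, hpe⟩ := mem_biUnion.1 hp
    simp only [id] at hpe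
    apply hG1
    obtain ⟨x, hx⟩ := hM.com e he
    obtain ⟨a, b, hab, heab⟩ := card_eq_two.1 (hM.two e he)
    simp only [nonisol, mem_filter]
    refine ⟨hM.sub e he hpe, ?_⟩
    rw [heab, mem_insert, mem_singleton] at hpe
    have ha : a ∈ e := by rw [heab]; simp
    have hb : b ∈ e := by rw [heab]; simp
    rcases hpe with rfl | rfl
    · exact ⟨b, hM.sub e he hb, hab.symm, not_disjoint_iff.2 ⟨x, hx _ ha, hx _ hb⟩⟩
    · exact ⟨a, hM.sub e he ha, hab, not_disjoint_iff.2 ⟨x, hx _ hb, hx _ ha⟩⟩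
  have hother : ∀ e ∈ M, ∀ a ∈ e, ∃ b ∈ e, a ≠ b := by
    intro e he a ha
    obtain ⟨c, d, hcd, hecd⟩ := card_eq_two.1 (hM.two e he)
    rw [hecd, mem_insert, mem_singleton] at ha
    rcases ha with rfl | rfl
    · exact ⟨d, by rw [hecd]; simp, hcd⟩
    · exact ⟨c, by rw [hecd]; simp, hcd.symm⟩
  have hsame : ∀ e ∈ M, ∀ f ∈ M, ∀ a, a ∈ e → a ∈ f → e = f := by
    intro e he f hf a hae haf
    by_contra hef
    exact Finset.disjoint_left.1 (hM.dis e he f hf hef) hae haf
  set U := G1 \ M.biUnion id with hU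
  have hUG : ∀ u ∈ U, u ∈ G \ M.biUnion id := by
    intro u hu
    rw [hU, mem_sdiff] at hu
    exact mem_sdiff.2 ⟨hG1' hu.1, hu.2⟩
  set bad := U.filter (fun u => ∃ e ∈ M, ∀ a ∈ e, ¬ Disjoint a u) with hbad
  set P := U \ bad with hP
  have hPU : P ⊆ U := sdiff_subset
  have hUcard : U.card = G1.card - 2 * M.card := by
    rw [hU, card_sdiff_of_subset hMG, hcard]
  have hPcard : P.card = U.card - bad.card := card_sdiff_of_subset (filter_subset _ _)
  -- hubs
  have hub_e : ∀ k ∈ hubs G P, ∃ e ∈ M, k ∈ e ∧ ∃ p ∈ P, ¬ Disjoint k p := by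
    intro k hk
    simp only [hubs, mem_filter] at hk
    obtain ⟨hkG, p, hp, hk1, hk2⟩ := hk
    have hkM : k ∈ M.biUnion id := by
      by_contra hcon
      have hpk : p ≠ k := by
        rintro rfl
        exact hk2 Subset.rfl
      exact hk1 (hdis p (hUG p (hPU hp)) k (mem_sdiff.2 ⟨hkG, hcon⟩) hpk)
    obtain ⟨e, he, hke⟩ := mem_biUnion.1 hkM
    exact ⟨e, he, hke, p, hp, fun hd => hk1 hd.symm⟩
  have bad_e : ∀ u ∈ bad, ∃ e ∈ M, ∀ a ∈ e, ¬ Disjoint a u := by
    intro u hu
    exact (mem_filter.1 hu).2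
  choose! f hf using hub_e
  choose! f2 hf2 using bad_e
  have hbU : ∀ u ∈ bad, u ∈ U := fun u hu => (mem_filter.1 hu).1
  have hpn : ∀ p ∈ P, ∀ e ∈ M, ∃ a ∈ e, Disjoint a p := by
    intro p hp e he
    by_contra hcon
    push Not at hcon
    exact (mem_sdiff.1 hp).2 (mem_filter.2 ⟨hPU hp, e, he, hcon⟩)
  have inj1 : Set.InjOn f (hubs G P : Set (Finset α)) := by
    intro k hk k' hk' hkk
    obtain ⟨he, hke, p, hp, hkp⟩ := hf k (mem_coe.1 hk)
    obtain ⟨he', hke', p', hp', hkp'⟩ := hf k' (mem_coe.1 hk')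
    rw [← hkk] at hke'
    by_contra hne'
    have hpp := haug (f k) he k hke k' hke' hne' p (hUG p (hPU hp)) p' (hUG p' (hPU hp')) hkp hkp'
    subst hpp
    obtain ⟨a, ha, hap⟩ := hpn p hp (f k) he
    have hak : a ≠ k := by
      rintro rfl
      exact hkp hap
    have hak' : a ≠ k' := by
      rintro rfl
      exact hkp' hap
    have h3 : ({a, k, k'} : Finset (Finset α)).card = 3 := by
      rw [card_eq_three]
      exact ⟨a, k, k', hak, hak', hne', rfl⟩
    have h4 : ({a, k, k'} : Finset (Finset α)) ⊆ f k := by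
      intro z hz
      simp only [mem_insert, mem_singleton] at hz
      rcases hz with rfl | rfl | rfl
      · exact ha
      · exact hke
      · exact hke'
    have h5 := card_le_card h4
    have h6 := hM.two (f k) he
    omega
  have inj2 : Set.InjOn f2 (bad : Set (Finset α)) := by
    intro u hu u' hu' huu
    obtain ⟨he, h1⟩ := hf2 u (mem_coe.1 hu)
    obtain ⟨he', h2⟩ := hf2 u' (mem_coe.1 hu')
    rw [← huu] at h2
    obtain ⟨c, d, hcd, hecd⟩ := card_eq_two.1 (hM.two (f2 u) he)
    have hc : c ∈ f2 u := by rw [hecd]; simp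
    have hd' : d ∈ f2 u := by rw [hecd]; simp
    exact haug (f2 u) he c hc d hd' hcd u (hUG u (hbU u hu)) u' (hUG u' (hbU u' hu'))
      (h1 c hc) (h2 d hd')
  have hdisj : Disjoint ((hubs G P).image f) (bad.image f2) := by
    rw [Finset.disjoint_left]
    intro e he1 he2
    obtain ⟨k, hk, rfl⟩ := mem_image.1 he1
    obtain ⟨u, hu, hue⟩ := mem_image.1 he2
    obtain ⟨he, hke, p, hp, hkp⟩ := hf k hk
    obtain ⟨he', h2⟩ := hf2 u hu
    rw [hue] at h2
    obtain ⟨b, hb, hkb⟩ := hother (f k) he k hke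
    have hpu := haug (f k) he k hke b hb hkb p (hUG p (hPU hp)) u (hUG u (hbU u hu)) hkp
      (h2 b hb)
    rw [hpu] at hp
    exact (mem_sdiff.1 hp).2 hu
  have hsum : (hubs G P).card + bad.card ≤ M.card := by
    rw [← card_image_of_injOn inj1, ← card_image_of_injOn inj2, ← card_union_of_disjoint hdisj]
    apply card_le_card
    intro e he
    rcases mem_union.1 he with he | he
    · obtain ⟨k, hk, rfl⟩ := mem_image.1 he
      exact (hf k hk).1
    · obtain ⟨u, hu, rfl⟩ := mem_image.1 he
      exact (hf2 u hu).1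
  have hG1pos : 0 < G1.card := card_pos.2 hne
  have hPne : P.Nonempty := by
    rw [← card_pos]
    omega
  have hsys : Sys F G P := by
    refine ⟨uc, gf, gen, (hPU.trans sdiff_subset).trans hG1', ?_,
      fun p hp => ne p (hG1' (sdiff_subset (hPU hp)))⟩
    intro p hp q hq hpq
    exact hdis p (hUG p (hPU hp)) q (hUG q (hPU hq)) hpq
  obtain ⟨p, hp, hpu⟩ := exists_untouched_lin hsys (fun p _ y _ => H y) hPne (by omega)
  exact ⟨p, sdiff_subset (hPU hp), hpu⟩

/-- Dense families, in terms of a generating set `G1 ⊇ nonisol G`. -/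
theorem dense_irr2 (A G G1 : Finset (Finset α)) (hA : ∀ X ∈ A, ∀ Y ∈ A, X ∪ Y ∈ A)
    (hG : G = A.filter (fun q => q.Nonempty ∧ ∀ X ∈ A, ∀ Y ∈ A, X ∪ Y = q → X = q ∨ Y = q))
    (hG1 : nonisol G ⊆ G1) (hG1' : G1 ⊆ G) (hne : G1.Nonempty)
    (hm : (2 : ℝ) ^ ((G.card : ℝ) - (G1.card : ℝ) / 20) ≤ (insert ∅ A).card)
    (H : ∀ x, 2 * (A.filter (fun S => x ∈ S)).card ≤ (insert ∅ A).card) :
    ∃ p ∈ G1, (∀ q ∈ G, q ≠ p → Disjoint p q) ∧
      ∀ y ∈ p, (insert ∅ A).card ≤ 2 * (A.filter (fun S => y ∈ S)).card := by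
  have hGA : G ⊆ A := by rw [hG]; exact filter_subset _ _
  have gf : G ⊆ insert ∅ A := hGA.trans (subset_insert _ _)
  have ne : ∀ p ∈ G, p.Nonempty := by
    intro p hp
    rw [hG, mem_filter] at hp
    exact hp.2.1
  have gen : ∀ S ∈ insert ∅ A, ∀ x ∈ S, ∃ q ∈ G, x ∈ q ∧ q ⊆ S := by
    intro S hS x hx
    rcases mem_insert.1 hS with rfl | hS
    · exact absurd hx (notMem_empty x)
    · obtain ⟨q, hq, hq', hq''⟩ := irr_gen A S hS x hx
      exact ⟨q, by rw [hG, mem_filter]; exact ⟨hq, hq'⟩, hq''⟩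
  have H' : ∀ x, 2 * ((insert ∅ A).filter (fun S => x ∈ S)).card ≤ (insert ∅ A).card := by
    intro x
    rw [filter_insert_empty]
    exact H x
  obtain ⟨p, hp, hu⟩ := dense2 (union_insert hA) gf gen ne G1 hG1 hG1' hne hm H'
  have hpG := hG1' hp
  have hsys : Sys (insert ∅ A) G {p} := by
    refine ⟨union_insert hA, gf, gen, by simpa using hpG, ?_, ?_⟩
    · intro a ha b hb hab
      rw [mem_singleton] at ha hb
      exact absurd (ha.trans hb.symm) hab
    · intro a ha
      rw [mem_singleton] at ha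
      rw [ha]
      exact ne p hpG
  have key : ∀ y ∈ p, (insert ∅ A).card ≤ 2 * (A.filter (fun S => y ∈ S)).card ∧
      ∀ S ∈ insert ∅ A, p ⊆ S → S \ p ∈ insert ∅ A := by
    intro y hy
    have := untouched hsys (mem_singleton_self p) hu hy
    rw [filter_insert_empty] at this
    exact ⟨this.1, this.2 (H y)⟩
  refine ⟨p, hp, ?_, fun y hy => (key y hy).1⟩
  intro q hq hqp
  rcases hu q hq with h' | h'
  · exact h'
  · exfalso
    obtain ⟨y, hy⟩ := ne p hpG
    have h1 := (key y hy).2 q (gf hq) h'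
    have hq2 := hq
    rw [hG, mem_filter] at hq2
    have hnee : (q \ p) ≠ ∅ := by
      intro h0
      rw [sdiff_eq_empty_iff_subset] at h0
      exact hqp (subset_antisymm h0 h')
    have h2 : q \ p ∈ A := by
      rcases mem_insert.1 h1 with h0 | h0
      · exact absurd h0 hnee
      · exact h0
    rcases hq2.2.2 (q \ p) h2 p (hGA hpG) (sdiff_union_of_subset h') with h3 | h3
    · have : y ∈ q \ p := by rw [h3]; exact h' hy
      exact (mem_sdiff.1 this).2 hy
    · exact hqp h3.symm

end Pool.Agent.N435
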