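import Pool.Agent.N435.Lin3

/-!
# Fewer disjoint sets than hubs

`F` is a finite union-closed family generated by `G ⊆ F`, and `P ⊆ G` consists of pairwise disjoint
nonempty sets. If every element of the sets `p ∈ P` lies in at most half of the members, and each
`p ∈ P` is met partially by some generator, then `|P| ≤ ∑ (1 - 2 ^ (-d))`, the sum over the
generators meeting some `p ∈ P` partially, each of them meeting `d` sets of `P` partially; so `|P|` is
less than the number of these generators.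
-/

set_option autoImplicit false
set_option linter.unusedSectionVars false

namespace Pool.Agent.N435.One

open Finset
open scoped Classical

variable {α : Type*} [DecidableEq α] {F G P : Finset (Finset α)}

/-- the members not containing `p` -/
noncomputable def D (F : Finset (Finset α)) (p : Finset α) : Finset (Finset α) :=
  F.filter (fun S => ¬ p ⊆ S)

/-- the sets `S ∪ p` -/
noncomputable def img (F : Finset (Finset α)) (p : Finset α) : Finset (Finset α) :=
  (D F p).image (fun S => S ∪ p)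

/-- the members containing `p` which are not of the form `S ∪ p` -/
noncomputable def V (F : Finset (Finset α)) (p : Finset α) : Finset (Finset α) :=
  F.filter (fun S => p ⊆ S) \ img F p

theorem img_subset (h : Sys F G P) {p : Finset α} (hp : p ∈ P) :
    img F p ⊆ F.filter (fun S => p ⊆ S) := by
  intro M hM
  obtain ⟨S, hS, rfl⟩ := mem_image.1 hM
  rw [mem_filter]
  exact ⟨h.uc _ (mem_filter.1 hS).1 _ (h.gf (h.pg hp)), subset_union_right⟩

theorem V_card (h : Sys F G P) {p : Finset α} (hp : p ∈ P) :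
    (V F p).card + (img F p).card = (F.filter (fun S => p ⊆ S)).card :=
  card_sdiff_add_card_eq_card (img_subset h hp)

/-- the demand of `p` -/
noncomputable def eta (F : Finset (Finset α)) (p : Finset α) : ℕ := (D F p).card - (img F p).card

theorem eta_add (F : Finset (Finset α)) (p : Finset α) :
    eta F p + (img F p).card = (D F p).card :=
  Nat.sub_add_cancel card_image_le

/-- if `y` lies in at most half of the members, the demand is large -/
theorem le_eta (h : Sys F G P) {p : Finset α} (hp : p ∈ P) {y : α} (hy : y ∈ p)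
    (H : 2 * (F.filter (fun S => y ∈ S)).card ≤ F.card) :
    2 * nn F p y + (V F p).card ≤ eta F p := by
  have e1 : (F.filter (fun S => y ∈ S)).card = (F.filter (fun S => p ⊆ S)).card + nn F p y := by
    rw [← card_filter_add_card_filter_not (s := F.filter (fun S => y ∈ S)) (p := fun S => p ⊆ S)]
    congr 1
    · congr 1
      ext S
      simp only [mem_filter]
      constructor
      · rintro ⟨⟨a, b⟩, c⟩; exact ⟨a, c⟩
      · rintro ⟨a, c⟩; exact ⟨⟨a, c hy⟩, c⟩
    · unfold nn
      congr 1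
      ext S
      simp only [mem_filter]
      tauto
  have e2 := card_filter_add_card_filter_not (s := F) (fun S => p ⊆ S)
  have e3 : (F.filter (fun S => ¬ p ⊆ S)).card = (D F p).card := rfl
  have e4 := V_card h hp
  have e5 := eta_add F p
  omega

/-- the members charged at `p` -/
noncomputable def Ch (F G P : Finset (Finset α)) (rk : Finset α → ℕ) (p : Finset α) :
    Finset (Finset α) :=
  (D F p).filter (fun S => (∃ k ∈ hubs G P, k ⊆ S ∧ FM P rk k S p) ∨
    (∃ k ∈ hubs G P, p ∈ tch P k ∧ k ⊆ S ∪ p ∧ ¬ k ⊆ S ∧ ¬ FM P rk k S p))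

/-- the uncharged members are determined by `S ∪ p` -/
theorem eta_le_Ch (h : Sys F G P) (rk : Finset α → ℕ) {p : Finset α} (hp : p ∈ P) :
    eta F p ≤ (Ch F G P rk p).card := by
  set W := D F p \ Ch F G P rk p with hW
  have key : ∀ S ∈ W, ∀ S' ∈ W, S ∪ p = S' ∪ p → S ⊆ S' := by
    intro S hS S' hS' hSS z hz
    rw [hW, mem_sdiff] at hS hS'
    have hSD := mem_filter.1 hS.1
    have hSD' := mem_filter.1 hS'.1
    by_cases hzp : z ∈ p
    · obtain ⟨k, hk, hzk, hkS⟩ := h.gen S hSD.1 z hz
      have hpk : ¬ p ⊆ k := fun hc => hSD.2 (hc.trans hkS)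
      have hdk : ¬ Disjoint p k := not_disjoint_iff.2 ⟨z, hzp, hzk⟩
      have hkh : k ∈ hubs G P := by
        simp only [hubs, mem_filter]
        exact ⟨hk, p, hp, hdk, hpk⟩
      by_contra hzS'
      have hkS' : ¬ k ⊆ S' := fun hc => hzS' (hc hzk)
      have hkc : k ⊆ S' ∪ p := by
        rw [← hSS]
        exact hkS.trans subset_union_left
      have hpt : p ∈ tch P k := mem_filter.2 ⟨hp, hdk, hpk⟩
      -- from S' uncharged
      have h1 : FM P rk k S' p := by
        by_contra hcon
        apply hS'.2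
        unfold Ch
        rw [mem_filter]
        exact ⟨hS'.1, Or.inr ⟨k, hkh, hpt, hkc, hkS', hcon⟩⟩
      have h2 : FM P rk k S p := FM_congr h hp hSD'.2 hSD.2 hSS.symm h1
      apply hS.2
      unfold Ch
      rw [mem_filter]
      exact ⟨hS.1, Or.inl ⟨k, hkh, hkS, h2⟩⟩
    · have : z ∈ S' ∪ p := by
        rw [← hSS]
        exact mem_union_left _ hz
      rcases mem_union.1 this with h' | h'
      · exact h'
      · exact absurd h' hzp
  have h1 : W.card ≤ (img F p).card := by
    apply card_le_card_of_injOn (fun S => S ∪ p)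
    · intro S hS
      have hS' := mem_coe.1 hS
      rw [hW, mem_sdiff] at hS'
      exact mem_coe.2 (mem_image_of_mem _ hS'.1)
    · intro S hS T hT hST
      exact subset_antisymm (key S (mem_coe.1 hS) T (mem_coe.1 hT) hST)
        (key T (mem_coe.1 hT) S (mem_coe.1 hS) hST.symm)
  have h2 : (D F p).card ≤ (Ch F G P rk p).card + W.card := by
    have hsub : Ch F G P rk p ⊆ D F p := filter_subset _ _
    have e : W.card + (Ch F G P rk p).card = (D F p).card := by
      rw [hW]
      convert card_sdiff_add_card_eq_card hsub using 3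
    omega
  have h3 := eta_add F p
  omega

/-- the members counted for `q` -/
noncomputable def AB (F : Finset (Finset α)) (Q : Finset (Finset α)) (rk : Finset α → ℕ)
    (q : Finset α) (x : α) : Finset (Finset α) :=
  F.filter (fun S => x ∈ S ∧ ¬ q ⊆ S ∧ ∀ q' ∈ Q, rk q' < rk q → q' ⊆ S)

/-- Exchange: the members counted for `q` which contain `a` and lie in the image of `S ↦ S ∪ a`. -/
theorem exchange (h : Sys F G P) {rk : Finset α → ℕ} {Q : Finset (Finset α)} {a q : Finset α}
    {x : α} (ha : a ∈ P) (hQ : Q ⊆ P) (hq : q ∈ Q) (haQ : a ∉ Q) (hlt : ∀ b ∈ Q, rk a < rk b)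
    (hx : x ∈ q) :
    2 * (AB F (insert a Q) rk q x).card ≤ (AB F Q rk q x).card +
      ((AB F (insert a Q) rk q x) ∩ V F a).card := by
  set A1 := AB F (insert a Q) rk q x with hA1
  set A0 := AB F Q rk q x with hA0
  have hqa : q ≠ a := by
    rintro rfl
    exact haQ hq
  have hsub : A1 ⊆ A0 := by
    intro S hS
    simp only [hA1, hA0, AB, mem_filter] at hS ⊢
    exact ⟨hS.1, hS.2.1, hS.2.2.1, fun q' hq' hr => hS.2.2.2 q' (mem_insert_of_mem hq') hr⟩
  have haS : ∀ S ∈ A1, a ⊆ S := by
    intro S hS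
    simp only [hA1, AB, mem_filter] at hS
    exact hS.2.2.2 a (mem_insert_self _ _) (hlt q hq)
  -- injection from `A1 \ V` into `A0 \ A1`
  have hpre : ∀ S ∈ A1 \ V F a, ∃ S1 ∈ A0 \ A1, S1 ∪ a = S := by
    intro S hS
    rw [mem_sdiff] at hS
    have hSa := haS S hS.1
    have hS' := hS.1
    simp only [hA1, AB, mem_filter] at hS'
    have him : S ∈ img F a := by
      by_contra hcon
      apply hS.2
      unfold V
      rw [mem_sdiff]
      exact ⟨mem_filter.2 ⟨hS'.1, hSa⟩, hcon⟩
    obtain ⟨S1, hS1, hS1e⟩ := mem_image.1 him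
    simp only [D, mem_filter] at hS1
    refine ⟨S1, ?_, hS1e⟩
    have hS1S : S1 ⊆ S := by
      rw [← hS1e]
      exact subset_union_left
    rw [mem_sdiff]
    constructor
    · simp only [hA0, AB, mem_filter]
      refine ⟨hS1.1, ?_, fun hc => hS'.2.2.1 (hc.trans hS1S), ?_⟩
      · have : x ∈ S1 ∪ a := by
          rw [hS1e]
          exact hS'.2.1
        rcases mem_union.1 this with h' | h'
        · exact h'
        · exact absurd h' (Finset.disjoint_left.1 (h.disj q (hQ hq) a ha hqa) hx)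
      · intro q' hq' hr
        have hq'S := hS'.2.2.2 q' (mem_insert_of_mem hq') hr
        have hqa' : q' ≠ a := by
          rintro rfl
          exact haQ hq'
        intro z hz
        have : z ∈ S1 ∪ a := by
          rw [hS1e]
          exact hq'S hz
        rcases mem_union.1 this with h' | h'
        · exact h'
        · exact absurd h' (Finset.disjoint_left.1 (h.disj q' (hQ hq') a ha hqa') hz)
    · intro hc
      exact hS1.2 (haS S1 hc)
  have hcard : (A1 \ V F a).card ≤ (A0 \ A1).card := by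
    choose! f hf using hpre
    apply card_le_card_of_injOn f
    · intro S hS
      exact mem_coe.2 (hf S (mem_coe.1 hS)).1
    · intro S hS T hT hST
      rw [← (hf S (mem_coe.1 hS)).2, ← (hf T (mem_coe.1 hT)).2, hST]
  have e1 := card_sdiff_add_card_eq_card hsub
  have e2 : (A1 \ V F a).card + (A1 ∩ V F a).card = A1.card :=
    card_sdiff_add_card_inter A1 (V F a)
  omega

/-- the members counted for different `q` are different -/
theorem AB_disjoint {rk : Finset α → ℕ} {Q : Finset (Finset α)} {q q' : Finset α} {x x' : α}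
    (hq : q ∈ Q) (hq' : q' ∈ Q) (hne : rk q ≠ rk q') :
    Disjoint (AB F Q rk q x) (AB F Q rk q' x') := by
  rw [Finset.disjoint_left]
  intro S h1 h2
  simp only [AB, mem_filter] at h1 h2
  rcases lt_or_gt_of_ne hne with h | h
  · exact h1.2.2.1 (h2.2.2.2 q hq h)
  · exact h2.2.2.1 (h1.2.2.2 q' hq' h)

/-- the supply of a hub meeting `d` sets partially is at most `1 - 2 ^ (-d)` -/
theorem supply (h : Sys F G P) {rk : Finset α → ℕ} {η : Finset α → ℝ} {x : Finset α → α}
    {θ : ℝ} (hinj : Set.InjOn rk (P : Set (Finset α)))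
    (hη : ∀ p ∈ P, 0 < η p) (hmono : ∀ p ∈ P, ∀ q ∈ P, rk p < rk q → η p ≤ η q)
    (hnn : ∀ p ∈ P, ∀ y ∈ p, 2 * (nn F p y : ℝ) + ((V F p).card : ℝ) ≤ θ * η p)
    (Q : Finset (Finset α)) (hQ : Q ⊆ P) (hx : ∀ q ∈ Q, x q ∈ q) :
    ∑ q ∈ Q, ((AB F Q rk q (x q)).card : ℝ) / η q ≤ θ * (1 - (1 / 2) ^ Q.card) := by
  revert hQ hx
  refine Finset.induction_on_min_value
    (motive := fun Q => Q ⊆ P → (∀ q ∈ Q, x q ∈ q) →
      ∑ q ∈ Q, ((AB F Q rk q (x q)).card : ℝ) / η q ≤ θ * (1 - (1 / 2) ^ Q.card)) rk Q ?_ ?_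
  · intro _ _
    simp
  · intro a s has hmin ih hQ hx
    have hsP : s ⊆ P := fun q hq => hQ (mem_insert_of_mem hq)
    have haP : a ∈ P := hQ (mem_insert_self _ _)
    have IH := ih hsP (fun q hq => hx q (mem_insert_of_mem hq))
    have hlt : ∀ b ∈ s, rk a < rk b := by
      intro b hb
      refine lt_of_le_of_ne (hmin b hb) ?_
      intro hab
      have := hinj (mem_coe.2 haP) (mem_coe.2 (hsP hb)) hab
      exact has (this ▸ hb)
    have hηa := hη a haP
    rw [sum_insert has, card_insert_of_notMem has]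
    -- the term of `a`
    have t1 : ((AB F (insert a s) rk a (x a)).card : ℝ) ≤ nn F a (x a) := by
      have : AB F (insert a s) rk a (x a) ⊆ F.filter (fun S => x a ∈ S ∧ ¬ a ⊆ S) := by
        intro S hS
        simp only [AB, mem_filter] at hS ⊢
        exact ⟨hS.1, hS.2.1, hS.2.2.1⟩
      exact_mod_cast card_le_card this
    have t2 := hnn a haP (x a) (hx a (mem_insert_self _ _))
    -- the other terms
    have t3 : ∑ q ∈ s, ((AB F (insert a s) rk q (x q)).card : ℝ) / η q ≤
        1 / 2 * ∑ q ∈ s, ((AB F s rk q (x q)).card : ℝ) / η q +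
        1 / 2 * ((V F a).card : ℝ) / η a := by
      have u1 : ∀ q ∈ s, ((AB F (insert a s) rk q (x q)).card : ℝ) / η q ≤
          1 / 2 * (((AB F s rk q (x q)).card : ℝ) / η q) +
          1 / 2 * ((((AB F (insert a s) rk q (x q)) ∩ V F a).card : ℝ) / η a) := by
        intro q hq
        have hηq := hη q (hsP hq)
        have e := exchange h haP hsP hq has hlt (hx q (mem_insert_of_mem hq))
        have e' : (2 : ℝ) * ((AB F (insert a s) rk q (x q)).card : ℝ) ≤
            ((AB F s rk q (x q)).card : ℝ) +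
              (((AB F (insert a s) rk q (x q)) ∩ V F a).card : ℝ) := by exact_mod_cast e
        have v1 : ((AB F (insert a s) rk q (x q)).card : ℝ) / η q ≤
            (1 / 2 * ((AB F s rk q (x q)).card : ℝ) +
              1 / 2 * (((AB F (insert a s) rk q (x q)) ∩ V F a).card : ℝ)) / η q := by
          apply div_le_div_of_nonneg_right _ hηq.le
          linarith
        have v2 : (((AB F (insert a s) rk q (x q)) ∩ V F a).card : ℝ) / η q ≤
            (((AB F (insert a s) rk q (x q)) ∩ V F a).card : ℝ) / η a :=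
          div_le_div_of_nonneg_left (by positivity) hηa (hmono a haP q (hsP hq) (hlt q hq))
        calc _ ≤ _ := v1
          _ = 1 / 2 * (((AB F s rk q (x q)).card : ℝ) / η q) +
              1 / 2 * ((((AB F (insert a s) rk q (x q)) ∩ V F a).card : ℝ) / η q) := by ring
          _ ≤ _ := by linarith
      refine (sum_le_sum u1).trans ?_
      rw [sum_add_distrib, ← mul_sum, ← mul_sum, ← sum_div]
      have u2 : ∑ q ∈ s, (((AB F (insert a s) rk q (x q)) ∩ V F a).card : ℝ) ≤
          ((V F a).card : ℝ) := by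
        have : ∑ q ∈ s, ((AB F (insert a s) rk q (x q)) ∩ V F a).card ≤ (V F a).card := by
          rw [← card_biUnion]
          · apply card_le_card
            intro S hS
            obtain ⟨q, _, hq⟩ := mem_biUnion.1 hS
            exact (mem_inter.1 hq).2
          · intro q hq q' hq' hqq
            have hr : rk q ≠ rk q' := by
              intro hr
              exact hqq (hinj (mem_coe.2 (hsP hq)) (mem_coe.2 (hsP hq')) hr)
            exact (AB_disjoint (mem_insert_of_mem hq) (mem_insert_of_mem hq') hr).mono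
              inter_subset_left inter_subset_left
        exact_mod_cast this
      have u3 : (∑ q ∈ s, (((AB F (insert a s) rk q (x q)) ∩ V F a).card : ℝ)) / η a ≤
          ((V F a).card : ℝ) / η a := div_le_div_of_nonneg_right u2 hηa.le
      have u4 : 1 / 2 * ((V F a).card : ℝ) / η a = 1 / 2 * (((V F a).card : ℝ) / η a) := by
        ring
      rw [u4]
      linarith
    have t4 : ((AB F (insert a s) rk a (x a)).card : ℝ) / η a +
        1 / 2 * ((V F a).card : ℝ) / η a ≤ θ / 2 := by
      rw [← add_div, div_le_iff₀ hηa]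
      linarith
    have e2 : θ * (1 - (1 / 2 : ℝ) ^ (s.card + 1)) =
        θ / 2 + 1 / 2 * (θ * (1 - (1 / 2) ^ s.card)) := by
      rw [pow_succ]
      ring
    rw [e2]
    linarith

theorem mem_AB_of_FM {rk : Finset α → ℕ} {k S q : Finset α} {x : α} (hS : S ∈ F)
    (hq : FM P rk k S q) (hx : x ∈ S) : S ∈ AB F (tch P k) rk q x := by
  simp only [AB, mem_filter]
  refine ⟨hS, hx, hq.2.1, ?_⟩
  intro q' hq' hr
  by_contra hcon
  exact absurd (hq.2.2 q' hq' hcon) (not_le.2 hr)

/-- every charged member is paid by a hub -/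
theorem payer (h : Sys F G P) {rk : Finset α → ℕ} {η : Finset α → ℝ}
    (hinj : Set.InjOn rk (P : Set (Finset α)))
    (hmono : ∀ p ∈ P, ∀ q ∈ P, rk p < rk q → η p ≤ η q)
    {x : Finset α → Finset α → α} (hx : ∀ k ∈ hubs G P, ∀ q ∈ tch P k, x k q ∈ q ∧ x k q ∈ k)
    {p : Finset α} (hp : p ∈ P) {S : Finset α} (hS : S ∈ Ch F G P rk p) :
    ∃ k ∈ hubs G P, ∃ q ∈ tch P k, S ∈ AB F (tch P k) rk q (x k q) ∧ η q ≤ η p ∧
      Rel P rk k S p := by
  unfold Ch at hS
  rw [mem_filter] at hS
  obtain ⟨hSD, hor⟩ := hS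
  simp only [D, mem_filter] at hSD
  rcases hor with ⟨k, hkh, hkS, hFM⟩ | ⟨k, hkh, hpt, hkc, hkS, hFM⟩
  · exact ⟨k, hkh, p, hFM.1, mem_AB_of_FM hSD.1 hFM (hkS (hx k hkh p hFM.1).2), le_rfl,
      Or.inl ⟨hkS, hFM⟩⟩
  · -- a low hub
    obtain ⟨q, hq, hmin⟩ := exists_min_image ((tch P k).filter (fun q => ¬ q ⊆ S)) rk
      ⟨p, mem_filter.2 ⟨hpt, hSD.2⟩⟩
    rw [mem_filter] at hq
    have hqFM : FM P rk k S q :=
      ⟨hq.1, hq.2, fun q' hq' hqS => hmin q' (mem_filter.2 ⟨hq', hqS⟩)⟩
    have hqP : q ∈ P := (mem_filter.1 hq.1).1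
    have hqp : q ≠ p := by
      rintro rfl
      exact hFM hqFM
    have hle : rk q ≤ rk p := hmin p (mem_filter.2 ⟨hpt, hSD.2⟩)
    have hlt : rk q < rk p := by
      refine lt_of_le_of_ne hle ?_
      intro he
      exact hqp (hinj (mem_coe.2 hqP) (mem_coe.2 hp) he)
    have hxq := hx k hkh q hq.1
    have hxS : x k q ∈ S := by
      rcases mem_union.1 (hkc hxq.2) with h' | h'
      · exact h'
      · exact absurd h' (Finset.disjoint_left.1 (h.disj q hqP p hp hqp) hxq.1)
    exact ⟨k, hkh, q, hq.1, mem_AB_of_FM hSD.1 hqFM hxS, hmono q hqP p hp hlt,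
      Or.inr ⟨hkS, hkc⟩⟩

/-- the total charge is at most the total supply -/
theorem total (h : Sys F G P) {rk : Finset α → ℕ} {η : Finset α → ℝ}
    (hinj : Set.InjOn rk (P : Set (Finset α))) (hη : ∀ p ∈ P, 0 < η p)
    (hmono : ∀ p ∈ P, ∀ q ∈ P, rk p < rk q → η p ≤ η q)
    {x : Finset α → Finset α → α} (hx : ∀ k ∈ hubs G P, ∀ q ∈ tch P k, x k q ∈ q ∧ x k q ∈ k) :
    ∑ p ∈ P, ((Ch F G P rk p).card : ℝ) / η p ≤
      ∑ k ∈ hubs G P, ∑ q ∈ tch P k, ((AB F (tch P k) rk q (x k q)).card : ℝ) / η q := by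
  set T : Finset (Σ _ : Finset α, Finset α) :=
    P.sigma (fun p => Ch F G P rk p) with hT
  set U : Finset (Σ _ : Finset α, Σ _ : Finset α, Finset α) :=
    (hubs G P).sigma (fun k => (tch P k).sigma (fun q => AB F (tch P k) rk q (x k q))) with hU
  have eT : ∑ p ∈ P, ((Ch F G P rk p).card : ℝ) / η p =
      ∑ u ∈ T, 1 / η u.1 := by
    rw [hT, sum_sigma]
    apply sum_congr rfl
    intro p _
    dsimp only
    rw [sum_const, nsmul_eq_mul]
    ring
  have eU : ∑ k ∈ hubs G P, ∑ q ∈ tch P k, ((AB F (tch P k) rk q (x k q)).card : ℝ) / η q =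
      ∑ u ∈ U, 1 / η u.2.1 := by
    rw [hU, sum_sigma]
    apply sum_congr rfl
    intro k _
    rw [sum_sigma]
    apply sum_congr rfl
    intro q _
    dsimp only
    rw [sum_const, nsmul_eq_mul]
    ring
  rw [eT, eU]
  have hpay : ∀ u ∈ T, ∃ v ∈ U, v.2.2 = u.2 ∧ η v.2.1 ≤ η u.1 ∧ Rel P rk v.1 u.2 u.1 := by
    intro u hu
    rw [hT, mem_sigma] at hu
    obtain ⟨k, hk, q, hq, hA, he, hR⟩ := payer h hinj hmono hx hu.1 hu.2
    refine ⟨⟨k, q, u.2⟩, ?_, rfl, he, hR⟩
    rw [hU, mem_sigma]
    refine ⟨hk, ?_⟩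
    rw [mem_sigma]
    exact ⟨hq, hA⟩
  rcases T.eq_empty_or_nonempty with h0 | h0
  · rw [h0, sum_empty]
    apply sum_nonneg
    intro v hv
    rw [hU, mem_sigma, mem_sigma] at hv
    have := hη v.2.1 (mem_filter.1 hv.2.1).1
    positivity
  have : Nonempty (Σ _ : Finset α, Σ _ : Finset α, Finset α) := ⟨⟨∅, ∅, ∅⟩⟩
  choose! f hf using hpay
  calc ∑ u ∈ T, 1 / η u.1 ≤ ∑ u ∈ T, 1 / η (f u).2.1 := by
        apply sum_le_sum
        intro u hu
        obtain ⟨hfU, _, he, _⟩ := hf u hu
        rw [hU, mem_sigma, mem_sigma] at hfU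
        exact one_div_le_one_div_of_le (hη _ (mem_filter.1 hfU.2.1).1) he
    _ = ∑ v ∈ T.image f, 1 / η v.2.1 := by
        rw [sum_image]
        intro u hu v hv huv
        obtain ⟨_, a1, _, a2⟩ := hf u (mem_coe.1 hu)
        obtain ⟨_, b1, _, b2⟩ := hf v (mem_coe.1 hv)
        have e1 : u.2 = v.2 := by rw [← a1, ← b1, huv]
        have hu' := (mem_sigma.1 (hT ▸ mem_coe.1 hu)).1
        have hv' := (mem_sigma.1 (hT ▸ mem_coe.1 hv)).1
        have e2 : u.1 = v.1 := by
          apply Rel_unique h hinj hu' hv' a2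
          rw [huv, e1]
          exact b2
        obtain ⟨u1, u2⟩ := u
        obtain ⟨v1, v2⟩ := v
        simp only at e1 e2
        subst e1
        subst e2
        rfl
    _ ≤ ∑ v ∈ U, 1 / η v.2.1 := by
        apply sum_le_sum_of_subset_of_nonneg
        · intro v hv
          obtain ⟨u, hu, rfl⟩ := mem_image.1 hv
          exact (hf u hu).1
        · intro v hv _
          rw [hU, mem_sigma, mem_sigma] at hv
          have := hη v.2.1 (mem_filter.1 hv.2.1).1
          positivity

/-- The weighted crossing theorem: if `2 a + v ≤ θ η p` for all `p ∈ P`, where `a` is the number of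
the members containing a given element of `p` but not `p` and `v = |V F p|`, and every `p ∈ P` is met
partially by some generator, then `|P| ≤ θ ∑ (1 - 2 ^ (-d))`, the sum over the hubs, each meeting
partially `d` sets of `P`. -/
theorem weighted (h : Sys F G P) {θ : ℝ} (hθ : 0 ≤ θ)
    (H : ∀ p ∈ P, ∀ y ∈ p, 2 * (nn F p y : ℝ) + ((V F p).card : ℝ) ≤ θ * (eta F p : ℝ))
    (ht : ∀ p ∈ P, ∃ k ∈ G, ¬ Disjoint p k ∧ ¬ p ⊆ k) :
    (P.card : ℝ) ≤ θ * ∑ k ∈ hubs G P, (1 - (1 / 2 : ℝ) ^ (tch P k).card) := by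
  rcases P.eq_empty_or_nonempty with hP0 | hne
  · rw [hP0]
    simp only [card_empty, Nat.cast_zero]
    apply mul_nonneg hθ
    apply sum_nonneg
    intro k _
    have := pow_le_one₀ (n := (tch (∅ : Finset (Finset α)) k).card) (a := (1 / 2 : ℝ))
      (by norm_num) (by norm_num)
    linarith
  obtain ⟨p0, hp0⟩ := hne
  obtain ⟨y0, _⟩ := h.ne p0 hp0
  have : Nonempty α := ⟨y0⟩
  set ηN : Finset α → ℕ := fun p => eta F p with hηN
  -- rank
  set idx : Finset α → ℕ := fun p => if hp : p ∈ P then (P.equivFin ⟨p, hp⟩ : ℕ) else 0 with hidx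
  set rk : Finset α → ℕ := fun p => ηN p * P.card + idx p with hrk
  have hidx_lt : ∀ p ∈ P, idx p < P.card := by
    intro p hp
    rw [hidx]
    simp only [hp, dif_pos]
    exact (P.equivFin ⟨p, hp⟩).2
  have hidx_inj : ∀ p ∈ P, ∀ q ∈ P, idx p = idx q → p = q := by
    intro p hp q hq hpq
    rw [hidx] at hpq
    simp only [hp, hq, dif_pos] at hpq
    have := P.equivFin.injective (Fin.ext hpq)
    exact congrArg Subtype.val this
  have hPc : 0 < P.card := card_pos.2 ⟨p0, hp0⟩
  have hinj : Set.InjOn rk (P : Set (Finset α)) := by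
    intro p hp q hq hpq
    have hp' := mem_coe.1 hp
    have hq' := mem_coe.1 hq
    apply hidx_inj p hp' q hq'
    have e1 : rk p % P.card = idx p := by
      rw [hrk]
      simp only
      rw [Nat.mul_comm, Nat.mul_add_mod, Nat.mod_eq_of_lt (hidx_lt p hp')]
    have e2 : rk q % P.card = idx q := by
      rw [hrk]
      simp only
      rw [Nat.mul_comm, Nat.mul_add_mod, Nat.mod_eq_of_lt (hidx_lt q hq')]
    rw [← e1, ← e2, hpq]
  have hmonoN : ∀ p ∈ P, ∀ q ∈ P, rk p < rk q → ηN p ≤ ηN q := by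
    intro p hp q hq hlt
    by_contra hcon
    push Not at hcon
    have h1 : (ηN q + 1) * P.card ≤ ηN p * P.card := Nat.mul_le_mul_right _ hcon
    have h2 := hidx_lt q hq
    simp only [hrk] at hlt
    have e : (ηN q + 1) * P.card = ηN q * P.card + P.card := by ring
    omega
  set η : Finset α → ℝ := fun p => (ηN p : ℝ) with hη
  have hpos : ∀ p ∈ P, 0 < η p := by
    intro p hp
    obtain ⟨k, hk, hk1, hk2⟩ := ht p hp
    obtain ⟨z, hzp, hzk⟩ := not_disjoint_iff.1 hk1
    have h1 : 0 < nn F p z := by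
      unfold nn
      exact card_pos.2 ⟨k, mem_filter.2 ⟨h.gf hk, hzk, hk2⟩⟩
    have h1' : (0 : ℝ) < (nn F p z : ℝ) := by exact_mod_cast h1
    have h2 := H p hp z hzp
    have h3 : (0 : ℝ) ≤ ((V F p).card : ℝ) := by positivity
    have h4 : 0 < θ * (eta F p : ℝ) := by linarith
    have h5 : (0 : ℝ) ≤ (eta F p : ℝ) := by positivity
    rcases h5.lt_or_eq with h6 | h6
    · exact h6
    · rw [← h6, mul_zero] at h4
      exact absurd h4 (lt_irrefl _)
  have hmono : ∀ p ∈ P, ∀ q ∈ P, rk p < rk q → η p ≤ η q := by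
    intro p hp q hq hlt
    rw [hη]
    simp only
    exact_mod_cast hmonoN p hp q hq hlt
  -- points of the hubs
  have hxx : ∀ k ∈ hubs G P, ∀ q ∈ tch P k, ∃ z : α, z ∈ q ∧ z ∈ k := by
    intro k _ q hq
    exact not_disjoint_iff.1 (mem_filter.1 hq).2.1
  choose! x hx using hxx
  have htot := total h hinj hpos hmono hx
  -- lower bound
  have hlow : (P.card : ℝ) ≤ ∑ p ∈ P, ((Ch F G P rk p).card : ℝ) / η p := by
    have : (P.card : ℝ) = ∑ p ∈ P, (1 : ℝ) := by simp
    rw [this]
    apply sum_le_sum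
    intro p hp
    rw [le_div_iff₀ (hpos p hp), one_mul]
    have h1 := eta_le_Ch h rk hp
    rw [hη]
    simp only
    exact_mod_cast h1
  have hup : ∑ k ∈ hubs G P, ∑ q ∈ tch P k,
      ((AB F (tch P k) rk q (x k q)).card : ℝ) / η q ≤
        ∑ k ∈ hubs G P, θ * (1 - (1 / 2) ^ (tch P k).card) := by
    apply sum_le_sum
    intro k hk
    exact supply h hinj hpos hmono H (tch P k) (filter_subset _ _)
      (fun q hq => (hx k hk q hq).1)
  rw [← mul_sum] at hup
  linarith

/-- elements in at most half of the members -/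
theorem weighted_le (h : Sys F G P)
    (H : ∀ p ∈ P, ∀ y ∈ p, 2 * (F.filter (fun S => y ∈ S)).card ≤ F.card)
    (ht : ∀ p ∈ P, ∃ k ∈ G, ¬ Disjoint p k ∧ ¬ p ⊆ k) :
    (P.card : ℝ) ≤ ∑ k ∈ hubs G P, (1 - (1 / 2 : ℝ) ^ (tch P k).card) := by
  have := weighted h (θ := 1) zero_le_one (fun p hp y hy => by
    have h1 := le_eta h hp hy (H p hp y hy)
    rw [one_mul]
    exact_mod_cast h1) ht
  rwa [one_mul] at this

/-- elements in less than half of the members -/
theorem weighted_lt (h : Sys F G P) (hne : P.Nonempty)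
    (H : ∀ p ∈ P, ∀ y ∈ p, 2 * (F.filter (fun S => y ∈ S)).card < F.card)
    (ht : ∀ p ∈ P, ∃ k ∈ G, ¬ Disjoint p k ∧ ¬ p ⊆ k) :
    (P.card : ℝ) < ∑ k ∈ hubs G P, (1 - (1 / 2 : ℝ) ^ (tch P k).card) := by
  obtain ⟨p0, hp0⟩ := hne
  have hFpos : 0 < F.card := card_pos.2 ⟨p0, h.gf (h.pg hp0)⟩
  have hFpos' : (0 : ℝ) < F.card := by exact_mod_cast hFpos
  have hF1 : (1 : ℝ) ≤ F.card := by exact_mod_cast hFpos
  have key := weighted h (θ := 1 - 1 / (F.card : ℝ)) (by
      have : 1 / (F.card : ℝ) ≤ 1 := by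
        rw [div_le_one hFpos']
        exact hF1
      linarith) (fun p hp y hy => by
    have h0 := H p hp y hy
    have e1 : (F.filter (fun S => y ∈ S)).card = (F.filter (fun S => p ⊆ S)).card + nn F p y := by
      rw [← card_filter_add_card_filter_not (s := F.filter (fun S => y ∈ S)) (p := fun S => p ⊆ S)]
      congr 1
      · congr 1
        ext S
        simp only [mem_filter]
        constructor
        · rintro ⟨⟨a, b⟩, c⟩; exact ⟨a, c⟩
        · rintro ⟨a, c⟩; exact ⟨⟨a, c hy⟩, c⟩
      · unfold nn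
        congr 1
        ext S
        simp only [mem_filter]
        tauto
    have e2 := card_filter_add_card_filter_not (s := F) (fun S => p ⊆ S)
    have e3 : (F.filter (fun S => ¬ p ⊆ S)).card = (D F p).card := rfl
    have e4 := V_card h hp
    have e5 := eta_add F p
    have e6 : 2 * nn F p y + (V F p).card + 1 ≤ eta F p := by omega
    have e7 : eta F p ≤ F.card := by
      have : (D F p).card ≤ F.card := card_le_card (filter_subset _ _)
      omega
    have e6' : 2 * (nn F p y : ℝ) + ((V F p).card : ℝ) + 1 ≤ (eta F p : ℝ) := by exact_mod_cast e6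
    have e7' : (eta F p : ℝ) ≤ F.card := by exact_mod_cast e7
    have e8 : 1 / (F.card : ℝ) * (eta F p : ℝ) ≤ 1 := by
      rw [one_div, inv_mul_le_iff₀ hFpos', mul_one]
      exact e7'
    have e9 : (1 - 1 / (F.card : ℝ)) * (eta F p : ℝ) =
        (eta F p : ℝ) - 1 / (F.card : ℝ) * (eta F p : ℝ) := by ring
    rw [e9]
    linarith) ht
  have hPc : (0 : ℝ) < P.card := by exact_mod_cast card_pos.2 ⟨p0, hp0⟩
  set W := ∑ k ∈ hubs G P, (1 - (1 / 2 : ℝ) ^ (tch P k).card) with hS
  have hWp : 0 < W := by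
    by_contra hcon
    push Not at hcon
    have h1 : 0 ≤ 1 - 1 / (F.card : ℝ) := by
      have : 1 / (F.card : ℝ) ≤ 1 := by
        rw [div_le_one hFpos']
        exact hF1
      linarith
    have := mul_nonpos_of_nonneg_of_nonpos h1 hcon
    linarith
  have h2 : (1 - 1 / (F.card : ℝ)) * W < W := by
    have : 0 < 1 / (F.card : ℝ) * W := by positivity
    nlinarith
  linarith

/-- If the elements of the `p ∈ P` lie in at most half of the members and each `p ∈ P` is met
partially by some generator, then `|P| < r`, `r` the number of the hubs. -/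
theorem card_lt_hubs (h : Sys F G P)
    (H : ∀ p ∈ P, ∀ y ∈ p, 2 * (F.filter (fun S => y ∈ S)).card ≤ F.card)
    (ht : ∀ p ∈ P, ∃ k ∈ G, ¬ Disjoint p k ∧ ¬ p ⊆ k) (hne : P.Nonempty) :
    P.card < (hubs G P).card := by
  have h1 := weighted_le h H ht
  obtain ⟨p0, hp0⟩ := hne
  have hhne : (hubs G P).Nonempty := by
    obtain ⟨k, hk, hk1, hk2⟩ := ht p0 hp0
    exact ⟨k, by simp only [hubs, mem_filter]; exact ⟨hk, p0, hp0, hk1, hk2⟩⟩
  have h2 : ∑ k ∈ hubs G P, (1 - (1 / 2 : ℝ) ^ (tch P k).card) < ∑ k ∈ hubs G P, (1 : ℝ) := by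
    apply sum_lt_sum_of_nonempty hhne
    intro k _
    have : (0 : ℝ) < (1 / 2) ^ (tch P k).card := by positivity
    linarith
  rw [sum_const, nsmul_eq_mul, mul_one] at h2
  exact_mod_cast lt_of_le_of_lt h1 h2

/-- If the number of the hubs is at most `|P|` and the elements of the sets `p ∈ P` lie in at
most half of the members, some `p ∈ P` is met partially by no generator. -/
theorem exists_untouched (h : Sys F G P)
    (H : ∀ p ∈ P, ∀ y ∈ p, 2 * (F.filter (fun S => y ∈ S)).card ≤ F.card) (hne : P.Nonempty)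
    (hP : (hubs G P).card ≤ P.card) :
    ∃ p ∈ P, ∀ q ∈ G, Disjoint p q ∨ p ⊆ q := by
  by_contra hcon
  push Not at hcon
  have h1 := card_lt_hubs h H (fun p hp => by
    obtain ⟨q, hq, h1, h2⟩ := hcon p hp
    exact ⟨q, hq, h1, h2⟩) hne
  omega

end Pool.Agent.N435.One
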